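import Mathlib

set_option autoImplicit false
set_option linter.unusedSectionVars false
set_option linter.style.longLine false

namespace Pool.Agent.Helper236.CE

open Finset

section Abs

variable {K V : Type} [Field K] [AddCommGroup V] [Module K V]

/-- sum of the subspaces `C (S \ l)`, `l ∈ T` -/
def Bd (C : Finset ℕ → Submodule K V) (T S : Finset ℕ) : Submodule K V :=
  ⨆ l ∈ T, C (S.erase l)

/-- `C` behaves like a squarefree graded regular sequence on the colours `U` -/
def Reg (C : Finset ℕ → Submodule K V) (U : Finset ℕ) : Prop :=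
  ∀ S ⊆ U, ∀ T ⊆ S, ∀ j ∈ U, j ∉ S → C S ⊓ Bd C T (insert j S) ≤ Bd C T S

end Abs

section Poset

variable {P : Type} [PartialOrder P] [Fintype P] [DecidableEq P] [BoundedOrder P] [GradeOrder ℕ P]

/-- chains -/
def Ch (F : Finset P) : Prop := ∀ x ∈ F, ∀ y ∈ F, x ≤ y ∨ y ≤ x

/-- colours (ranks) of the elements -/
def col (F : Finset P) : Finset ℕ := F.image (fun x => grade ℕ x)

/-- the elements whose colour lies in `A` -/
def rs (A : Finset ℕ) (F : Finset P) : Finset P := F.filter (fun x => grade ℕ x ∈ A)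

/-- chains with colour set exactly `U` in the link of `Q` -/
abbrev Fc (U : Finset ℕ) (Q : Finset P) : Type := {M : Finset P // Ch (M ∪ Q) ∧ col M = U}

noncomputable instance instFintypeFc (U : Finset ℕ) (Q : Finset P) : Fintype (Fc U Q) :=
  Fintype.ofFinite _

/-- functions on `Fc U Q` that depend only on the colours in `A` -/
def CS (K : Type) [Field K] (U : Finset ℕ) (Q : Finset P) (A : Finset ℕ) :
    Submodule K (Fc U Q → K) :=
  LinearMap.range (LinearMap.funLeft K K (fun M : Fc U Q => rs A M.1))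

/-- contraction with the weights `a` -/
def bd {K : Type} [Field K] (a : P → K) (z : Finset P → K) (F : Finset P) : K :=
  ∑ x ∈ Fᶜ, a x * z (insert x F)

/-- weights: indicator of the rank `l` -/
def th (K : Type) [Field K] (l : ℕ) (x : P) : K := if grade ℕ x = l then 1 else 0

/-- weights: `c` restricted to the colours in `A` -/
def wt {K : Type} [Field K] (c : P → K) (A : Finset ℕ) (x : P) : K := if grade ℕ x ∈ A then c x else 0

/-- the weight of the element of colour `j` -/
def cj {K : Type} [Field K] (c : P → K) (U : Finset ℕ) (Q : Finset P) (j : ℕ) (M : Fc U Q) : K :=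
  ∑ x ∈ rs {j} M.1, c x

/-- the Eulerian condition -/
def Eul (P : Type) [PartialOrder P] [GradeOrder ℕ P] : Prop :=
  ∀ x y : P, x < y →
      Nat.card {z : P // x ≤ z ∧ z ≤ y ∧ Even (grade ℕ z)} =
        Nat.card {z : P // x ≤ z ∧ z ≤ y ∧ ¬ Even (grade ℕ z)}

/-- the conditions of the dual complex: supported on chains of size `n`, colours in `1..2m`,
even colours exactly `A`; all rank sums vanish except for the ranks in `E` -/
structure InZ {K : Type} [Field K] (m : ℕ) (E A : Finset ℕ) (n : ℕ) (z : Finset P → K) : Prop where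
  supp : ∀ F, z F ≠ 0 → Ch F ∧ F.card = n ∧ col F ⊆ Icc 1 (2 * m) ∧ (col F).filter (fun t => Even t) = A
  ker : ∀ l, l ∉ E → bd (th K l) z = 0

/-- all even colours -/
def D0 (m : ℕ) : Finset ℕ := (Icc 1 (2 * m)).filter (fun t => Even t)

/-- weights restricted to odd ranks -/
def od {K : Type} [Field K] (c : P → K) (x : P) : K := if Even (grade ℕ x) then 0 else c x

/-- exactness of the odd part -/
def EX {K : Type} [Field K] (m : ℕ) (c : P → K) (E A : Finset ℕ) (n : ℕ) : Prop :=
  ∀ z : Finset P → K, InZ m E A n z → bd (od c) z = 0 →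
    ∃ w : Finset P → K, InZ m E A (n + 1) w ∧ bd (od c) w = z

/-- the dual of the degree `n` piece -/
structure InR {K : Type} [Field K] (n : ℕ) (z : Finset P → K) : Prop where
  supp : ∀ F, z F ≠ 0 → Ch F ∧ F.card = n
  ker : ∀ l, bd (th K l) z = 0

/-- dual form of the injectivity statement on the interval between ranks `p` and `q` -/
def WStar {K : Type} [Field K] (c : P → K) (p q : ℕ) : Prop :=
  ∀ Q : Finset P, Ch Q → col Q = ({p, q} : Finset ℕ).erase 0 → ∀ ζ : Finset P → K,
    (∀ G, ζ G ≠ 0 → Ch (G ∪ Q) ∧ col G = (Ioo p q).filter (fun t => Even t)) →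
    (∀ l ∈ (Ioo p q).filter (fun t => Even t), bd (th K l) ζ = 0) →
    ∃ w : Finset P → K,
      (∀ G, w G ≠ 0 → Ch (G ∪ Q) ∧ ∃ j ∈ Ioo p q, ¬ Even j ∧
        col G = insert j ((Ioo p q).filter (fun t => Even t))) ∧
      (∀ l ∈ Ioo p q, bd (th K l) w = 0) ∧
      bd (wt c ((Ioo p q).filter (fun t => ¬ Even t))) w = ζ

end Poset

section Basics

theorem Bd_mono_T {K V : Type} [Field K] [AddCommGroup V] [Module K V]
    (C : Finset ℕ → Submodule K V) {T T' : Finset ℕ} (h : T ⊆ T') (S : Finset ℕ) :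
    Bd C T S ≤ Bd C T' S :=
  biSup_mono (fun _ hl => h hl)

theorem Bd_mono_S {K V : Type} [Field K] [AddCommGroup V] [Module K V]
    (C : Finset ℕ → Submodule K V) (hC : Monotone C) (T : Finset ℕ) {S S' : Finset ℕ} (h : S ⊆ S') :
    Bd C T S ≤ Bd C T S' :=
  iSup₂_mono (fun l _ => hC (erase_subset_erase l h))

theorem le_Bd {K V : Type} [Field K] [AddCommGroup V] [Module K V]
    (C : Finset ℕ → Submodule K V) {T : Finset ℕ} (S : Finset ℕ) {l : ℕ} (hl : l ∈ T) :
    C (S.erase l) ≤ Bd C T S :=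
  le_iSup₂_of_le l hl le_rfl

theorem mem_Bd {K V : Type} [Field K] [AddCommGroup V] [Module K V]
    (C : Finset ℕ → Submodule K V) (T S : Finset ℕ) (v : V) :
    v ∈ Bd C T S ↔ ∃ f : ℕ → V, (∀ l ∈ T, f l ∈ C (S.erase l)) ∧ ∑ l ∈ T, f l = v := by
  constructor
  · intro h
    rw [Bd, Submodule.mem_iSup_finset_iff_exists_sum] at h
    obtain ⟨μ, hμ⟩ := h
    exact ⟨fun l => (μ l : V), fun l _ => (μ l).2, hμ⟩
  · rintro ⟨f, hf, rfl⟩
    exact Submodule.sum_mem _ (fun l hl => le_Bd C S hl (hf l hl))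

variable {P : Type} [PartialOrder P] [Fintype P] [DecidableEq P] [BoundedOrder P] [GradeOrder ℕ P]
variable {K : Type} [Field K]

theorem Ch.mono {F G : Finset P} (h : Ch G) (hFG : F ⊆ G) : Ch F :=
  fun x hx y hy => h x (hFG hx) y (hFG hy)

theorem Ch.inj {F : Finset P} (h : Ch F) {x y : P} (hx : x ∈ F) (hy : y ∈ F)
    (hxy : grade ℕ x = grade ℕ y) : x = y := by
  rcases h x hx y hy with h1 | h1
  · rcases h1.eq_or_lt with h2 | h2
    · exact h2
    · have := grade_strictMono (𝕆 := ℕ) h2; omega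
  · rcases h1.eq_or_lt with h2 | h2
    · exact h2.symm
    · have := grade_strictMono (𝕆 := ℕ) h2; omega

theorem Ch.lt {F : Finset P} (h : Ch F) {x y : P} (hx : x ∈ F) (hy : y ∈ F)
    (hxy : grade ℕ x < grade ℕ y) : x < y := by
  rcases h x hx y hy with h1 | h1
  · rcases h1.eq_or_lt with h2 | h2
    · subst h2; omega
    · exact h2
  · have := grade_mono (𝕆 := ℕ) h1; omega

theorem card_col {F : Finset P} (h : Ch F) : (col F).card = F.card :=
  card_image_of_injOn (fun _ hx _ hy hxy => h.inj hx hy hxy)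

theorem mem_col {F : Finset P} {t : ℕ} : t ∈ col F ↔ ∃ x ∈ F, grade ℕ x = t := by
  simp [col]

theorem mem_rs {A : Finset ℕ} {F : Finset P} {x : P} : x ∈ rs A F ↔ x ∈ F ∧ grade ℕ x ∈ A := by
  simp [rs]

theorem rs_subset (A : Finset ℕ) (F : Finset P) : rs A F ⊆ F := filter_subset _ _

theorem rs_rs (A B : Finset ℕ) (F : Finset P) : rs A (rs B F) = rs (A ∩ B) F := by
  ext x; simp only [mem_rs, mem_inter]; tauto

theorem rs_rs_of_subset {A B : Finset ℕ} (h : A ⊆ B) (F : Finset P) : rs A (rs B F) = rs A F := by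
  rw [rs_rs, inter_eq_left.2 h]

theorem col_rs (A : Finset ℕ) (F : Finset P) : col (rs A F) = col F ∩ A := by
  ext t; simp only [mem_col, mem_rs, mem_inter]
  constructor
  · rintro ⟨x, ⟨hx, hA⟩, rfl⟩; exact ⟨⟨x, hx, rfl⟩, hA⟩
  · rintro ⟨⟨x, hx, rfl⟩, hA⟩; exact ⟨x, ⟨hx, hA⟩, rfl⟩

theorem col_insert (x : P) (F : Finset P) : col (insert x F) = insert (grade ℕ x) (col F) := by
  simp [col, image_insert]

theorem col_union (F G : Finset P) : col (F ∪ G) = col F ∪ col G := by
  simp [col, image_union]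

/-- in a chain of colour set `S`, restricting to `S.erase (grade x)` is erasing `x` -/
theorem rs_erase_insert {F : Finset P} {x : P} (h : Ch (insert x F)) (hx : x ∉ F) :
    rs ((col (insert x F)).erase (grade ℕ x)) (insert x F) = F := by
  ext y
  simp only [mem_rs, mem_erase, mem_insert]
  constructor
  · rintro ⟨rfl | hy, hne, _⟩
    · exact absurd rfl hne
    · exact hy
  · intro hy
    refine ⟨Or.inr hy, ?_, ?_⟩
    · intro he
      have := h.inj (mem_insert_of_mem hy) (mem_insert_self x F) he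
      subst this; exact hx hy
    · rw [mem_col]; exact ⟨y, mem_insert_of_mem hy, rfl⟩

theorem mem_CS {U : Finset ℕ} {Q : Finset P} {A : Finset ℕ} {f : Fc U Q → K} :
    f ∈ CS K U Q A ↔ ∃ g : Finset P → K, ∀ M : Fc U Q, f M = g (rs A M.1) := by
  rw [CS, LinearMap.mem_range]
  constructor
  · rintro ⟨g, rfl⟩; exact ⟨g, fun M => rfl⟩
  · rintro ⟨g, hg⟩; exact ⟨g, funext fun M => (hg M).symm⟩

theorem mem_CS_iff {U : Finset ℕ} {Q : Finset P} {A : Finset ℕ} {f : Fc U Q → K} :
    f ∈ CS K U Q A ↔ ∀ M M' : Fc U Q, rs A M.1 = rs A M'.1 → f M = f M' := by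
  rw [mem_CS]
  constructor
  · rintro ⟨g, hg⟩ M M' h; rw [hg, hg, h]
  · intro h
    classical
    refine ⟨fun F => if hF : ∃ M : Fc U Q, rs A M.1 = F then f hF.choose else 0, fun M => ?_⟩
    have hF : ∃ M' : Fc U Q, rs A M'.1 = rs A M.1 := ⟨M, rfl⟩
    show f M = if hF : ∃ M' : Fc U Q, rs A M'.1 = rs A M.1 then f hF.choose else 0
    rw [dif_pos hF]
    exact (h _ _ hF.choose_spec).symm

theorem CS_mono (U : Finset ℕ) (Q : Finset P) : Monotone (CS K U Q) := by
  intro A B hAB f hf
  rw [mem_CS_iff] at hf ⊢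
  intro M M' h
  apply hf
  rw [← rs_rs_of_subset hAB M.1, ← rs_rs_of_subset hAB M'.1, h]

theorem CS_one (U : Finset ℕ) (Q : Finset P) : (1 : Fc U Q → K) ∈ CS K U Q ∅ := by
  rw [mem_CS_iff]; intro M M' _; rfl

theorem CS_mul (U : Finset ℕ) (Q : Finset P) (A B : Finset ℕ) (f : Fc U Q → K)
    (hf : f ∈ CS K U Q A) (g : Fc U Q → K) (hg : g ∈ CS K U Q B) : f * g ∈ CS K U Q (A ∪ B) := by
  have hf' := CS_mono (K := K) U Q (subset_union_left : A ⊆ A ∪ B) hf
  have hg' := CS_mono (K := K) U Q (subset_union_right : B ⊆ A ∪ B) hg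
  rw [mem_CS_iff] at hf' hg' ⊢
  intro M M' h
  rw [Pi.mul_apply, Pi.mul_apply, hf' M M' h, hg' M M' h]

theorem cj_mem (c : P → K) (U : Finset ℕ) (Q : Finset P) (j : ℕ) : cj c U Q j ∈ CS K U Q {j} := by
  rw [mem_CS]; exact ⟨fun F => ∑ x ∈ F, c x, fun M => rfl⟩

theorem bd_apply (a : P → K) (z : Finset P → K) (F : Finset P) :
    bd a z F = ∑ x ∈ Fᶜ, a x * z (insert x F) := rfl

theorem bd_zero (a : P → K) : bd a (0 : Finset P → K) = 0 := by
  funext F; simp [bd]

theorem bd_add (a : P → K) (z w : Finset P → K) : bd a (z + w) = bd a z + bd a w := by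
  funext F; simp [bd, mul_add, sum_add_distrib]

theorem bd_sub (a : P → K) (z w : Finset P → K) : bd a (z - w) = bd a z - bd a w := by
  funext F; simp [bd, mul_sub, sum_sub_distrib]

theorem bd_smul (a : P → K) (r : K) (z : Finset P → K) : bd a (r • z) = r • bd a z := by
  funext F; simp only [bd, Pi.smul_apply, smul_eq_mul, mul_sum]
  exact sum_congr rfl (fun x _ => by ring)

theorem bd_sum {ι : Type} (s : Finset ι) (a : P → K) (z : ι → Finset P → K) :
    bd a (∑ i ∈ s, z i) = ∑ i ∈ s, bd a (z i) := by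
  classical
  induction s using Finset.induction_on with
  | empty => simp [bd_zero]
  | insert i s hi ih => rw [sum_insert hi, sum_insert hi, bd_add, ih]

theorem bd_add_left (a b : P → K) (z : Finset P → K) : bd (a + b) z = bd a z + bd b z := by
  funext F; simp [bd, add_mul, sum_add_distrib]

theorem bd_ne_zero {a : P → K} {z : Finset P → K} {F : Finset P} (h : bd a z F ≠ 0) :
    ∃ x, x ∉ F ∧ a x ≠ 0 ∧ z (insert x F) ≠ 0 := by
  obtain ⟨x, hx, hne⟩ := exists_ne_zero_of_sum_ne_zero h
  exact ⟨x, by simpa using hx, left_ne_zero_of_mul hne, right_ne_zero_of_mul hne⟩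

theorem bd_bd (a b : P → K) (z : Finset P → K) (F : Finset P) :
    bd a (bd b z) F = ∑ x ∈ Fᶜ, ∑ y ∈ Fᶜ, if x = y then 0 else a x * b y * z (insert x (insert y F)) := by
  rw [bd_apply]
  refine sum_congr rfl (fun x hx => ?_)
  rw [bd_apply, mul_sum]
  have h1 : (insert x F)ᶜ = (Fᶜ).erase x := by ext y; simp
  rw [h1, ← sum_erase (Fᶜ) (a := x) (f := fun y => if x = y then (0:K) else a x * b y * z (insert x (insert y F))) (by simp)]
  refine sum_congr rfl (fun y hy => ?_)
  rw [mem_erase] at hy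
  rw [if_neg (Ne.symm hy.1), Finset.insert_comm x y F, mul_assoc]

theorem bd_comm (a b : P → K) (z : Finset P → K) : bd a (bd b z) = bd b (bd a z) := by
  funext F
  rw [bd_bd, bd_bd, sum_comm]
  refine sum_congr rfl (fun x _ => sum_congr rfl (fun y _ => ?_))
  by_cases h : x = y
  · simp [h]
  · rw [if_neg (Ne.symm h), if_neg h, Finset.insert_comm y x F]; ring

theorem bd_self [CharP K 2] (a : P → K) (z : Finset P → K) : bd a (bd a z) = 0 := by
  funext F
  rw [bd_bd]
  have h2 : ∀ v : K, v + v = 0 := fun v => CharTwo.add_self_eq_zero v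
  have key : ∀ s : Finset P, (∑ x ∈ s, ∑ y ∈ s, if x = y then 0 else a x * a y * z (insert x (insert y F))) = 0 := by
    intro s
    induction s using Finset.induction_on with
    | empty => simp
    | insert i s hi ih =>
      rw [sum_insert hi, sum_insert hi, if_pos rfl, zero_add]
      have : ∀ x ∈ s, (∑ y ∈ insert i s, if x = y then (0:K) else a x * a y * z (insert x (insert y F)))
          = a i * a x * z (insert i (insert x F)) +
            ∑ y ∈ s, if x = y then (0:K) else a x * a y * z (insert x (insert y F)) := by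
        intro x hx
        rw [sum_insert hi, if_neg (by rintro rfl; exact hi hx), Finset.insert_comm x i F]
        ring
      rw [sum_congr rfl this, sum_add_distrib, ih, add_zero]
      have : ∀ y ∈ s, (if i = y then (0:K) else a i * a y * z (insert i (insert y F))) =
          a i * a y * z (insert i (insert y F)) := by
        intro y hy
        rw [if_neg (by rintro rfl; exact hi hy)]
      rw [sum_congr rfl this, h2]
  exact key _

/-- a functional separating a vector from a subspace, for functions on a finite type -/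
theorem sep {X : Type} [Fintype X] (W : Submodule K (X → K)) (v : X → K) (hv : v ∉ W) :
    ∃ ζ : X → K, (∀ f ∈ W, ∑ x, ζ x * f x = 0) ∧ ∑ x, ζ x * v x ≠ 0 := by
  classical
  obtain ⟨φ, h1, h2⟩ := Submodule.exists_le_ker_of_notMem hv
  have h3 : ∀ f : X → K, φ f = ∑ x, φ (Pi.single x 1) * f x := by
    intro f
    conv_lhs => rw [pi_eq_sum_univ' f]
    rw [map_sum]
    refine sum_congr rfl (fun x _ => ?_)
    rw [map_smul, smul_eq_mul, mul_comm]
  refine ⟨fun x => φ (Pi.single x 1), fun f hf => ?_, ?_⟩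
  · rw [← h3]; exact h2 hf
  · rw [← h3]; exact h1

end Basics

end Pool.Agent.Helper236.CE
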