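import Pool.Agent.Helper236.CE.Basic

set_option autoImplicit false
set_option linter.unusedSectionVars false
set_option linter.style.longLine false

namespace Pool.Agent.Helper236.CE

open Finset


namespace J_koszul


variable {K V : Type} [Field K] [AddCommGroup V] [Module K V]


theorem Bd_mono_set (C : Finset ℕ → Submodule K V) {T T' : Finset ℕ} (h : T ⊆ T')
    (S : Finset ℕ) : Bd C T S ≤ Bd C T' S :=
  biSup_mono (fun _ hi => h hi)

theorem Bd_mono {C : Finset ℕ → Submodule K V} (hC : Monotone C) (T : Finset ℕ)
    {S S' : Finset ℕ} (h : S ⊆ S') : Bd C T S ≤ Bd C T S' :=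
  iSup₂_mono (fun _ _ => hC (Finset.erase_subset_erase _ h))

theorem le_Bd (C : Finset ℕ → Submodule K V) {T : Finset ℕ} (S : Finset ℕ) {l : ℕ}
    (h : l ∈ T) : C (S.erase l) ≤ Bd C T S :=
  le_iSup₂ (f := fun l (_ : l ∈ T) => C (S.erase l)) l h

/-- TARGET: Koszul exactness in characteristic two. -/
theorem koszul [CharP K 2] (U : Finset ℕ) (C : Finset ℕ → Submodule K V) (hC : Monotone C)
    (hreg : ∀ S ⊆ U, ∀ T ⊆ S, ∀ j ∈ U, j ∉ S → C S ⊓ Bd C T (insert j S) ≤ Bd C T S)
    (J W : Finset ℕ) : ∀ (A : Finset ℕ), J ⊆ A → W ⊆ U → A ⊆ U → Disjoint W A →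
    ∀ (n : ℕ), 1 ≤ n → ∀ (y : Finset ℕ → V),
    (∀ I ⊆ W, I.card = n → y I ∈ C ((W \ I) ∪ A)) →
    (∀ I ⊆ W, I.card + 1 = n → ∑ i ∈ W \ I, y (insert i I) ∈ Bd C J ((W \ I) ∪ A)) →
    ∃ x : Finset ℕ → V, (∀ I ⊆ W, I.card = n + 1 → x I ∈ C ((W \ I) ∪ A)) ∧
      ∀ I ⊆ W, I.card = n → y I - ∑ i ∈ W \ I, x (insert i I) ∈ Bd C J ((W \ I) ∪ A) := by
  have h2 : ∀ v : V, v + v = 0 := by
    intro v
    have : ((2 : ℕ) : K) = 0 := CharP.cast_eq_zero K 2
    have h : (2 : K) • v = 0 := by
      have h' : (2 : K) = 0 := by exact_mod_cast this
      rw [h', zero_smul]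
    rwa [two_smul] at h
  induction W using Finset.induction_on with
  | empty =>
    intro A _ _ _ _ n hn y _ _
    refine ⟨fun _ => 0, ?_, ?_⟩
    · intro I _ _
      exact Submodule.zero_mem _
    · intro I hI hc
      rw [Finset.subset_empty] at hI
      subst hI
      simp at hc
      omega
  | insert w W hwW IH =>
    intro A hJA hWU hAU hd n hn y hy1 hy2
    have hwA : w ∉ A := by
      rw [Finset.disjoint_insert_left] at hd
      exact hd.1
    have hdW : Disjoint W A := by
      rw [Finset.disjoint_insert_left] at hd
      exact hd.2
    have hwU : w ∈ U := hWU (Finset.mem_insert_self _ _)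
    have hWU' : W ⊆ U := (Finset.subset_insert _ _).trans hWU
    have F0 : ∀ I, I ⊆ W → w ∉ I := fun I hI h => hwW (hI h)
    have F1 : ∀ I, I ⊆ W → insert w W \ I = insert w (W \ I) := fun I hI =>
      Finset.insert_sdiff_of_notMem _ (F0 I hI)
    have F2 : ∀ I, I ⊆ W → (insert w W \ I) ∪ A = (W \ I) ∪ insert w A := by
      intro I hI
      rw [F1 I hI, Finset.insert_union, Finset.union_insert]
    have F3 : ∀ I, I ⊆ W → insert w W \ insert w I = W \ I := by
      intro I hI
      ext a
      simp only [Finset.mem_sdiff, Finset.mem_insert]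
      constructor
      · rintro ⟨h1 | h1, h2⟩
        · exact absurd (Or.inl h1) h2
        · exact ⟨h1, fun h => h2 (Or.inr h)⟩
      · rintro ⟨h1, h2⟩
        refine ⟨Or.inr h1, ?_⟩
        rintro (h | h)
        · exact hwW (h ▸ h1)
        · exact h2 h
    have F4 : ∀ I, I ⊆ W → w ∉ W \ I := fun I _ h => hwW (Finset.mem_sdiff.1 h).1
    -- Claim 1
    have claim1 : ∃ x1 : Finset ℕ → V, (∀ I ⊆ W, I.card = n → x1 I ∈ C ((W \ I) ∪ A)) ∧
        ∀ I ⊆ W, I.card + 1 = n →
          y (insert w I) - ∑ i ∈ W \ I, x1 (insert i I) ∈ Bd C J ((W \ I) ∪ A) := by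
      obtain ⟨m, rfl⟩ : ∃ m, n = m + 1 := ⟨n - 1, by omega⟩
      rcases Nat.eq_zero_or_pos m with hm | hm
      · subst hm
        -- n = 1
        set S := W ∪ A with hS
        have hSU : S ⊆ U := Finset.union_subset hWU' hAU
        have hwS : w ∉ S := by
          rw [hS, Finset.mem_union, not_or]
          exact ⟨hwW, hwA⟩
        have hTS : W ∪ J ⊆ S := Finset.union_subset_union_right hJA
        have hyw : y {w} ∈ C S := by
          have := hy1 {w} (by simp) (by simp)
          have e : insert w W \ {w} = W := by
            have := F3 ∅ (Finset.empty_subset _)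
            simpa using this
          rw [e] at this
          exact this
        have hcyc : y {w} + ∑ i ∈ W, y {i} ∈ Bd C J (insert w S) := by
          have := hy2 ∅ (Finset.empty_subset _) (by simp)
          rw [Finset.sdiff_empty, Finset.sum_insert hwW, Finset.insert_union] at this
          simpa using this
        have hyi : ∀ i ∈ W, y {i} ∈ Bd C (W ∪ J) (insert w S) := by
          intro i hi
          have h1 := hy1 {i} (by
            rw [Finset.singleton_subset_iff]
            exact Finset.mem_insert_of_mem hi) (by simp)
          have e : (insert w W \ {i}) ∪ A = (insert w S).erase i := by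
            have hiA : i ∉ A := Finset.disjoint_left.1 hdW hi
            ext a
            simp only [Finset.mem_union, Finset.mem_sdiff, Finset.mem_insert,
              Finset.mem_singleton, Finset.mem_erase, hS]
            constructor
            · rintro (⟨h1 | h1, h2⟩ | h1)
              · exact ⟨h2, Or.inl h1⟩
              · exact ⟨h2, Or.inr (Or.inl h1)⟩
              · exact ⟨fun h => hiA (h ▸ h1), Or.inr (Or.inr h1)⟩
            · rintro ⟨h1, h2 | h2 | h2⟩
              · exact Or.inl ⟨Or.inl h2, h1⟩
              · exact Or.inl ⟨Or.inr h2, h1⟩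
              · exact Or.inr h2
          rw [e] at h1
          exact le_Bd C _ (Finset.mem_union_left _ hi) h1
        have hyw2 : y {w} ∈ Bd C (W ∪ J) (insert w S) := by
          have h1 : y {w} + ∑ i ∈ W, y {i} ∈ Bd C (W ∪ J) (insert w S) :=
            Bd_mono_set C Finset.subset_union_right _ hcyc
          have h3 : ∑ i ∈ W, y {i} ∈ Bd C (W ∪ J) (insert w S) :=
            Submodule.sum_mem _ hyi
          have := Submodule.sub_mem _ h1 h3
          rwa [add_sub_cancel_right] at this
        have hyw3 : y {w} ∈ Bd C (W ∪ J) S :=
          hreg S hSU (W ∪ J) hTS w hwU hwS ⟨hyw, hyw2⟩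
        have hsup : Bd C (W ∪ J) S = Bd C W S ⊔ Bd C J S := by
          unfold Bd
          exact Finset.iSup_union
        rw [hsup, Submodule.mem_sup] at hyw3
        obtain ⟨a, ha, b, hb, hab⟩ := hyw3
        unfold Bd at ha
        rw [Submodule.mem_iSup_finset_iff_exists_sum] at ha
        obtain ⟨μ, hμ⟩ := ha
        refine ⟨fun I => ∑ i ∈ I, (μ i : V), ?_, ?_⟩
        · intro I hI hc
          obtain ⟨i, rfl⟩ := Finset.card_eq_one.1 hc
          have hi : i ∈ W := by simpa using hI
          have hiA : i ∉ A := Finset.disjoint_left.1 hdW hi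
          have e : (W \ {i}) ∪ A = S.erase i := by
            ext a
            simp only [Finset.mem_union, Finset.mem_sdiff, Finset.mem_singleton,
              Finset.mem_erase, hS]
            constructor
            · rintro (⟨h1, h2⟩ | h1)
              · exact ⟨h2, Or.inl h1⟩
              · exact ⟨fun h => hiA (h ▸ h1), Or.inr h1⟩
            · rintro ⟨h1, h2 | h2⟩
              · exact Or.inl ⟨h2, h1⟩
              · exact Or.inr h2
          rw [e]
          simp only [Finset.sum_singleton]
          exact (μ i).2
        · intro I hI hc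
          have hI0 : I = ∅ := by
            rw [← Finset.card_eq_zero]
            omega
          subst hI0
          rw [Finset.sdiff_empty]
          have e2 : ∑ i ∈ W, ∑ j ∈ insert i (∅ : Finset ℕ), (μ j : V) = a := by
            rw [← hμ]
            exact Finset.sum_congr rfl (fun i _ => by simp)
          rw [e2]
          have e3 : y (insert w ∅) - a = b := by
            have : (insert w ∅ : Finset ℕ) = {w} := rfl
            rw [this, ← hab]
            abel
          rw [e3]
          exact hb
      · obtain ⟨x1, hx1, hx1'⟩ := IH A hJA hWU' hAU hdW m hm (fun I => y (insert w I))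
          (by
            intro I hI hc
            have h1 := hy1 (insert w I) (Finset.insert_subset_insert _ hI)
              (by rw [Finset.card_insert_of_notMem (F0 I hI), hc])
            rwa [F3 I hI] at h1)
          (by
            intro I hI hc
            have h1 := hy2 (insert w I) (Finset.insert_subset_insert _ hI)
              (by rw [Finset.card_insert_of_notMem (F0 I hI), hc])
            rw [F3 I hI] at h1
            have e : ∑ i ∈ W \ I, y (insert w (insert i I)) =
                ∑ i ∈ W \ I, y (insert i (insert w I)) :=
              Finset.sum_congr rfl (fun i _ => by rw [Finset.insert_comm])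
            rw [e]
            exact h1)
        refine ⟨x1, hx1, ?_⟩
        intro I hI hc
        exact hx1' I hI (by omega)
    obtain ⟨x1, hx1, hx1'⟩ := claim1
    -- Claim 2
    obtain ⟨x2, hx2, hx2'⟩ := IH (insert w A) (hJA.trans (Finset.subset_insert _ _)) hWU'
      (Finset.insert_subset hwU hAU)
      (by
        rw [Finset.disjoint_insert_right]
        exact ⟨hwW, hdW⟩) n hn (fun I => y I - x1 I)
      (by
        intro I hI hc
        have h1 := hy1 I (hI.trans (Finset.subset_insert _ _)) hc
        rw [F2 I hI] at h1
        refine Submodule.sub_mem _ h1 ?_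
        exact hC (Finset.union_subset_union_right (Finset.subset_insert _ _)) (hx1 I hI hc))
      (by
        intro I hI hc
        have h1 := hy2 I (hI.trans (Finset.subset_insert _ _)) hc
        rw [F2 I hI, F1 I hI, Finset.sum_insert (F4 I hI)] at h1
        have h3 := Bd_mono hC J
          (Finset.union_subset_union_right (s := W \ I) (Finset.subset_insert w A))
          (hx1' I hI hc)
        have h4 := Submodule.add_mem _ h1 h3
        have e : ∑ i ∈ W \ I, (y (insert i I) - x1 (insert i I)) =
            y (insert w I) + ∑ i ∈ W \ I, y (insert i I) +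
              (y (insert w I) - ∑ i ∈ W \ I, x1 (insert i I)) := by
          rw [Finset.sum_sub_distrib]
          have := h2 (y (insert w I))
          calc _ = (y (insert w I) + y (insert w I)) + (∑ i ∈ W \ I, y (insert i I) -
                ∑ i ∈ W \ I, x1 (insert i I)) := by rw [this, zero_add]
            _ = _ := by abel
        rw [e]
        exact h4)
    refine ⟨fun I => if w ∈ I then x1 (I.erase w) else x2 I, ?_, ?_⟩
    · intro I hI hc
      by_cases hw : w ∈ I
      · simp only [hw, if_true]
        have hI1 : I.erase w ⊆ W := by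
          intro a ha
          rw [Finset.mem_erase] at ha
          exact (Finset.mem_insert.1 (hI ha.2)).resolve_left ha.1
        have h1 := hx1 (I.erase w) hI1 (by
          rw [Finset.card_erase_of_mem hw, hc]
          rfl)
        have h3 := F3 (I.erase w) hI1
        rw [Finset.insert_erase hw] at h3
        rw [h3]
        exact h1
      · simp only [hw, if_false]
        have hI1 : I ⊆ W := by
          intro a ha
          exact (Finset.mem_insert.1 (hI ha)).resolve_left (fun h => hw (h ▸ ha))
        rw [F2 I hI1]
        exact hx2 I hI1 hc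
    · intro I hI hc
      by_cases hw : w ∈ I
      · have hI1 : I.erase w ⊆ W := by
          intro a ha
          rw [Finset.mem_erase] at ha
          exact (Finset.mem_insert.1 (hI ha.2)).resolve_left ha.1
        have h1 := hx1' (I.erase w) hI1 (by
          rw [Finset.card_erase_of_mem hw, hc]
          omega)
        have h3 := F3 (I.erase w) hI1
        rw [Finset.insert_erase hw] at h3 h1
        rw [h3]
        have e : ∑ i ∈ W \ I.erase w, (if w ∈ insert i I then x1 ((insert i I).erase w)
            else x2 (insert i I)) = ∑ i ∈ W \ I.erase w, x1 (insert i (I.erase w)) := by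
          refine Finset.sum_congr rfl (fun i hi => ?_)
          have hiw : i ≠ w := by
            rintro rfl
            exact hwW (Finset.mem_sdiff.1 hi).1
          rw [if_pos (Finset.mem_insert_of_mem hw), Finset.erase_insert_of_ne hiw]
        simp only [e]
        exact h1
      · have hI1 : I ⊆ W := by
          intro a ha
          exact (Finset.mem_insert.1 (hI ha)).resolve_left (fun h => hw (h ▸ ha))
        have h1 := hx2' I hI1 hc
        rw [F2 I hI1, F1 I hI1, Finset.sum_insert (F4 I hI1)]
        have e1 : (if w ∈ insert w I then x1 ((insert w I).erase w)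
            else x2 (insert w I)) = x1 I := by
          rw [if_pos (Finset.mem_insert_self _ _), Finset.erase_insert hw]
        have e : ∑ i ∈ W \ I, (if w ∈ insert i I then x1 ((insert i I).erase w)
            else x2 (insert i I)) = ∑ i ∈ W \ I, x2 (insert i I) := by
          refine Finset.sum_congr rfl (fun i hi => ?_)
          have hiw : i ≠ w := by
            rintro rfl
            exact hwW (Finset.mem_sdiff.1 hi).1
          rw [if_neg]
          rw [Finset.mem_insert, not_or]
          exact ⟨Ne.symm hiw, hw⟩
        simp only [e, e1]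
        have e5 : y I - (x1 I + ∑ i ∈ W \ I, x2 (insert i I)) =
            y I - x1 I - ∑ i ∈ W \ I, x2 (insert i I) := by abel
        rw [e5]
        exact h1


end J_koszul

end Pool.Agent.Helper236.CE
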