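import Pool.Agent.Helper236.CE.Basic
import Pool.Agent.Helper236.CE.J_koszul

set_option autoImplicit false
set_option linter.unusedSectionVars false
set_option linter.style.longLine false

namespace Pool.Agent.Helper236.CE

open Finset
open J_koszul (koszul)


namespace J_koszul_family

section Job

variable {K X : Type} [Field K] [CharP K 2] [Fintype X]


theorem sym_sum_zero (F : ℕ → ℕ → X → K) (hF : ∀ a b, F a b = F b a) (s : Finset ℕ) :
    (∑ a ∈ s, ∑ b ∈ s.erase a, F a b) = 0 := by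
  have h2 : ∀ v : X → K, v + v = 0 := fun v => by
    funext x
    exact CharTwo.add_self_eq_zero (v x)
  have key : ∀ s : Finset ℕ, (∑ x ∈ s, ∑ y ∈ s, if x = y then 0 else F x y) = 0 := by
    intro s
    induction s using Finset.induction_on with
    | empty => simp
    | insert i s hi ih =>
      rw [sum_insert hi, sum_insert hi, if_pos rfl, zero_add]
      have : ∀ x ∈ s, (∑ y ∈ insert i s, if x = y then (0 : X → K) else F x y)
          = F i x + ∑ y ∈ s, if x = y then (0 : X → K) else F x y := by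
        intro x hx
        rw [sum_insert hi, if_neg (by rintro rfl; exact hi hx), hF x i]
      rw [sum_congr rfl this, sum_add_distrib, ih, add_zero]
      have : ∀ y ∈ s, (if i = y then (0 : X → K) else F i y) = F i y := by
        intro y hy
        rw [if_neg (by rintro rfl; exact hi hy)]
      rw [sum_congr rfl this, h2]
  rw [← key s]
  refine sum_congr rfl fun a ha => ?_
  rw [← sum_erase s (a := a) (f := fun y => if a = y then (0 : X → K) else F a y) (by simp)]
  refine sum_congr rfl fun b hb => ?_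
  rw [if_neg (Ne.symm (mem_erase.mp hb).1)]

theorem mul_mem_Bd (D O : Finset ℕ) (hDO : Disjoint D O)
    (C : Finset ℕ → Submodule K (X → K))
    (c : ℕ → X → K) (hc : ∀ j ∈ O, ∀ A, ∀ f ∈ C A, c j * f ∈ C (insert j A))
    (I J : Finset ℕ) (hJ : J ⊆ O) (j : ℕ) (hj : j ∈ J) (r : X → K)
    (hr : r ∈ Bd C (J.erase j) ((D \ I) ∪ J.erase j)) :
    c j * r ∈ Bd C J ((D \ I) ∪ J) := by
  rw [mem_Bd] at hr
  obtain ⟨f, hf, rfl⟩ := hr
  rw [mul_sum]
  refine Submodule.sum_mem _ fun l hl => ?_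
  have h1 := hc j (hJ hj) _ _ (hf l hl)
  have hjD : j ∉ D := fun h => (disjoint_left.mp hDO h) (hJ hj)
  have hlj : l ≠ j := (mem_erase.mp hl).1
  have h2 : insert j (((D \ I) ∪ J.erase j).erase l) = ((D \ I) ∪ J).erase l := by
    ext a
    simp only [mem_insert, mem_erase, mem_union, mem_sdiff]
    constructor
    · rintro (rfl | ⟨h3, h4 | h4⟩)
      · exact ⟨hlj.symm, Or.inr hj⟩
      · exact ⟨h3, Or.inl h4⟩
      · exact ⟨h3, Or.inr h4.2⟩
    · rintro ⟨h3, h4 | h4⟩
      · exact Or.inr ⟨h3, Or.inl h4⟩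
      · by_cases h5 : a = j
        · exact Or.inl h5
        · exact Or.inr ⟨h3, Or.inr ⟨h5, h4⟩⟩
  rw [h2] at h1
  exact le_Bd C _ (mem_erase.mp hl).2 h1

/-- one layer -/
theorem koszul_layer (D O : Finset ℕ) (hDO : Disjoint D O)
    (C : Finset ℕ → Submodule K (X → K)) (hC : Monotone C)
    (c : ℕ → X → K) (hc : ∀ j ∈ O, ∀ A, ∀ f ∈ C A, c j * f ∈ C (insert j A))
    (hreg : Reg C (D ∪ O))
    (u : X → K) (hcu : ∀ j ∈ O, c j * u ∈ Bd C (insert j D) (insert j D))
    (n : ℕ) (x : Finset ℕ → Finset ℕ → X → K) (hx0 : x ∅ ∅ = u)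
    (hx1 : ∀ I ⊆ D, ∀ J ⊆ O, J.card ≤ n → x I J ∈ C ((D \ I) ∪ J))
    (hx2 : ∀ I ⊆ D, ∀ J ⊆ O, J.card = I.card + 1 → J.card ≤ n →
        ∑ j ∈ J, c j * x I (J.erase j) - ∑ i ∈ D \ I, x (insert i I) J ∈ Bd C J ((D \ I) ∪ J))
    (J : Finset ℕ) (hJ : J ⊆ O) (hJn : J.card = n + 1) :
    ∃ xJ : Finset ℕ → X → K,
      (∀ I ⊆ D, I.card = n + 1 → xJ I ∈ C ((D \ I) ∪ J)) ∧
      (∀ I ⊆ D, I.card = n →
        ∑ j ∈ J, c j * x I (J.erase j) - ∑ i ∈ D \ I, xJ (insert i I) ∈ Bd C J ((D \ I) ∪ J)) := by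
  rcases Nat.eq_zero_or_pos n with hn | hn
  · subst hn
    obtain ⟨j, rfl⟩ := card_eq_one.mp hJn
    have hjO : j ∈ O := hJ (mem_singleton_self j)
    have hjD : j ∉ D := fun h => (disjoint_left.mp hDO h) hjO
    have h1 := hcu j hjO
    rw [mem_Bd] at h1
    obtain ⟨f, hf, hfs⟩ := h1
    refine ⟨fun I => ∑ i ∈ I, f i, ?_, ?_⟩
    · intro I hI hI1
      obtain ⟨i, rfl⟩ := card_eq_one.mp hI1
      have hiD : i ∈ D := hI (mem_singleton_self i)
      have h2 := hf i (mem_insert_of_mem hiD)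
      have h3 : (insert j D).erase i = (D \ {i}) ∪ {j} := by
        ext a
        simp only [mem_insert, mem_erase, mem_union, mem_sdiff, mem_singleton]
        constructor
        · rintro ⟨h3, h4 | h4⟩
          · exact Or.inr h4
          · exact Or.inl ⟨h4, h3⟩
        · rintro (⟨h3, h4⟩ | h3)
          · exact ⟨h4, Or.inr h3⟩
          · subst h3
            exact ⟨by rintro rfl; exact hjD hiD, Or.inl rfl⟩
      rw [h3] at h2
      simpa using h2
    · intro I hI hI0
      rw [card_eq_zero] at hI0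
      subst hI0
      have h4 : ({j} : Finset ℕ).erase j = ∅ := by simp
      rw [sum_singleton, h4, hx0, ← hfs, sum_insert hjD, sdiff_empty]
      have h5 : ∑ i ∈ D, ∑ i' ∈ insert i (∅ : Finset ℕ), f i' = ∑ i ∈ D, f i := by simp
      rw [h5, add_sub_cancel_right]
      have h6 := hf j (mem_insert_self j D)
      have h7 : (insert j D).erase j = (D ∪ {j}).erase j := by
        congr 1
        ext a
        simp [or_comm]
      rw [h7] at h6
      exact le_Bd C _ (mem_singleton_self j) h6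
  · refine koszul (D ∪ O) C hC hreg J D J (Subset.refl J) subset_union_left
      (hJ.trans subset_union_right) (hDO.mono_right hJ) n hn
      (fun I => ∑ j ∈ J, c j * x I (J.erase j)) ?_ ?_
    · intro I hI hIn
      refine Submodule.sum_mem _ fun j hj => ?_
      have hcard : (J.erase j).card ≤ n := by rw [card_erase_of_mem hj]; omega
      have h1 := hc j (hJ hj) _ _ (hx1 I hI (J.erase j) ((erase_subset _ _).trans hJ) hcard)
      refine hC ?_ h1
      intro a ha
      simp only [mem_insert, mem_erase, mem_union, mem_sdiff] at ha ⊢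
      rcases ha with rfl | ha | ha
      · exact Or.inr hj
      · exact Or.inl ha
      · exact Or.inr ha.2
    · intro I hI hIn
      rw [sum_comm]
      have h1 : ∀ j ∈ J, ∑ i ∈ D \ I, c j * x (insert i I) (J.erase j) =
          (∑ j' ∈ J.erase j, c j * (c j' * x I ((J.erase j).erase j'))) -
          c j * (∑ j' ∈ J.erase j, c j' * x I ((J.erase j).erase j') -
            ∑ i ∈ D \ I, x (insert i I) (J.erase j)) := by
        intro j hj
        rw [mul_sub, mul_sum, mul_sum]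
        abel
      rw [sum_congr rfl h1, sum_sub_distrib]
      have h2 : ∑ j ∈ J, ∑ j' ∈ J.erase j, c j * (c j' * x I ((J.erase j).erase j')) = 0 := by
        apply sym_sum_zero (fun j j' => c j * (c j' * x I ((J.erase j).erase j')))
        intro a b
        rw [erase_right_comm]
        ring
      rw [h2, zero_sub]
      refine Submodule.neg_mem _ (Submodule.sum_mem _ fun j hj => ?_)
      refine mul_mem_Bd D O hDO C c hc I J hJ j hj _ ?_
      have hcard : (J.erase j).card = n := by rw [card_erase_of_mem hj]; omega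
      exact hx2 I hI (J.erase j) ((erase_subset _ _).trans hJ) (by omega) (by omega)

/-- the induction -/
theorem koszul_stage (D O : Finset ℕ) (hDO : Disjoint D O)
    (C : Finset ℕ → Submodule K (X → K)) (hC : Monotone C)
    (c : ℕ → X → K) (hc : ∀ j ∈ O, ∀ A, ∀ f ∈ C A, c j * f ∈ C (insert j A))
    (hreg : Reg C (D ∪ O))
    (u : X → K) (hu : u ∈ C D) (hcu : ∀ j ∈ O, c j * u ∈ Bd C (insert j D) (insert j D)) (n : ℕ) :
    ∃ x : Finset ℕ → Finset ℕ → X → K, x ∅ ∅ = u ∧
      (∀ I J, x I J ≠ 0 → I ⊆ D ∧ J ⊆ O ∧ I.card = J.card) ∧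
      (∀ I ⊆ D, ∀ J ⊆ O, J.card ≤ n → x I J ∈ C ((D \ I) ∪ J)) ∧
      (∀ I ⊆ D, ∀ J ⊆ O, J.card = I.card + 1 → J.card ≤ n →
        ∑ j ∈ J, c j * x I (J.erase j) - ∑ i ∈ D \ I, x (insert i I) J ∈ Bd C J ((D \ I) ∪ J)) := by
  induction n with
  | zero =>
    refine ⟨fun I J => if I = ∅ ∧ J = ∅ then u else 0, by simp, ?_, ?_, ?_⟩
    · intro I J h
      by_cases h1 : I = ∅ ∧ J = ∅
      · obtain ⟨rfl, rfl⟩ := h1
        simp
      · exact absurd (if_neg h1) h
    · intro I hI J hJ hJ0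
      have hJe : J = ∅ := card_eq_zero.mp (by omega)
      subst hJe
      show (if I = ∅ ∧ (∅ : Finset ℕ) = ∅ then u else 0) ∈ _
      split_ifs with h
      · obtain ⟨rfl, _⟩ := h
        simpa using hu
      · exact Submodule.zero_mem _
    · intro I hI J hJ h1 h2
      omega
  | succ n ih =>
    obtain ⟨x, hx0, hxs, hx1, hx2⟩ := ih
    have hlay : ∀ J : Finset ℕ, ∃ xJ : Finset ℕ → X → K, J ⊆ O → J.card = n + 1 →
      (∀ I ⊆ D, I.card = n + 1 → xJ I ∈ C ((D \ I) ∪ J)) ∧
      (∀ I ⊆ D, I.card = n →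
        ∑ j ∈ J, c j * x I (J.erase j) - ∑ i ∈ D \ I, xJ (insert i I) ∈
          Bd C J ((D \ I) ∪ J)) := by
      intro J
      by_cases hJ : J ⊆ O ∧ J.card = n + 1
      · obtain ⟨xJ, h⟩ := koszul_layer D O hDO C hC c hc hreg u hcu n x hx0 hx1 hx2 J hJ.1 hJ.2
        exact ⟨xJ, fun _ _ => h⟩
      · exact ⟨0, fun h1 h2 => absurd ⟨h1, h2⟩ hJ⟩
    choose xJ hxJ using hlay
    have hdef : ∃ x' : Finset ℕ → Finset ℕ → X → K, ∀ I J, x' I J =
        if J.card = n + 1 then (if I ⊆ D ∧ J ⊆ O ∧ I.card = n + 1 then xJ J I else 0)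
        else x I J := ⟨_, fun _ _ => rfl⟩
    obtain ⟨x', hx'⟩ := hdef
    refine ⟨x', ?_, ?_, ?_, ?_⟩
    · rw [hx', if_neg (by simp), hx0]
    · intro I J h
      rw [hx'] at h
      by_cases h1 : J.card = n + 1
      · rw [if_pos h1] at h
        by_cases h2 : I ⊆ D ∧ J ⊆ O ∧ I.card = n + 1
        · exact ⟨h2.1, h2.2.1, by omega⟩
        · exact absurd (if_neg h2) h
      · rw [if_neg h1] at h
        exact hxs I J h
    · intro I hI J hJ hJn
      rw [hx']
      by_cases h1 : J.card = n + 1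
      · rw [if_pos h1]
        by_cases h2 : I ⊆ D ∧ J ⊆ O ∧ I.card = n + 1
        · rw [if_pos h2]
          exact (hxJ J hJ h1).1 I hI h2.2.2
        · rw [if_neg h2]
          exact Submodule.zero_mem _
      · rw [if_neg h1]
        exact hx1 I hI J hJ (by omega)
    · intro I hI J hJ hJI hJn
      have h0 : ∑ j ∈ J, c j * x' I (J.erase j) = ∑ j ∈ J, c j * x I (J.erase j) := by
        refine sum_congr rfl fun j hj => ?_
        rw [hx', if_neg (by rw [card_erase_of_mem hj]; omega)]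
      rw [h0]
      by_cases h1 : J.card = n + 1
      · have h2 : ∑ i ∈ D \ I, x' (insert i I) J = ∑ i ∈ D \ I, xJ J (insert i I) := by
          refine sum_congr rfl fun i hi => ?_
          rw [mem_sdiff] at hi
          rw [hx', if_pos h1, if_pos ⟨insert_subset hi.1 hI, hJ, by
            rw [card_insert_of_notMem hi.2]; omega⟩]
        rw [h2]
        exact (hxJ J hJ h1).2 I hI (by omega)
      · have h2 : ∑ i ∈ D \ I, x' (insert i I) J = ∑ i ∈ D \ I, x (insert i I) J := by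
          refine sum_congr rfl fun i hi => ?_
          rw [hx', if_neg h1]
        rw [h2]
        exact hx2 I hI J hJ hJI (by omega)

/-- TARGET -/
theorem koszul_family (D O : Finset ℕ) (hDO : Disjoint D O)
    (C : Finset ℕ → Submodule K (X → K)) (hC : Monotone C)
    (c : ℕ → X → K) (hc : ∀ j ∈ O, ∀ A, ∀ f ∈ C A, c j * f ∈ C (insert j A))
    (hreg : Reg C (D ∪ O))
    (u : X → K) (hu : u ∈ C D) (hcu : ∀ j ∈ O, c j * u ∈ Bd C (insert j D) (insert j D)) :
    ∃ x : Finset ℕ → Finset ℕ → X → K, x ∅ ∅ = u ∧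
      (∀ I J, x I J ≠ 0 → I ⊆ D ∧ J ⊆ O ∧ I.card = J.card) ∧
      (∀ I ⊆ D, ∀ J ⊆ O, x I J ∈ C ((D \ I) ∪ J)) ∧
      (∀ I ⊆ D, ∀ J ⊆ O, J.card = I.card + 1 →
        ∑ j ∈ J, c j * x I (J.erase j) - ∑ i ∈ D \ I, x (insert i I) J ∈ Bd C J ((D \ I) ∪ J)) := by
  obtain ⟨x, h0, h1, h2, h3⟩ := koszul_stage D O hDO C hC c hc hreg u hu hcu O.card
  exact ⟨x, h0, h1, fun I hI J hJ => h2 I hI J hJ (card_le_card hJ),
    fun I hI J hJ hJI => h3 I hI J hJ hJI (card_le_card hJ)⟩

end Job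


end J_koszul_family

end Pool.Agent.Helper236.CE
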