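import Pool.Agent.Helper236.CE.Basic

set_option autoImplicit false
set_option linter.unusedSectionVars false
set_option linter.style.longLine false

namespace Pool.Agent.Helper236.CE

open Finset


namespace J_parity


section ringpart

variable {R : Type} [Ring R]

/-- sum over a list -/
def sL (x : ℕ → R) : List ℕ → R
  | [] => 0
  | d :: L => x d + sL x L

/-- alternating sums -/
def EE (a b : ℕ → R) : ℕ → List ℕ → R
  | 0, _ => 1
  | _ + 1, [] => 0
  | r + 1, d :: L => EE a b (r + 1) L + EE a b r L * (if Even r then a d else b d)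

lemma EE_zero (a b : ℕ → R) (L : List ℕ) : EE a b 0 L = 1 := by
  cases L <;> rfl

lemma EE_nil (a b : ℕ → R) (r : ℕ) : EE a b (r + 1) [] = 0 := rfl

lemma EE_cons (a b : ℕ → R) (r d : ℕ) (L : List ℕ) :
    EE a b (r + 1) (d :: L) = EE a b (r + 1) L + EE a b r L * (if Even r then a d else b d) := rfl

lemma EE_odd (a b : ℕ → R) (s d : ℕ) (L : List ℕ) :
    EE a b (2 * s + 1) (d :: L) = EE a b (2 * s + 1) L + EE a b (2 * s) L * a d := by
  rw [EE_cons, if_pos (even_two_mul s)]

lemma EE_even (a b : ℕ → R) (s d : ℕ) (L : List ℕ) :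
    EE a b (2 * s + 2) (d :: L) = EE a b (2 * s + 2) L + EE a b (2 * s + 1) L * b d := by
  have h : ¬ Even (2 * s + 1) := by
    rw [Nat.not_even_iff_odd]; exact odd_two_mul_add_one s
  change EE a b ((2 * s + 1) + 1) (d :: L) = _
  rw [EE_cons, if_neg h]

lemma comm_sL {x : ℕ → R} {y : R} (h : ∀ e, y * x e = x e * y) (L : List ℕ) :
    y * sL x L = sL x L * y := by
  induction L with
  | nil => simp [sL]
  | cons d L ih => rw [sL, mul_add, add_mul, h, ih]

lemma EE_length (a b : ℕ → R) (L : List ℕ) : ∀ r, L.length < r → EE a b r L = 0 := by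
  induction L with
  | nil =>
    intro r hr
    obtain ⟨r, rfl⟩ : ∃ r', r = r' + 1 := ⟨r - 1, by simp at hr; omega⟩
    rfl
  | cons d L ih =>
    intro r hr
    simp only [List.length_cons] at hr
    obtain ⟨r, rfl⟩ : ∃ r', r = r' + 1 := ⟨r - 1, by omega⟩
    rw [EE_cons, ih (r + 1) (by omega), ih r (by omega), zero_mul, add_zero]

lemma ident {a b : ℕ → R} (h2 : ∀ x : R, x + x = 0) (haa : ∀ d, a d * a d = 0)
    (hbb : ∀ d, b d * b d = 0) (hab : ∀ d, a d * b d = 0) (hba : ∀ d, b d * a d = 0)
    (caa : ∀ d e, a d * a e = a e * a d) (cab : ∀ d e, a d * b e = b e * a d)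
    (cbb : ∀ d e, b d * b e = b e * b d) (L : List ℕ) : ∀ s,
    EE a b (2 * s + 1) L * sL a L = 0 ∧
    EE a b (2 * s) L * sL a L = EE a b (2 * s + 1) L ∧
    EE a b (2 * s) L * sL b L = EE b a (2 * s + 1) L ∧
    EE a b (2 * s + 1) L * sL b L = EE a b (2 * s + 2) L + EE b a (2 * s + 2) L := by
  induction L with
  | nil =>
    intro s
    refine ⟨?_, ?_, ?_, ?_⟩
    · simp [sL]
    · simp [sL, EE_nil]
    · simp [sL, EE_nil]
    · rw [sL, mul_zero]
      change (0 : R) = EE a b ((2 * s + 1) + 1) [] + EE b a ((2 * s + 1) + 1) []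
      rw [EE_nil, EE_nil, add_zero]
  | cons d L ih =>
    have ca1 : a d * sL a L = sL a L * a d := comm_sL (caa d) L
    have ca2 : a d * sL b L = sL b L * a d := comm_sL (cab d) L
    have cb1 : b d * sL a L = sL a L * b d := comm_sL (fun e => (cab e d).symm) L
    have cb2 : b d * sL b L = sL b L * b d := comm_sL (cbb d) L
    intro s
    obtain ⟨i1, i2, i3, i4⟩ := ih s
    refine ⟨?_, ?_, ?_, ?_⟩
    · rw [EE_odd, sL]
      calc (EE a b (2 * s + 1) L + EE a b (2 * s) L * a d) * (a d + sL a L)
          = EE a b (2 * s + 1) L * a d + EE a b (2 * s + 1) L * sL a L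
            + EE a b (2 * s) L * (a d * a d) + EE a b (2 * s) L * (a d * sL a L) := by
            noncomm_ring
        _ = EE a b (2 * s + 1) L * a d + EE a b (2 * s + 1) L * a d := by
            rw [i1, haa, ca1, ← mul_assoc, i2]; noncomm_ring
        _ = 0 := h2 _
    · rcases s with _ | s
      · rw [mul_zero, EE_zero, one_mul, sL]
        rw [mul_zero, EE_zero, one_mul] at i2
        have := EE_odd a b 0 d L
        rw [mul_zero, EE_zero, one_mul] at this
        rw [this, i2, add_comm]
      · obtain ⟨j1, j2, j3, j4⟩ := ih s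
        have e1 : 2 * (s + 1) = 2 * s + 2 := by ring
        have e2 := EE_odd a b (s + 1) d L
        rw [e1] at i2 e2 ⊢
        rw [EE_even, sL, e2]
        calc (EE a b (2 * s + 2) L + EE a b (2 * s + 1) L * b d) * (a d + sL a L)
            = EE a b (2 * s + 2) L * a d + EE a b (2 * s + 2) L * sL a L
              + EE a b (2 * s + 1) L * (b d * a d) + EE a b (2 * s + 1) L * (b d * sL a L) := by
              noncomm_ring
          _ = EE a b (2 * s + 2) L * a d + EE a b (2 * s + 2 + 1) L := by
              rw [i2, hba, cb1, ← mul_assoc, j1]; noncomm_ring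
          _ = _ := add_comm _ _
    · rcases s with _ | s
      · rw [mul_zero, EE_zero, one_mul, sL]
        rw [mul_zero, EE_zero, one_mul] at i3
        have := EE_odd b a 0 d L
        rw [mul_zero, EE_zero, one_mul] at this
        rw [this, i3, add_comm]
      · obtain ⟨j1, j2, j3, j4⟩ := ih s
        have e1 : 2 * (s + 1) = 2 * s + 2 := by ring
        have e2 := EE_odd b a (s + 1) d L
        rw [e1] at i3 e2 ⊢
        rw [EE_even, sL, e2]
        calc (EE a b (2 * s + 2) L + EE a b (2 * s + 1) L * b d) * (b d + sL b L)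
            = EE a b (2 * s + 2) L * b d + EE a b (2 * s + 2) L * sL b L
              + EE a b (2 * s + 1) L * (b d * b d) + EE a b (2 * s + 1) L * (b d * sL b L) := by
              noncomm_ring
          _ = (EE a b (2 * s + 2) L * b d + EE a b (2 * s + 2) L * b d)
              + (EE b a (2 * s + 2 + 1) L + EE b a (2 * s + 2) L * b d) := by
              rw [i3, hbb, cb2, ← mul_assoc, j4, add_mul, mul_zero, add_zero]; abel
          _ = _ := by rw [h2, zero_add]
    · rw [EE_odd, sL, EE_even, EE_even]
      calc (EE a b (2 * s + 1) L + EE a b (2 * s) L * a d) * (b d + sL b L)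
          = EE a b (2 * s + 1) L * b d + EE a b (2 * s + 1) L * sL b L
            + EE a b (2 * s) L * (a d * b d) + EE a b (2 * s) L * (a d * sL b L) := by
            noncomm_ring
        _ = EE a b (2 * s + 2) L + EE a b (2 * s + 1) L * b d +
            (EE b a (2 * s + 2) L + EE b a (2 * s + 1) L * a d) := by
            rw [i4, hab, ca2, ← mul_assoc, i3, mul_zero, add_zero]; abel

lemma EE_swap {a b : ℕ → R} {T : R} (hTa : ∀ d, T * a d = b d * T) (hTb : ∀ d, T * b d = a d * T)
    (L : List ℕ) : ∀ r, T * EE a b r L = EE b a r L * T := by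
  induction L with
  | nil =>
    intro r
    rcases r with _ | r
    · simp [EE_zero]
    · simp [EE_nil]
  | cons d L ih =>
    intro r
    rcases r with _ | r
    · simp [EE_zero]
    · rw [EE_cons, EE_cons, mul_add, add_mul, ih (r + 1), ← mul_assoc, ih r]
      congr 1
      rw [mul_assoc, mul_assoc]
      congr 1
      split_ifs
      · exact hTa d
      · exact hTb d

lemma sL_swap {a b : ℕ → R} {T : R} (hTa : ∀ d, T * a d = b d * T) (L : List ℕ) :
    T * sL a L = sL b L * T := by
  induction L with
  | nil => simp [sL]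
  | cons d L ih => rw [sL, sL, mul_add, add_mul, hTa, ih]

end ringpart

section ops

variable {K : Type} [Field K]

/-- the space -/
abbrev YY (K : Type) := Finset ℕ → Finset ℕ → K

/-- first operator -/
def Aop (d : ℕ) : Module.End K (YY K) where
  toFun Y := fun I I' => if d ∈ I ∨ d ∈ I' then 0 else Y (insert d I) I'
  map_add' Y Z := by
    funext I I'
    simp only [Pi.add_apply]
    split_ifs <;> simp
  map_smul' c Y := by
    funext I I'
    simp only [Pi.smul_apply, RingHom.id_apply, smul_eq_mul]
    split_ifs <;> simp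

/-- second operator -/
def Bop (d : ℕ) : Module.End K (YY K) where
  toFun Y := fun I I' => if d ∈ I ∨ d ∈ I' then 0 else Y I (insert d I')
  map_add' Y Z := by
    funext I I'
    simp only [Pi.add_apply]
    split_ifs <;> simp
  map_smul' c Y := by
    funext I I'
    simp only [Pi.smul_apply, RingHom.id_apply, smul_eq_mul]
    split_ifs <;> simp

/-- swap -/
def Top : Module.End K (YY K) where
  toFun Y := fun I I' => Y I' I
  map_add' Y Z := rfl
  map_smul' c Y := rfl

lemma Aop_apply (d : ℕ) (Y : YY K) (I I' : Finset ℕ) :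
    Aop d Y I I' = if d ∈ I ∨ d ∈ I' then 0 else Y (insert d I) I' := rfl

lemma Bop_apply (d : ℕ) (Y : YY K) (I I' : Finset ℕ) :
    Bop d Y I I' = if d ∈ I ∨ d ∈ I' then 0 else Y I (insert d I') := rfl

lemma Top_apply (Y : YY K) (I I' : Finset ℕ) : Top Y I I' = Y I' I := rfl

lemma Top_Top (Y : YY K) : Top (Top Y) = Y := rfl

lemma op_aa (d : ℕ) : (Aop d : Module.End K (YY K)) * Aop d = 0 := by
  ext Y I I'
  rw [Module.End.mul_apply, Aop_apply, Aop_apply]
  simp

lemma op_bb (d : ℕ) : (Bop d : Module.End K (YY K)) * Bop d = 0 := by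
  ext Y I I'
  rw [Module.End.mul_apply, Bop_apply, Bop_apply]
  simp

lemma op_ab (d : ℕ) : (Aop d : Module.End K (YY K)) * Bop d = 0 := by
  ext Y I I'
  rw [Module.End.mul_apply, Aop_apply, Bop_apply]
  simp

lemma op_ba (d : ℕ) : (Bop d : Module.End K (YY K)) * Aop d = 0 := by
  ext Y I I'
  rw [Module.End.mul_apply, Bop_apply, Aop_apply]
  simp

lemma op_caa (d e : ℕ) : (Aop d : Module.End K (YY K)) * Aop e = Aop e * Aop d := by
  ext Y I I'
  rw [Module.End.mul_apply, Module.End.mul_apply, Aop_apply, Aop_apply, Aop_apply, Aop_apply]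
  rw [Finset.insert_comm e d]
  by_cases h : d = e
  · subst h; rfl
  · simp only [Finset.mem_insert, h, Ne.symm h, false_or]
    split_ifs <;> rfl

lemma op_cbb (d e : ℕ) : (Bop d : Module.End K (YY K)) * Bop e = Bop e * Bop d := by
  ext Y I I'
  rw [Module.End.mul_apply, Module.End.mul_apply, Bop_apply, Bop_apply, Bop_apply, Bop_apply]
  rw [Finset.insert_comm e d]
  by_cases h : d = e
  · subst h; rfl
  · simp only [Finset.mem_insert, h, Ne.symm h, false_or]
    split_ifs <;> rfl

lemma op_cab (d e : ℕ) : (Aop d : Module.End K (YY K)) * Bop e = Bop e * Aop d := by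
  ext Y I I'
  rw [Module.End.mul_apply, Module.End.mul_apply, Aop_apply, Bop_apply, Bop_apply, Aop_apply]
  by_cases h : d = e
  · subst h; simp
  · simp only [Finset.mem_insert, h, Ne.symm h, false_or]
    split_ifs <;> rfl

lemma op_Ta (d : ℕ) : (Top : Module.End K (YY K)) * Aop d = Bop d * Top := by
  ext Y I I'
  rw [Module.End.mul_apply, Module.End.mul_apply, Top_apply, Aop_apply, Bop_apply, Top_apply]
  simp only [or_comm]

lemma op_Tb (d : ℕ) : (Top : Module.End K (YY K)) * Bop d = Aop d * Top := by
  ext Y I I'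
  rw [Module.End.mul_apply, Module.End.mul_apply, Top_apply, Aop_apply, Bop_apply, Top_apply]
  simp only [or_comm]

lemma sL_Aop_apply (L : List ℕ) (Y : YY K) (I I' : Finset ℕ) :
    (sL (Aop (K := K)) L) Y I I' = (L.map fun d => Aop d Y I I').sum := by
  induction L with
  | nil => simp [sL]
  | cons d L ih => simp only [sL, List.map_cons, List.sum_cons, ← ih]; rfl

end ops

section comb

lemma sum_erase_aux {A : Type} [AddCommMonoid A] (L : Finset ℕ) (f : ℕ → Finset ℕ → A) :
    ∑ J ∈ L.powerset, ∑ j ∈ J, f j (J.erase j) = ∑ J ∈ L.powerset, ∑ j ∈ L \ J, f j J := by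
  rw [Finset.sum_sigma', Finset.sum_sigma']
  refine Finset.sum_bij' (fun p _ => ⟨p.1.erase p.2, p.2⟩) (fun p _ => ⟨insert p.2 p.1, p.2⟩)
    ?_ ?_ ?_ ?_ ?_
  · rintro ⟨J, j⟩ h
    simp only [Finset.mem_sigma, Finset.mem_powerset, Finset.mem_sdiff] at h ⊢
    exact ⟨(Finset.erase_subset _ _).trans h.1, h.1 h.2, Finset.notMem_erase _ _⟩
  · rintro ⟨J, j⟩ h
    simp only [Finset.mem_sigma, Finset.mem_powerset, Finset.mem_sdiff] at h ⊢
    exact ⟨Finset.insert_subset h.2.1 h.1, Finset.mem_insert_self _ _⟩
  · rintro ⟨J, j⟩ h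
    simp only [Finset.mem_sigma] at h
    simp only [Finset.insert_erase h.2]
  · rintro ⟨J, j⟩ h
    simp only [Finset.mem_sigma, Finset.mem_sdiff] at h
    simp only [Finset.erase_insert h.2.2]
  · rintro ⟨J, j⟩ _
    rfl

lemma sum_comm_aux {A : Type} [AddCommMonoid A] (L : Finset ℕ) (f : ℕ → Finset ℕ → A) :
    ∑ J ∈ L.powerset, ∑ j ∈ L \ J, f j J = ∑ j ∈ L, ∑ J ∈ (L.erase j).powerset, f j J := by
  refine Finset.sum_comm' ?_
  intro J j
  simp only [Finset.mem_powerset, Finset.mem_sdiff]
  constructor
  · rintro ⟨h1, h2, h3⟩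
    refine ⟨?_, h2⟩
    intro x hx
    exact Finset.mem_erase.2 ⟨fun h => h3 (h ▸ hx), h1 hx⟩
  · rintro ⟨h1, h2⟩
    exact ⟨h1.trans (Finset.erase_subset _ _), h2, fun h => Finset.notMem_erase _ _ (h1 h)⟩

end comb

/-- TARGET: the parity identity. -/
theorem parity {K : Type} [Field K] [CharP K 2] (D O : Finset ℕ) (hcard : D.card < O.card)
    (X : Finset ℕ → Finset ℕ → Finset ℕ → Finset ℕ → K)
    (hz : ∀ I J I' J', X I J I' J' ≠ 0 → I ⊆ D ∧ I' ⊆ D ∧ Disjoint I I' ∧ I.card = J.card ∧ I'.card = J'.card)
    (hsym : ∀ I J I' J', X I J I' J' = X I' J' I J)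
    (hrel : ∀ I J I' J', I ⊆ D → I' ⊆ D → Disjoint I I' → J ⊆ O → J' ⊆ O → Disjoint J J' →
      J.card = I.card + 1 → J'.card = I'.card →
      ∑ j ∈ J, X I (J.erase j) I' J' = ∑ i ∈ D \ (I ∪ I'), X (insert i I) J I' J') :
    X ∅ ∅ ∅ ∅ = 0 := by
  classical
  have h2K : ∀ x : K, x + x = 0 := CharTwo.add_self_eq_zero
  have h2R : ∀ x : Module.End K (YY K), x + x = 0 := by
    intro x
    ext Y I I'
    exact h2K _
  set L0 : List ℕ := D.toList with hL0
  -- the functions
  set Y : Finset ℕ → Finset ℕ → YY K := fun J J' I I' => X I J I' J' with hY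
  set a : ℕ → Module.End K (YY K) := fun d => Aop d with ha
  set b : ℕ → Module.End K (YY K) := fun d => Bop d with hb
  have hid := ident (a := a) (b := b) h2R op_aa op_bb op_ab op_ba op_caa op_cab op_cbb L0
  have hYT : ∀ J J', Top (Y J J') = Y J' J := by
    intro J J'
    funext I I'
    exact hsym _ _ _ _
  have haL : ∀ J J', J ⊆ O → J' ⊆ O → Disjoint J J' →
      sL a L0 (Y J J') = ∑ j ∈ J, Y (J.erase j) J' := by
    intro J J' hJ hJ' hd
    funext I I'
    have e1 : sL a L0 (Y J J') I I' = ∑ i ∈ D \ (I ∪ I'), X (insert i I) J I' J' := by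
      rw [ha, sL_Aop_apply, hL0, Finset.sum_map_toList]
      have hsub : D \ (I ∪ I') ⊆ D := Finset.sdiff_subset
      rw [← Finset.sum_subset hsub]
      · apply Finset.sum_congr rfl
        intro i hi
        rw [Finset.mem_sdiff, Finset.mem_union] at hi
        rw [Aop_apply, if_neg hi.2]
      · intro i hi hi2
        rw [Aop_apply, if_pos]
        rw [Finset.mem_sdiff, Finset.mem_union] at hi2
        by_contra h
        exact hi2 ⟨hi, h⟩
    have e2 : (∑ j ∈ J, Y (J.erase j) J') I I' = ∑ j ∈ J, X I (J.erase j) I' J' := by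
      rw [Finset.sum_apply, Finset.sum_apply]
    rw [e1, e2]
    by_cases hc : I ⊆ D ∧ I' ⊆ D ∧ Disjoint I I' ∧ J.card = I.card + 1 ∧ J'.card = I'.card
    · exact (hrel I J I' J' hc.1 hc.2.1 hc.2.2.1 hJ hJ' hd hc.2.2.2.1 hc.2.2.2.2).symm
    · rw [Finset.sum_eq_zero, Finset.sum_eq_zero]
      · intro j hj
        by_contra hne
        obtain ⟨k1, k2, k3, k4, k5⟩ := hz _ _ _ _ hne
        apply hc
        rw [Finset.card_erase_of_mem hj] at k4
        have : 0 < J.card := Finset.card_pos.2 ⟨j, hj⟩
        exact ⟨k1, k2, k3, by omega, k5.symm⟩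
      · intro i hi
        by_contra hne
        obtain ⟨k1, k2, k3, k4, k5⟩ := hz _ _ _ _ hne
        apply hc
        rw [Finset.mem_sdiff, Finset.mem_union, not_or] at hi
        rw [Finset.card_insert_of_notMem hi.2.1] at k4
        exact ⟨(Finset.subset_insert _ _).trans k1, k2,
          Finset.disjoint_of_subset_left (Finset.subset_insert _ _) k3, k4.symm, k5.symm⟩
  have hbL : ∀ J J', J ⊆ O → J' ⊆ O → Disjoint J J' →
      sL b L0 (Y J J') = ∑ j ∈ J', Y J (J'.erase j) := by
    intro J J' hJ hJ' hd
    have h1 : (Top : Module.End K (YY K)) * sL a L0 = sL b L0 * Top := sL_swap op_Ta L0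
    have h3 := congrArg (fun f : Module.End K (YY K) => f (Y J' J)) h1
    simp only [Module.End.mul_apply] at h3
    rw [hYT, haL J' J hJ' hJ hd.symm, map_sum] at h3
    rw [← h3]
    apply Finset.sum_congr rfl
    intro j _
    exact hYT _ _
  have hEF : ∀ r J J', (EE a b r L0 (Y J' J)) ∅ ∅ = (EE b a r L0 (Y J J')) ∅ ∅ := by
    intro r J J'
    have h1 : (Top : Module.End K (YY K)) * EE a b r L0 = EE b a r L0 * Top :=
      EE_swap op_Ta op_Tb L0 r
    have h3 := congrArg (fun f : Module.End K (YY K) => f (Y J' J)) h1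
    simp only [Module.End.mul_apply] at h3
    rw [hYT] at h3
    rw [← h3, Top_apply]
  set Q : ℕ → Finset ℕ → K := fun r L => ∑ J ∈ L.powerset, (EE a b r L0 (Y J (L \ J))) ∅ ∅ with hQ
  have hevalsum : ∀ (f : Module.End K (YY K)) (s : Finset ℕ) (g : ℕ → YY K),
      (f (∑ j ∈ s, g j)) ∅ ∅ = ∑ j ∈ s, (f (g j)) ∅ ∅ := by
    intro f s g
    rw [map_sum, Finset.sum_apply, Finset.sum_apply]
  have claim : ∀ n : ℕ, ∀ L : Finset ℕ, L ⊆ O → L.card = n → Q n L = X ∅ ∅ ∅ ∅ := by
    intro n
    induction n with
    | zero =>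
      intro L _ hL
      rw [Finset.card_eq_zero] at hL
      subst hL
      simp only [hQ, Finset.powerset_empty, Finset.sum_singleton, EE_zero, Finset.sdiff_self]
      rfl
    | succ n ih =>
      intro L hLO hL
      rcases Nat.even_or_odd n with hn | hn
      · -- odd case
        obtain ⟨s, hs⟩ := hn
        have hs' : n = 2 * s := by omega
        have h1 : Q (n + 1) L = ∑ J ∈ L.powerset, ∑ j ∈ J,
            (EE a b n L0 (Y (J.erase j) ((L.erase j) \ (J.erase j)))) ∅ ∅ := by
          simp only [hQ]
          apply Finset.sum_congr rfl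
          intro J hJ
          rw [Finset.mem_powerset] at hJ
          rw [hs', ← (hid s).2.1, Module.End.mul_apply,
            haL J (L \ J) (hJ.trans hLO) (Finset.sdiff_subset.trans hLO) Finset.disjoint_sdiff,
            hevalsum]
          apply Finset.sum_congr rfl
          intro j hj
          have e : L \ J = L.erase j \ J.erase j := by
            ext x
            simp only [Finset.mem_sdiff, Finset.mem_erase]
            constructor
            · rintro ⟨h1, h2⟩
              exact ⟨⟨fun h => h2 (h ▸ hj), h1⟩, fun h => h2 h.2⟩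
            · rintro ⟨⟨h1, h2⟩, h3⟩
              exact ⟨h2, fun h => h3 ⟨h1, h⟩⟩
          rw [e]
        rw [h1, sum_erase_aux L (fun j J => (EE a b n L0 (Y J ((L.erase j) \ J))) ∅ ∅),
          sum_comm_aux]
        have h3 : ∀ j ∈ L, ∑ J ∈ (L.erase j).powerset, (EE a b n L0 (Y J ((L.erase j) \ J))) ∅ ∅
            = X ∅ ∅ ∅ ∅ := by
          intro j hj
          exact ih (L.erase j) ((Finset.erase_subset _ _).trans hLO)
            (by rw [Finset.card_erase_of_mem hj, hL]; rfl)
        rw [Finset.sum_congr rfl h3, Finset.sum_const, hL, hs', add_nsmul, mul_comm, mul_nsmul,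
          two_nsmul, h2K, one_nsmul, zero_add]
      · -- even case
        obtain ⟨s, hs⟩ := hn
        obtain ⟨n0, hn0⟩ : L.Nonempty := Finset.card_pos.1 (by omega)
        obtain ⟨L1, hL1, hins⟩ : ∃ L1, n0 ∉ L1 ∧ insert n0 L1 = L :=
          ⟨L.erase n0, Finset.notMem_erase _ _, Finset.insert_erase hn0⟩
        have hL1O : L1 ⊆ O := by
          rw [← hins] at hLO; exact (Finset.subset_insert _ _).trans hLO
        have hL1L : L1 ⊆ L := by rw [← hins]; exact Finset.subset_insert _ _
        have hL1c : L1.card = n := by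
          rw [← hins, Finset.card_insert_of_notMem hL1] at hL; omega
        have h1 : Q (n + 1) L = ∑ J ∈ L1.powerset, (EE a b (n + 1) L0 (Y J (L \ J))) ∅ ∅
            + ∑ J ∈ L1.powerset, (EE a b (n + 1) L0 (Y (L \ J) J)) ∅ ∅ := by
          simp only [hQ]
          conv_lhs => rw [← hins]
          rw [Finset.sum_powerset_insert hL1, hins]
          congr 1
          refine Finset.sum_bij' (fun J _ => L1 \ J) (fun J _ => L1 \ J) ?_ ?_ ?_ ?_ ?_
          · intro J _; exact Finset.mem_powerset.2 Finset.sdiff_subset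
          · intro J _; exact Finset.mem_powerset.2 Finset.sdiff_subset
          · intro J hJ; exact Finset.sdiff_sdiff_eq_self (Finset.mem_powerset.1 hJ)
          · intro J hJ; exact Finset.sdiff_sdiff_eq_self (Finset.mem_powerset.1 hJ)
          · intro J hJ
            have hJ' := Finset.mem_powerset.1 hJ
            have e1 : insert n0 J = L \ (L1 \ J) := by
              rw [← hins]
              ext x
              simp only [Finset.mem_insert, Finset.mem_sdiff]
              constructor
              · rintro (rfl | h)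
                · exact ⟨Or.inl rfl, fun h => hL1 h.1⟩
                · exact ⟨Or.inr (hJ' h), fun h2 => h2.2 h⟩
              · rintro ⟨h | h, h2⟩
                · exact Or.inl h
                · right
                  by_contra h3
                  exact h2 ⟨h, h3⟩
            have e2 : L \ insert n0 J = L1 \ J := by
              rw [← hins]
              ext x
              simp only [Finset.mem_insert, Finset.mem_sdiff]
              constructor
              · rintro ⟨h | h, h2⟩
                · exact absurd (Or.inl h) h2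
                · exact ⟨h, fun h3 => h2 (Or.inr h3)⟩
              · rintro ⟨h, h2⟩
                refine ⟨Or.inr h, ?_⟩
                rintro (rfl | h3)
                · exact hL1 h
                · exact h2 h3
            rw [e2, ← e1]
        have hs2 : n + 1 = 2 * s + 2 := by omega
        have h4 : Q (n + 1) L = ∑ J ∈ L1.powerset, ∑ j ∈ L \ J,
            (EE a b n L0 (Y J ((L \ J).erase j))) ∅ ∅ := by
          rw [h1, ← Finset.sum_add_distrib]
          apply Finset.sum_congr rfl
          intro J hJ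
          have hJ' := Finset.mem_powerset.1 hJ
          rw [hEF (n + 1) J (L \ J)]
          have e1 : (EE a b (n + 1) L0 (Y J (L \ J))) ∅ ∅ + (EE b a (n + 1) L0 (Y J (L \ J))) ∅ ∅
              = (EE a b n L0 (sL b L0 (Y J (L \ J)))) ∅ ∅ := by
            have h5 := (hid s).2.2.2
            rw [hs2, show n = 2 * s + 1 by omega]
            have h6 := congrArg (fun f : Module.End K (YY K) => f (Y J (L \ J)) ∅ ∅) h5
            simp only [Module.End.mul_apply, LinearMap.add_apply, Pi.add_apply] at h6
            exact h6.symm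
          rw [e1, hbL J (L \ J) (hJ'.trans hL1O) (Finset.sdiff_subset.trans hLO)
            Finset.disjoint_sdiff, hevalsum]
        have h5 : Q (n + 1) L = Q n L1 + ∑ J ∈ L1.powerset, ∑ j ∈ L1 \ J,
            (EE a b n L0 (Y J ((L \ J).erase j))) ∅ ∅ := by
          rw [h4]
          simp only [hQ]
          rw [← Finset.sum_add_distrib]
          apply Finset.sum_congr rfl
          intro J hJ
          have hJ' := Finset.mem_powerset.1 hJ
          have e1 : L \ J = insert n0 (L1 \ J) := by
            rw [← hins, Finset.insert_sdiff_of_notMem _ (fun h => hL1 (hJ' h))]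
          have e2 : n0 ∉ L1 \ J := fun h => hL1 (Finset.sdiff_subset h)
          rw [e1, Finset.sum_insert e2, Finset.erase_insert e2]
        rw [h5, ih L1 hL1O hL1c]
        have h6 : ∑ J ∈ L1.powerset, ∑ j ∈ L1 \ J, (EE a b n L0 (Y J ((L \ J).erase j))) ∅ ∅
            = 0 := by
          rw [← sum_erase_aux L1 (fun j J => (EE a b n L0 (Y J ((L \ J).erase j))) ∅ ∅)]
          apply Finset.sum_eq_zero
          intro J hJ
          have hJ' := Finset.mem_powerset.1 hJ
          have e1 : ∑ j ∈ J, (EE a b n L0 (Y (J.erase j) ((L \ J.erase j).erase j))) ∅ ∅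
              = (EE a b n L0 (sL a L0 (Y J (L \ J)))) ∅ ∅ := by
            rw [haL J (L \ J) (hJ'.trans hL1O) (Finset.sdiff_subset.trans hLO)
              Finset.disjoint_sdiff, hevalsum]
            apply Finset.sum_congr rfl
            intro j hj
            have e2 : (L \ J.erase j).erase j = L \ J := by
              ext x
              simp only [Finset.mem_erase, Finset.mem_sdiff]
              constructor
              · rintro ⟨h1, h2, h3⟩
                exact ⟨h2, fun h => h3 ⟨h1, h⟩⟩
              · rintro ⟨h1, h2⟩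
                exact ⟨fun h => h2 (h ▸ hj), h1, fun h => h2 h.2⟩
            rw [e2]
          rw [e1]
          have h7 := (hid s).1
          rw [show n = 2 * s + 1 by omega]
          have h8 := congrArg (fun f : Module.End K (YY K) => f (Y J (L \ J)) ∅ ∅) h7
          simp only [Module.End.mul_apply] at h8
          exact h8
        rw [h6, add_zero]
  have hfin := claim O.card O (Finset.Subset.refl _) rfl
  rw [← hfin]
  have h9 : EE a b O.card L0 = 0 := by
    apply EE_length
    rw [hL0, Finset.length_toList]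
    exact hcard
  simp only [hQ, h9]
  apply Finset.sum_eq_zero
  intro J _
  rfl


end J_parity

end Pool.Agent.Helper236.CE
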