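import Pool.Agent.Helper236.CE.Basic
import Pool.Agent.Helper236.CE.J_koszul_family
import Pool.Agent.Helper236.CE.J_parity

set_option autoImplicit false
set_option linter.unusedSectionVars false
set_option linter.style.longLine false

namespace Pool.Agent.Helper236.CE

open Finset
open J_koszul_family (koszul_family)
open J_parity (parity)


namespace J_aw

section Job

variable {K X : Type} [Field K] [CharP K 2] [Fintype X]


/-- TARGET -/
theorem aw (D O : Finset ℕ) (hDO : Disjoint D O) (hcard : D.card < O.card)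
    (C : Finset ℕ → Submodule K (X → K)) (hC : Monotone C)
    (hone : (1 : X → K) ∈ C ∅)
    (hmul : ∀ A B, ∀ f ∈ C A, ∀ g ∈ C B, f * g ∈ C (A ∪ B))
    (c : ℕ → X → K) (hc : ∀ j ∈ O, c j ∈ C {j})
    (hsum : ∀ A ⊆ D ∪ O, ∀ t ∈ D ∪ O, t ∉ A → ∀ f ∈ C A, ∑ M, f M = 0)
    (hreg : Reg C (D ∪ O))
    (u : X → K) (hu : u ∈ C D) (hcu : ∀ j ∈ O, c j * u ∈ Bd C (insert j D) (insert j D)) :
    ∑ M, (∏ j ∈ O, c j M) * (u M) ^ 2 = 0 := by
  classical
  obtain ⟨x, hx0, hx1, hx2, hx3⟩ := koszul_family D O hDO C hC c (by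
    intro j hj A f hf
    have := hmul {j} A (c j) (hc j hj) f hf
    rwa [← Finset.insert_eq] at this) hreg u hu hcu
  have hprod : ∀ O' ⊆ O, (fun M => ∏ j ∈ O', c j M) ∈ C O' := by
    intro O'
    induction O' using Finset.induction_on with
    | empty => intro _; simp only [Finset.prod_empty]; exact hone
    | insert j s hj ih =>
      intro hs
      have h1 := hmul {j} s (c j) (hc j (hs (mem_insert_self _ _))) _
        (ih (fun a ha => hs (mem_insert_of_mem ha)))
      rw [← Finset.insert_eq] at h1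
      have h2 : (fun M => ∏ k ∈ insert j s, c k M) = c j * fun M => ∏ k ∈ s, c k M := by
        funext M; rw [prod_insert hj]; rfl
      rw [h2]; exact h1
  have hvan : ∀ (O' S1 S2 : Finset ℕ) (f g : X → K), O' ⊆ O → f ∈ C S1 → g ∈ C S2 →
      S1 ⊆ D ∪ O → S2 ⊆ D ∪ O → ∀ t ∈ D ∪ O, t ∉ O' → t ∉ S1 → t ∉ S2 →
      ∑ M, (∏ j ∈ O', c j M) * f M * g M = 0 := by
    intro O' S1 S2 f g hO' hf hg hS1 hS2 t ht h1 h2 h3
    have h4 := hmul _ _ _ (hmul _ _ _ (hprod O' hO') f hf) g hg
    exact hsum (O' ∪ S1 ∪ S2) (union_subset (union_subset (hO'.trans subset_union_right) hS1) hS2)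
      t ht (by simp [h1, h2, h3]) _ h4
  have hxsub : ∀ I J, I ⊆ D → J ⊆ O → (D \ I) ∪ J ⊆ D ∪ O := fun I J _ hJ =>
    union_subset_union sdiff_subset hJ
  let Xf : Finset ℕ → Finset ℕ → Finset ℕ → Finset ℕ → K := fun I J I' J' =>
    if Disjoint J J' ∧ J ⊆ O ∧ J' ⊆ O then
      ∑ M, (∏ j ∈ O \ (J ∪ J'), c j M) * x I J M * x I' J' M else 0
  have hXf : ∀ I J I' J', Disjoint J J' → J ⊆ O → J' ⊆ O → Xf I J I' J' =
      ∑ M, (∏ j ∈ O \ (J ∪ J'), c j M) * x I J M * x I' J' M := by
    intro I J I' J' h1 h2 h3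
    exact if_pos ⟨h1, h2, h3⟩
  have hz : ∀ I J I' J', Xf I J I' J' ≠ 0 → I ⊆ D ∧ I' ⊆ D ∧ Disjoint I I' ∧
      I.card = J.card ∧ I'.card = J'.card := by
    intro I J I' J' hne
    have hcond : Disjoint J J' ∧ J ⊆ O ∧ J' ⊆ O := by
      by_contra h
      exact hne (if_neg h)
    obtain ⟨hd, hJ, hJ'⟩ := hcond
    rw [hXf I J I' J' hd hJ hJ'] at hne
    have h1 : x I J ≠ 0 := by
      intro h
      apply hne
      simp [h]
    have h2 : x I' J' ≠ 0 := by
      intro h
      apply hne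
      simp [h]
    obtain ⟨hI, _, hIJ⟩ := hx1 I J h1
    obtain ⟨hI', _, hIJ'⟩ := hx1 I' J' h2
    refine ⟨hI, hI', ?_, hIJ, hIJ'⟩
    rw [Finset.disjoint_left]
    intro t ht ht'
    have htD : t ∈ D := hI ht
    have htO : t ∉ O := Finset.disjoint_left.1 hDO htD
    apply hne
    apply hvan (O \ (J ∪ J')) ((D \ I) ∪ J) ((D \ I') ∪ J') (x I J) (x I' J') sdiff_subset
      (hx2 I hI J hJ) (hx2 I' hI' J' hJ') (hxsub I J hI hJ) (hxsub I' J' hI' hJ') t
      (mem_union_left _ htD)
    · intro h; exact htO (mem_sdiff.1 h).1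
    · intro h
      rcases mem_union.1 h with h | h
      · exact (mem_sdiff.1 h).2 ht
      · exact htO (hJ h)
    · intro h
      rcases mem_union.1 h with h | h
      · exact (mem_sdiff.1 h).2 ht'
      · exact htO (hJ' h)
  have hsym : ∀ I J I' J', Xf I J I' J' = Xf I' J' I J := by
    intro I J I' J'
    by_cases h : Disjoint J J' ∧ J ⊆ O ∧ J' ⊆ O
    · rw [hXf I J I' J' h.1 h.2.1 h.2.2, hXf I' J' I J h.1.symm h.2.2 h.2.1, union_comm]
      exact sum_congr rfl (fun M _ => by ring)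
    · have h' : ¬ (Disjoint J' J ∧ J' ⊆ O ∧ J ⊆ O) := by
        rintro ⟨h1, h2, h3⟩
        exact h ⟨h1.symm, h3, h2⟩
      change (if _ then _ else _) = (if _ then _ else _)
      rw [if_neg h, if_neg h']
  have hrel : ∀ I J I' J', I ⊆ D → I' ⊆ D → Disjoint I I' → J ⊆ O → J' ⊆ O → Disjoint J J' →
      J.card = I.card + 1 → J'.card = I'.card →
      ∑ j ∈ J, Xf I (J.erase j) I' J' = ∑ i ∈ D \ (I ∪ I'), Xf (insert i I) J I' J' := by
    intro I J I' J' hI hI' hII' hJ hJ' hJJ' hc1 hc2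
    have hLj : ∀ j ∈ J, Xf I (J.erase j) I' J' =
        ∑ M, (∏ k ∈ O \ (J ∪ J'), c k M) * (c j M * x I (J.erase j) M) * x I' J' M := by
      intro j hj
      rw [hXf _ _ _ _ (Finset.disjoint_of_subset_left (erase_subset _ _) hJJ')
        ((erase_subset _ _).trans hJ) hJ']
      have hjJ' : j ∉ J' := Finset.disjoint_left.1 hJJ' hj
      have h1 : O \ (J.erase j ∪ J') = insert j (O \ (J ∪ J')) := by
        ext k
        simp only [mem_sdiff, mem_union, mem_erase, mem_insert]
        constructor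
        · rintro ⟨h1, h2⟩
          by_cases hk : k = j
          · exact Or.inl hk
          · right
            refine ⟨h1, fun h => h2 ?_⟩
            rcases h with h | h
            · exact Or.inl ⟨hk, h⟩
            · exact Or.inr h
        · rintro (rfl | ⟨h1, h2⟩)
          · exact ⟨hJ hj, fun h => by
              rcases h with h | h
              · exact h.1 rfl
              · exact hjJ' h⟩
          · exact ⟨h1, fun h => h2 (by
              rcases h with h | h
              · exact Or.inl h.2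
              · exact Or.inr h)⟩
      have h2 : j ∉ O \ (J ∪ J') := by
        simp [hj]
      rw [h1]
      refine sum_congr rfl (fun M _ => ?_)
      rw [prod_insert h2]
      ring
    rw [sum_congr rfl hLj, sum_comm]
    obtain ⟨e, he1, he2⟩ := (mem_Bd C J ((D \ I) ∪ J) _).1 (hx3 I hI J hJ hc1)
    have hkey : ∀ M, ∑ j ∈ J, c j M * x I (J.erase j) M =
        ∑ i ∈ D \ I, x (insert i I) J M + ∑ j ∈ J, e j M := by
      intro M
      have h1 := congrFun he2 M
      simp only [Finset.sum_apply, Pi.sub_apply, Pi.mul_apply] at h1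
      rw [h1]; ring
    have h3 : ∀ M, ∑ j ∈ J, (∏ k ∈ O \ (J ∪ J'), c k M) * (c j M * x I (J.erase j) M) * x I' J' M =
        ∑ i ∈ D \ I, (∏ k ∈ O \ (J ∪ J'), c k M) * x (insert i I) J M * x I' J' M +
        ∑ j ∈ J, (∏ k ∈ O \ (J ∪ J'), c k M) * e j M * x I' J' M := by
      intro M
      rw [← Finset.sum_mul, ← Finset.mul_sum, hkey M, ← Finset.sum_mul, ← Finset.mul_sum,
        ← Finset.sum_mul, ← Finset.mul_sum]
      ring
    rw [sum_congr rfl (fun M _ => h3 M), sum_add_distrib, sum_comm]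
    have h4 : ∑ M, ∑ j ∈ J, (∏ k ∈ O \ (J ∪ J'), c k M) * e j M * x I' J' M = 0 := by
      rw [sum_comm]
      refine sum_eq_zero (fun j hj => ?_)
      have hjO : j ∈ O := hJ hj
      have hjD : j ∉ D := fun h => Finset.disjoint_left.1 hDO h hjO
      have hjJ' : j ∉ J' := Finset.disjoint_left.1 hJJ' hj
      apply hvan (O \ (J ∪ J')) (((D \ I) ∪ J).erase j) ((D \ I') ∪ J') (e j) (x I' J')
        sdiff_subset (he1 j hj) (hx2 I' hI' J' hJ')
        ((erase_subset _ _).trans (hxsub I J hI hJ)) (hxsub I' J' hI' hJ') j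
        (mem_union_right _ hjO)
      · simp [hj]
      · simp
      · intro h
        rcases mem_union.1 h with h | h
        · exact hjD (mem_sdiff.1 h).1
        · exact hjJ' h
    rw [h4, add_zero]
    have h5 : ∀ i ∈ D \ I, ∑ M, (∏ k ∈ O \ (J ∪ J'), c k M) * x (insert i I) J M * x I' J' M =
        Xf (insert i I) J I' J' := fun i _ => (hXf _ _ _ _ hJJ' hJ hJ').symm
    rw [sum_congr rfl h5]
    symm
    apply sum_subset
    · intro i hi
      simp only [mem_sdiff, mem_union, not_or] at hi ⊢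
      exact ⟨hi.1, hi.2.1⟩
    · intro i hi hi'
      by_contra hne
      obtain ⟨_, _, hd, _⟩ := hz _ _ _ _ hne
      apply hi'
      simp only [mem_sdiff, mem_union, not_or] at hi ⊢
      exact ⟨hi.1, hi.2, Finset.disjoint_left.1 hd (mem_insert_self _ _)⟩
  have hfin := parity D O hcard Xf hz hsym hrel
  rw [hXf ∅ ∅ ∅ ∅ (Finset.disjoint_empty_left _) (empty_subset _) (empty_subset _)] at hfin
  rw [← hfin]
  refine sum_congr rfl (fun M _ => ?_)
  rw [hx0, union_empty, sdiff_empty]
  ring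

end Job


end J_aw

end Pool.Agent.Helper236.CE
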