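import Pool.Agent.Helper236.CE.Basic

set_option autoImplicit false
set_option linter.unusedSectionVars false
set_option linter.style.longLine false

namespace Pool.Agent.Helper236.CE

open Finset


namespace J_step

section Job

variable {P : Type} [PartialOrder P] [Fintype P] [DecidableEq P] [BoundedOrder P] [GradeOrder ℕ P]



/-- linear section -/
theorem zq_section {K V : Type} [Field K] [AddCommGroup V] [Module K V] (τ : V →ₗ[K] V)
    (Z W : Submodule K V) (h : ∀ ζ ∈ Z, ∃ w ∈ W, τ w = ζ) :
    ∃ σ : V →ₗ[K] V, (∀ v, σ v ∈ W) ∧ ∀ ζ ∈ Z, τ (σ ζ) = ζ := by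
  let f : W →ₗ[K] V := τ ∘ₗ W.subtype
  obtain ⟨g, hg⟩ := f.rangeRestrict.exists_rightInverse_of_surjective f.range_rangeRestrict
  obtain ⟨pr, hpr⟩ := (LinearMap.range f).subtype.exists_leftInverse_of_injective
    (Submodule.ker_subtype _)
  refine ⟨W.subtype ∘ₗ g ∘ₗ pr, fun v => (g (pr v)).2, fun ζ hζ => ?_⟩
  obtain ⟨w, hw, hwζ⟩ := h ζ hζ
  have hmem : ζ ∈ LinearMap.range f := ⟨⟨w, hw⟩, hwζ⟩
  have h1 : pr ζ = ⟨ζ, hmem⟩ := by
    have := LinearMap.congr_fun hpr ⟨ζ, hmem⟩
    simpa using this
  have h2 := LinearMap.congr_fun hg (⟨ζ, hmem⟩ : LinearMap.range f)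
  have h3 := congrArg Subtype.val h2
  show τ (W.subtype (g (pr ζ))) = ζ
  rw [h1]
  exact h3

/-- `bd` as a linear map -/
def zqL {K : Type} [Field K] (a : P → K) : (Finset P → K) →ₗ[K] (Finset P → K) where
  toFun := bd a
  map_add' := bd_add a
  map_smul' := fun r z => bd_smul a r z

/-- elements outside the colours in `U` -/
def oS (U : Finset ℕ) (F : Finset P) : Finset P := F.filter (fun x => grade ℕ x ∉ U)

/-- slices -/
def slc {K : Type} [Field K] (U DU : Finset ℕ) (z : Finset P → K) (F : Finset P) : Finset P → K :=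
  fun G => if col G = DU then z (oS U F ∪ G) else 0

/-- the homotopy -/
def HHz {K : Type} [Field K] (σ : Finset P → ((Finset P → K) →ₗ[K] (Finset P → K))) (p q : ℕ)
    (DU : Finset ℕ) (z : Finset P → K) (F : Finset P) : K :=
  σ (rs {p, q} F) (slc (Ioo p q) DU z F) (rs (Ioo p q) F)

theorem mem_oS {U : Finset ℕ} {F : Finset P} {x : P} : x ∈ oS U F ↔ x ∈ F ∧ grade ℕ x ∉ U := by
  simp [oS]

theorem oS_union (U : Finset ℕ) (F : Finset P) : oS U F ∪ rs U F = F := by
  ext x; simp only [mem_union, mem_oS, mem_rs]; tauto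

theorem grade_of_col {DU : Finset ℕ} {G : Finset P} (h : col G = DU) {x : P} (hx : x ∈ G) :
    grade ℕ x ∈ DU := by
  rw [← h, mem_col]; exact ⟨x, hx, rfl⟩

theorem HHz_bd_in {K : Type} [Field K] (σ : Finset P → ((Finset P → K) →ₗ[K] (Finset P → K)))
    (p q : ℕ) (DU : Finset ℕ) (z : Finset P → K) (a : P → K)
    (ha : ∀ x, grade ℕ x ∉ Ioo p q → a x = 0) (F : Finset P) :
    bd a (HHz σ p q DU z) F =
      bd a (σ (rs {p, q} F) (slc (Ioo p q) DU z F)) (rs (Ioo p q) F) := by
  rw [bd_apply, bd_apply]
  have hsub : Fᶜ ⊆ (rs (Ioo p q) F)ᶜ := by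
    intro x hx
    rw [mem_compl] at hx ⊢
    exact fun h => hx (rs_subset _ _ h)
  rw [← sum_subset hsub]
  · refine sum_congr rfl fun x hx => ?_
    by_cases hg : grade ℕ x ∈ Ioo p q
    · congr 1
      unfold HHz
      have h1 : rs {p, q} (insert x F) = rs {p, q} F := by
        ext y; simp only [mem_rs, mem_insert, mem_singleton]
        constructor
        · rintro ⟨rfl | hy, h2⟩
          · rw [mem_Ioo] at hg; omega
          · exact ⟨hy, h2⟩
        · rintro ⟨hy, h2⟩; exact ⟨Or.inr hy, h2⟩
      have h2 : slc (Ioo p q) DU z (insert x F) = slc (Ioo p q) DU z F := by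
        have : oS (Ioo p q) (insert x F) = oS (Ioo p q) F := by
          ext y; simp only [mem_oS, mem_insert]
          constructor
          · rintro ⟨rfl | hy, h2⟩
            · exact absurd hg h2
            · exact ⟨hy, h2⟩
          · rintro ⟨hy, h2⟩; exact ⟨Or.inr hy, h2⟩
        unfold slc
        rw [this]
      have h3 : rs (Ioo p q) (insert x F) = insert x (rs (Ioo p q) F) := by
        ext y; simp only [mem_rs, mem_insert]
        constructor
        · rintro ⟨rfl | hy, h2⟩
          · exact Or.inl rfl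
          · exact Or.inr ⟨hy, h2⟩
        · rintro (rfl | ⟨hy, h2⟩)
          · exact ⟨Or.inl rfl, hg⟩
          · exact ⟨Or.inr hy, h2⟩
      rw [h1, h2, h3]
    · rw [ha x hg, zero_mul, zero_mul]
  · intro x hx1 hx2
    rw [mem_compl] at hx1 hx2
    push Not at hx2
    have : grade ℕ x ∉ Ioo p q := fun h => hx1 (mem_rs.2 ⟨hx2, h⟩)
    rw [ha x this, zero_mul]

theorem slc_sum {K : Type} [Field K] (p q : ℕ) (DU : Finset ℕ) (hDU : DU ⊆ Ioo p q)
    (z : Finset P → K) (a : P → K) (ha : ∀ x, grade ℕ x ∈ Ioo p q → a x = 0) (F : Finset P) :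
    ∑ x ∈ Fᶜ, a x • slc (Ioo p q) DU z (insert x F) = slc (Ioo p q) DU (bd a z) F := by
  funext G
  rw [Finset.sum_apply]
  unfold slc
  simp only [Pi.smul_apply, smul_eq_mul]
  by_cases hG : col G = DU
  · simp only [if_pos hG]
    rw [bd_apply]
    have hGU : ∀ x ∈ G, grade ℕ x ∈ Ioo p q := fun x hx => hDU (grade_of_col hG hx)
    have e1 : ∀ x ∈ Fᶜ, a x * z (oS (Ioo p q) (insert x F) ∪ G) =
        a x * z (insert x (oS (Ioo p q) F ∪ G)) := by
      intro x _
      by_cases hg : grade ℕ x ∈ Ioo p q
      · rw [ha x hg, zero_mul, zero_mul]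
      · have : oS (Ioo p q) (insert x F) = insert x (oS (Ioo p q) F) := by
          ext y; simp only [mem_oS, mem_insert]
          constructor
          · rintro ⟨rfl | hy, h2⟩
            · exact Or.inl rfl
            · exact Or.inr ⟨hy, h2⟩
          · rintro (rfl | ⟨hy, h2⟩)
            · exact ⟨Or.inl rfl, hg⟩
            · exact ⟨Or.inr hy, h2⟩
        rw [this, insert_union]
    rw [sum_congr rfl e1]
    have key : ∀ x, a x ≠ 0 → (x ∈ Fᶜ ↔ x ∈ (oS (Ioo p q) F ∪ G)ᶜ) := by
      intro x hx
      have hg : grade ℕ x ∉ Ioo p q := fun h => hx (ha x h)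
      rw [mem_compl, mem_compl, mem_union, mem_oS]
      constructor
      · rintro h (h1 | h1)
        · exact h h1.1
        · exact hg (hGU x h1)
      · intro h h1
        exact h (Or.inl ⟨h1, hg⟩)
    have hL : ∑ x ∈ Fᶜ, a x * z (insert x (oS (Ioo p q) F ∪ G)) =
        ∑ x, if (x ∈ Fᶜ) then a x * z (insert x (oS (Ioo p q) F ∪ G)) else 0 := by
      rw [← sum_filter]; congr 1; ext x; simp
    have hR : ∑ x ∈ (oS (Ioo p q) F ∪ G)ᶜ, a x * z (insert x (oS (Ioo p q) F ∪ G)) =
        ∑ x, if (x ∈ (oS (Ioo p q) F ∪ G)ᶜ) then a x * z (insert x (oS (Ioo p q) F ∪ G)) else 0 := by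
      rw [← sum_filter]; congr 1; ext x; simp
    rw [hL, hR]
    refine sum_congr rfl fun x _ => ?_
    by_cases hx : a x = 0
    · simp [hx]
    · simp only [key x hx]
  · simp only [if_neg hG, mul_zero, sum_const_zero]

theorem HHz_bd_out {K : Type} [Field K] (σ : Finset P → ((Finset P → K) →ₗ[K] (Finset P → K)))
    (p q : ℕ) (DU : Finset ℕ) (hDU : DU ⊆ Ioo p q) (z : Finset P → K) (a : P → K)
    (ha : ∀ x, (grade ℕ x ∈ Ioo p q ∨ grade ℕ x = p ∨ grade ℕ x = q) → a x = 0) :
    bd a (HHz σ p q DU z) = HHz σ p q DU (bd a z) := by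
  funext F
  have ha' : ∀ x, grade ℕ x ∈ Ioo p q → a x = 0 := fun x hx => ha x (Or.inl hx)
  rw [bd_apply]
  unfold HHz
  rw [← slc_sum p q DU hDU z a ha' F, map_sum, Finset.sum_apply]
  refine sum_congr rfl fun x _ => ?_
  rw [map_smul, Pi.smul_apply, smul_eq_mul]
  by_cases hx : a x = 0
  · rw [hx, zero_mul, zero_mul]
  · have hg : ¬ (grade ℕ x ∈ Ioo p q ∨ grade ℕ x = p ∨ grade ℕ x = q) := fun h => hx (ha x h)
    push Not at hg
    congr 1
    have h1 : rs {p, q} (insert x F) = rs {p, q} F := by
      ext y; simp only [mem_rs, mem_insert, mem_singleton]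
      constructor
      · rintro ⟨rfl | hy, h2⟩
        · rcases h2 with h2 | h2
          · exact absurd h2 hg.2.1
          · exact absurd h2 hg.2.2
        · exact ⟨hy, h2⟩
      · rintro ⟨hy, h2⟩; exact ⟨Or.inr hy, h2⟩
    have h3 : rs (Ioo p q) (insert x F) = rs (Ioo p q) F := by
      ext y; simp only [mem_rs, mem_insert]
      constructor
      · rintro ⟨rfl | hy, h2⟩
        · exact absurd h2 hg.1
        · exact ⟨hy, h2⟩
      · rintro ⟨hy, h2⟩; exact ⟨Or.inr hy, h2⟩
    rw [h1, h3]

/-- TARGET -/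
theorem step {K : Type} [Field K] [CharP K 2] (m : ℕ) (c : P → K) (E : Finset ℕ) (hE : E ⊆ D0 m)
    (p q : ℕ) (hq : q ∈ E) (hp : p = 0 ∨ p ∈ E) (hpq : p < q) (hgap : ∀ e ∈ E, e ∉ Ioo p q)
    (hW : WStar c p q) (n : ℕ) (z : Finset P → K) (hz : InZ m E (D0 m) n z)
    (hcyc : bd (od c) z = 0) :
    ∃ w : Finset P → K, InZ m E (D0 m) (n + 1) w ∧ ∀ F, z F + bd (od c) w F ≠ 0 →
      (∃ x ∈ F, ¬ Even (grade ℕ x) ∧ grade ℕ x ∈ Ioo p q) ∧
      ∃ F', z F' ≠ 0 ∧ F'.filter (fun x => grade ℕ x ∉ Ioo p q) =
        F.filter (fun x => grade ℕ x ∉ Ioo p q) := by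
  classical
  obtain ⟨DU, hDU⟩ : ∃ DU : Finset ℕ, DU = (Ioo p q).filter (fun t => Even t) := ⟨_, rfl⟩
  obtain ⟨OU, hOU⟩ : ∃ OU : Finset ℕ, OU = (Ioo p q).filter (fun t => ¬ Even t) := ⟨_, rfl⟩
  have hDUU : DU ⊆ Ioo p q := by rw [hDU]; exact filter_subset _ _
  have hqD : q ∈ D0 m := hE hq
  have hq2 : q ≤ 2 * m ∧ Even q := by
    have := hqD
    unfold D0 at this
    rw [mem_filter, mem_Icc] at this
    exact ⟨this.1.2, this.2⟩
  have hpE : Even p := by
    rcases hp with rfl | hp
    · exact Even.zero
    · have := hE hp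
      unfold D0 at this
      rw [mem_filter] at this
      exact this.2
  have hDUD : DU ⊆ D0 m := by
    intro t ht
    rw [hDU, mem_filter, mem_Ioo] at ht
    unfold D0
    rw [mem_filter, mem_Icc]
    exact ⟨⟨by omega, by omega⟩, ht.2⟩
  -- the linear sections
  have hσex : ∀ Q : Finset P, ∃ σ : (Finset P → K) →ₗ[K] (Finset P → K),
      (∀ v G, σ v G ≠ 0 → Ch (G ∪ Q) ∧ Ch Q ∧ col Q = ({p, q} : Finset ℕ).erase 0 ∧
        ∃ j ∈ Ioo p q, ¬ Even j ∧ col G = insert j DU) ∧
      (∀ v, ∀ l ∈ Ioo p q, bd (th K l) (σ v) = 0) ∧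
      (Ch Q → col Q = ({p, q} : Finset ℕ).erase 0 → ∀ ζ : Finset P → K,
        (∀ G, ζ G ≠ 0 → Ch (G ∪ Q) ∧ col G = DU) → (∀ l ∈ DU, bd (th K l) ζ = 0) →
        bd (wt c OU) (σ ζ) = ζ) := by
    intro Q
    by_cases hQ : Ch Q ∧ col Q = ({p, q} : Finset ℕ).erase 0
    · let ZQ : Submodule K (Finset P → K) :=
        { carrier := {ζ | (∀ G, ζ G ≠ 0 → Ch (G ∪ Q) ∧ col G = DU) ∧ ∀ l ∈ DU, bd (th K l) ζ = 0}
          zero_mem' := ⟨fun G h => absurd rfl h, fun l _ => bd_zero _⟩
          add_mem' := by
            rintro a b ⟨ha1, ha2⟩ ⟨hb1, hb2⟩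
            refine ⟨fun G h => ?_, fun l hl => ?_⟩
            · by_cases h1 : a G = 0
              · have : b G ≠ 0 := by
                  intro h2; apply h; rw [Pi.add_apply, h1, h2, add_zero]
                exact hb1 G this
              · exact ha1 G h1
            · rw [bd_add, ha2 l hl, hb2 l hl, add_zero]
          smul_mem' := by
            rintro r a ⟨ha1, ha2⟩
            refine ⟨fun G h => ?_, fun l hl => ?_⟩
            · apply ha1
              intro h1; apply h; rw [Pi.smul_apply, h1, smul_zero]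
            · rw [bd_smul, ha2 l hl, smul_zero] }
      let WQ : Submodule K (Finset P → K) :=
        { carrier := {w | (∀ G, w G ≠ 0 → Ch (G ∪ Q) ∧ ∃ j ∈ Ioo p q, ¬ Even j ∧
            col G = insert j DU) ∧ ∀ l ∈ Ioo p q, bd (th K l) w = 0}
          zero_mem' := ⟨fun G h => absurd rfl h, fun l _ => bd_zero _⟩
          add_mem' := by
            rintro a b ⟨ha1, ha2⟩ ⟨hb1, hb2⟩
            refine ⟨fun G h => ?_, fun l hl => ?_⟩
            · by_cases h1 : a G = 0
              · have : b G ≠ 0 := by
                  intro h2; apply h; rw [Pi.add_apply, h1, h2, add_zero]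
                exact hb1 G this
              · exact ha1 G h1
            · rw [bd_add, ha2 l hl, hb2 l hl, add_zero]
          smul_mem' := by
            rintro r a ⟨ha1, ha2⟩
            refine ⟨fun G h => ?_, fun l hl => ?_⟩
            · apply ha1
              intro h1; apply h; rw [Pi.smul_apply, h1, smul_zero]
            · rw [bd_smul, ha2 l hl, smul_zero] }
      obtain ⟨σ, hσ1, hσ2⟩ := zq_section (zqL (wt c OU)) ZQ WQ (by
        rintro ζ ⟨h1, h2⟩
        rw [hDU] at h1 h2
        obtain ⟨w, hw1, hw2, hw3⟩ := hW Q hQ.1 hQ.2 ζ h1 h2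
        refine ⟨w, ⟨?_, hw2⟩, ?_⟩
        · rw [hDU]; exact hw1
        · rw [hOU]; exact hw3)
      refine ⟨σ, fun v G h => ?_, fun v => (hσ1 v).2, fun _ _ ζ h1 h2 => hσ2 ζ ⟨h1, h2⟩⟩
      obtain ⟨g1, g2⟩ := (hσ1 v).1 G h
      exact ⟨g1, hQ.1, hQ.2, g2⟩
    · refine ⟨0, fun v G h => absurd rfl h, fun v l _ => bd_zero _, fun h1 h2 => absurd ⟨h1, h2⟩ hQ⟩
  choose σ hσA hσB hσC using hσex
  -- nonvanishing of H
  have hHne : ∀ (y : Finset P → K) (F : Finset P), HHz σ p q DU y F ≠ 0 →
      (Ch (rs (Ioo p q) F ∪ rs {p, q} F) ∧ Ch (rs {p, q} F) ∧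
        col (rs {p, q} F) = ({p, q} : Finset ℕ).erase 0 ∧
        ∃ j ∈ Ioo p q, ¬ Even j ∧ col (rs (Ioo p q) F) = insert j DU) ∧
      ∃ G, col G = DU ∧ y (oS (Ioo p q) F ∪ G) ≠ 0 := by
    intro y F h
    refine ⟨hσA _ _ _ h, ?_⟩
    by_contra hcon
    push Not at hcon
    apply h
    unfold HHz
    have : slc (Ioo p q) DU y F = 0 := by
      funext G
      unfold slc
      split_ifs with hG
      · exact hcon G hG
      · rfl
    rw [this, map_zero]; rfl
  have hHzero : HHz σ p q DU (0 : Finset P → K) = 0 := by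
    funext F
    by_contra hcon
    obtain ⟨_, G, _, h⟩ := hHne 0 F hcon
    exact h rfl
  -- supports
  have hsupp : ∀ F, HHz σ p q DU z F ≠ 0 → Ch F ∧ F.card = n + 1 ∧ col F ⊆ Icc 1 (2 * m) ∧
      (col F).filter (fun t => Even t) = D0 m := by
    intro F hF
    obtain ⟨⟨hc1, hc2, hc3, j, hjU, hjo, hcolr⟩, G, hG, hzG⟩ := hHne z F hF
    obtain ⟨hch, hcard, hcolI, hev⟩ := hz.supp _ hzG
    have hGU : ∀ x ∈ G, grade ℕ x ∈ Ioo p q := fun x hx => hDUU (grade_of_col hG hx)
    have hFeq := oS_union (Ioo p q) F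
    have hmix : ∀ x ∈ rs (Ioo p q) F, ∀ y ∈ oS (Ioo p q) F, x ≤ y ∨ y ≤ x := by
      intro x hx y hy
      have hxg := (mem_rs.1 hx).2
      rw [mem_Ioo] at hxg
      have hyg := (mem_oS.1 hy).2
      have hy1 : 1 ≤ grade ℕ y := by
        have : grade ℕ y ∈ col (oS (Ioo p q) F ∪ G) := mem_col.2 ⟨y, mem_union_left _ hy, rfl⟩
        exact (mem_Icc.1 (hcolI this)).1
      have hcase : grade ℕ y ≤ p ∨ q ≤ grade ℕ y := by
        by_contra hcon
        push Not at hcon
        exact hyg (mem_Ioo.2 ⟨hcon.1, hcon.2⟩)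
      rcases hcase with hcase | hcase
      · have hpin : p ∈ col (rs {p, q} F) := by
          rw [hc3, mem_erase]
          exact ⟨by omega, by simp⟩
        obtain ⟨a, ha, hag⟩ := mem_col.1 hpin
        have haS : a ∈ oS (Ioo p q) F := by
          rw [mem_oS]
          refine ⟨(mem_rs.1 ha).1, ?_⟩
          rw [hag, mem_Ioo]; omega
        have h1 : a < x := hc1.lt (mem_union_right _ ha) (mem_union_left _ hx) (by rw [hag]; exact hxg.1)
        have h2 : y ≤ a := by
          rcases hcase.eq_or_lt with he | hl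
          · exact (hch.inj (mem_union_left _ hy) (mem_union_left _ haS) (by rw [he, hag])).le
          · exact (hch.lt (mem_union_left _ hy) (mem_union_left _ haS) (by rw [hag]; exact hl)).le
        exact Or.inr (h2.trans h1.le)
      · have hqin : q ∈ col (rs {p, q} F) := by
          rw [hc3, mem_erase]
          exact ⟨by omega, by simp⟩
        obtain ⟨b, hb, hbg⟩ := mem_col.1 hqin
        have hbS : b ∈ oS (Ioo p q) F := by
          rw [mem_oS]
          refine ⟨(mem_rs.1 hb).1, ?_⟩
          rw [hbg, mem_Ioo]; omega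
        have h1 : x < b := hc1.lt (mem_union_left _ hx) (mem_union_right _ hb) (by rw [hbg]; exact hxg.2)
        have h2 : b ≤ y := by
          rcases hcase.eq_or_lt with he | hl
          · exact (hch.inj (mem_union_left _ hbS) (mem_union_left _ hy) (by rw [hbg, he])).le
          · exact (hch.lt (mem_union_left _ hbS) (mem_union_left _ hy) (by rw [hbg]; exact hl)).le
        exact Or.inl (h1.le.trans h2)
    have hchF : Ch F := by
      intro x hx y hy
      rw [← hFeq, mem_union] at hx hy
      rcases hx with hx | hx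
      · rcases hy with hy | hy
        · exact hch x (mem_union_left _ hx) y (mem_union_left _ hy)
        · exact (hmix y hy x hx).symm
      · rcases hy with hy | hy
        · exact hmix x hx y hy
        · exact hc1 x (mem_union_left _ hx) y (mem_union_left _ hy)
    have hdisjG : Disjoint (oS (Ioo p q) F) G := by
      rw [Finset.disjoint_left]
      intro x hx hxG
      exact (mem_oS.1 hx).2 (hGU x hxG)
    have hdisjr : Disjoint (oS (Ioo p q) F) (rs (Ioo p q) F) := by
      rw [Finset.disjoint_left]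
      intro x hx hxG
      exact (mem_oS.1 hx).2 (mem_rs.1 hxG).2
    have hcardG : G.card = DU.card := by
      rw [← card_col (hch.mono subset_union_right), hG]
    have hjDU : j ∉ DU := by
      rw [hDU, mem_filter]; exact fun h => hjo h.2
    have hcardr : (rs (Ioo p q) F).card = DU.card + 1 := by
      rw [← card_col (hc1.mono subset_union_left), hcolr, card_insert_of_notMem hjDU]
    have hcF : F.card = n + 1 := by
      rw [card_union_of_disjoint hdisjG] at hcard
      rw [← hFeq, card_union_of_disjoint hdisjr]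
      omega
    have hcolF : col F = col (oS (Ioo p q) F) ∪ insert j DU := by
      conv_lhs => rw [← hFeq]
      rw [col_union, hcolr]
    rw [col_union, hG] at hcolI hev
    refine ⟨hchF, hcF, ?_, ?_⟩
    · rw [hcolF]
      apply union_subset (subset_union_left.trans hcolI)
      apply insert_subset
      · rw [mem_Ioo] at hjU
        rw [mem_Icc]; omega
      · exact subset_union_right.trans hcolI
    · rw [hcolF, ← hev, filter_union, filter_union, filter_insert, if_neg hjo]
  -- slices of z are cycles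
  have hslC : ∀ F, bd (wt c OU) (σ (rs {p, q} F) (slc (Ioo p q) DU z F)) =
      slc (Ioo p q) DU z F := by
    intro F
    by_cases h0 : slc (Ioo p q) DU z F = 0
    · rw [h0, map_zero, bd_zero]
    · have hex : ∃ G, slc (Ioo p q) DU z F G ≠ 0 := by
        by_contra hcon
        push Not at hcon
        exact h0 (funext hcon)
      have hsl : ∀ G, slc (Ioo p q) DU z F G ≠ 0 → col G = DU ∧ z (oS (Ioo p q) F ∪ G) ≠ 0 := by
        intro G hG
        unfold slc at hG
        split_ifs at hG with h1
        · exact ⟨h1, hG⟩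
        · exact absurd rfl hG
      obtain ⟨G, hG⟩ := hex
      obtain ⟨hGc, hzG⟩ := hsl G hG
      obtain ⟨hch, hcard, hcolI, hev⟩ := hz.supp _ hzG
      have hGU : ∀ x ∈ G, grade ℕ x ∈ Ioo p q := fun x hx => hDUU (grade_of_col hGc hx)
      have hQsub : rs {p, q} F ⊆ oS (Ioo p q) F := by
        intro x hx
        rw [mem_rs, mem_insert, mem_singleton] at hx
        rw [mem_oS]
        refine ⟨hx.1, ?_⟩
        rw [mem_Ioo]; omega
      have hin : ∀ t ∈ D0 m, t ∉ Ioo p q → t ∈ col (oS (Ioo p q) F) := by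
        intro t ht htU
        rw [← hev, mem_filter] at ht
        obtain ⟨x, hx, hxt⟩ := mem_col.1 ht.1
        rw [mem_union] at hx
        rcases hx with hx | hx
        · exact mem_col.2 ⟨x, hx, hxt⟩
        · exact absurd (hGU x hx) (by rw [hxt]; exact htU)
      have hcolQ : col (rs {p, q} F) = ({p, q} : Finset ℕ).erase 0 := by
        ext t
        rw [mem_erase, mem_insert, mem_singleton]
        constructor
        · intro ht
          obtain ⟨x, hx, hxt⟩ := mem_col.1 ht
          have h1 : t ∈ Icc 1 (2 * m) := by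
            apply hcolI
            rw [mem_col]
            exact ⟨x, mem_union_left _ (hQsub hx), hxt⟩
          rw [mem_Icc] at h1
          have h2 := (mem_rs.1 hx).2
          rw [hxt, mem_insert, mem_singleton] at h2
          exact ⟨by omega, h2⟩
        · rintro ⟨ht0, ht⟩
          have h1 : t ∈ D0 m := by
            rcases ht with rfl | rfl
            · rcases hp with hp0 | hp0
              · exact absurd hp0 ht0
              · exact hE hp0
            · exact hqD
          have h2 : t ∉ Ioo p q := by rw [mem_Ioo]; omega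
          obtain ⟨x, hx, hxt⟩ := mem_col.1 (hin t h1 h2)
          rw [mem_col]
          refine ⟨x, ?_, hxt⟩
          rw [mem_rs, mem_insert, mem_singleton, hxt]
          exact ⟨(mem_oS.1 hx).1, ht⟩
      have hchQ : Ch (rs {p, q} F) := hch.mono (hQsub.trans subset_union_left)
      refine hσC _ hchQ hcolQ _ ?_ ?_
      · intro G' hG'
        obtain ⟨h1, h2⟩ := hsl G' hG'
        obtain ⟨h3, _⟩ := hz.supp _ h2
        exact ⟨h3.mono (union_subset subset_union_right (hQsub.trans subset_union_left)), h1⟩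
      · intro l hl
        funext G'
        rw [bd_apply]
        have hlU : l ∈ Ioo p q := hDUU hl
        have hker := congrFun (hz.ker l (fun h => hgap l h hlU)) (oS (Ioo p q) F ∪ G')
        rw [bd_apply] at hker
        by_cases hins : insert l (col G') = DU
        · have e1 : ∀ x ∈ G'ᶜ, th K l x * slc (Ioo p q) DU z F (insert x G') =
              th K l x * z (insert x (oS (Ioo p q) F ∪ G')) := by
            intro x _
            unfold th
            split_ifs with hx
            · congr 1
              unfold slc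
              rw [col_insert, hx, if_pos hins, union_insert]
            · rw [zero_mul, zero_mul]
          rw [sum_congr rfl e1]
          have hsub : (oS (Ioo p q) F ∪ G')ᶜ ⊆ G'ᶜ := by
            intro x hx
            rw [mem_compl] at hx ⊢
            exact fun h => hx (mem_union_right _ h)
          rw [← sum_subset hsub]
          · exact hker
          · intro x hx1 hx2
            rw [mem_compl] at hx1 hx2
            push Not at hx2
            rw [mem_union] at hx2
            have hxo : x ∈ oS (Ioo p q) F := hx2.resolve_right hx1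
            have : grade ℕ x ≠ l := by
              intro h
              exact (mem_oS.1 hxo).2 (h ▸ hlU)
            unfold th
            rw [if_neg this, zero_mul]
        · show _ = (0:K)
          apply sum_eq_zero
          intro x _
          unfold th
          split_ifs with hx
          · unfold slc
            rw [col_insert, hx, if_neg hins, mul_zero]
          · rw [zero_mul]
  -- H z is in InZ
  have hHInZ : InZ m E (D0 m) (n + 1) (HHz σ p q DU z) := by
    refine ⟨hsupp, fun l hl => ?_⟩
    by_cases hlU : l ∈ Ioo p q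
    · funext F
      rw [HHz_bd_in σ p q DU z (th K l) (by
        intro x hx
        unfold th
        rw [if_neg]
        intro h
        exact hx (h ▸ hlU)) F, hσB _ _ l hlU]
      rfl
    · by_cases hlp : l = p
      · have hp0 : p = 0 := by
          rcases hp with h | h
          · exact h
          · exact absurd (hlp ▸ h) hl
        funext F
        rw [bd_apply]
        show _ = (0:K)
        apply sum_eq_zero
        intro x _
        unfold th
        split_ifs with hx
        · have : HHz σ p q DU z (insert x F) = 0 := by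
            by_contra hne
            have h1 := (hsupp _ hne).2.2.1
            have h2 : grade ℕ x ∈ col (insert x F) := mem_col.2 ⟨x, mem_insert_self _ _, rfl⟩
            have h3 := mem_Icc.1 (h1 h2)
            omega
          rw [this, mul_zero]
        · rw [zero_mul]
      · have hlq : l ≠ q := fun h => hl (h ▸ hq)
        rw [HHz_bd_out σ p q DU hDUU z (th K l) (by
          intro x hx
          unfold th
          rw [if_neg]
          intro h
          rw [h] at hx
          rcases hx with hx | hx | hx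
          · exact hlU hx
          · exact hlp hx
          · exact hlq hx), hz.ker l hl, hHzero]
  refine ⟨HHz σ p q DU z, hHInZ, ?_⟩
  -- the remaining weights
  obtain ⟨od', hod'⟩ : ∃ od' : P → K, od' = fun x =>
    if Even (grade ℕ x) ∨ grade ℕ x ∈ Ioo p q then 0 else c x := ⟨_, rfl⟩
  have hodsum : od c = wt c OU + od' := by
    funext x
    rw [Pi.add_apply, hod']
    unfold od wt
    rw [hOU]
    simp only [mem_filter]
    by_cases h1 : Even (grade ℕ x)
    · simp [h1]
    · by_cases h2 : grade ℕ x ∈ Ioo p q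
      · simp [h1, h2]
      · simp [h1, h2]
  have hout : bd od' (HHz σ p q DU z) = HHz σ p q DU (bd od' z) := by
    refine HHz_bd_out σ p q DU hDUU z od' ?_
    intro x hx
    rw [hod']
    simp only
    rw [if_pos]
    rcases hx with hx | hx | hx
    · exact Or.inr hx
    · exact Or.inl (hx ▸ hpE)
    · exact Or.inl (hx ▸ hq2.2)
  have hin4 : ∀ F, bd (wt c OU) (HHz σ p q DU z) F =
      if col (rs (Ioo p q) F) = DU then z F else 0 := by
    intro F
    rw [HHz_bd_in σ p q DU z (wt c OU) (by
      intro x hx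
      unfold wt
      rw [if_neg]
      rw [hOU, mem_filter]
      exact fun h => hx h.1) F, hslC F]
    unfold slc
    rw [oS_union]
  have hbdy : bd od' z = - bd (wt c OU) z := by
    have h1 := hcyc
    rw [hodsum, bd_add_left] at h1
    exact eq_neg_of_add_eq_zero_right h1
  intro F hF
  rw [hodsum, bd_add_left, Pi.add_apply, hin4, hout, hbdy] at hF
  by_cases hcase : HHz σ p q DU (- bd (wt c OU) z) F ≠ 0
  · obtain ⟨⟨_, _, _, j, hjU, hjo, hcolr⟩, G, hG, hyG⟩ := hHne _ F hcase
    constructor
    · have : j ∈ col (rs (Ioo p q) F) := by rw [hcolr]; exact mem_insert_self _ _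
      obtain ⟨x, hx, hxj⟩ := mem_col.1 this
      exact ⟨x, (mem_rs.1 hx).1, by rw [hxj]; exact hjo, by rw [hxj]; exact hjU⟩
    · have hyG' : bd (wt c OU) z (oS (Ioo p q) F ∪ G) ≠ 0 := by
        intro h; apply hyG; rw [Pi.neg_apply, h, neg_zero]
      obtain ⟨x, hx1, hx2, hx3⟩ := bd_ne_zero hyG'
      have hxU : grade ℕ x ∈ Ioo p q := by
        unfold wt at hx2
        split_ifs at hx2 with h
        · rw [hOU, mem_filter] at h; exact h.1
        · exact absurd rfl hx2
      refine ⟨insert x (oS (Ioo p q) F ∪ G), hx3, ?_⟩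
      have hGU : ∀ x ∈ G, grade ℕ x ∈ Ioo p q := fun x hx => hDUU (grade_of_col hG hx)
      ext y
      rw [mem_filter, mem_filter, mem_insert, mem_union, mem_oS]
      constructor
      · rintro ⟨rfl | ⟨hy, _⟩ | hy, h2⟩
        · exact absurd hxU h2
        · exact ⟨hy, h2⟩
        · exact absurd (hGU y hy) h2
      · rintro ⟨hy, h2⟩
        exact ⟨Or.inr (Or.inl ⟨hy, h2⟩), h2⟩
  · push Not at hcase
    rw [hcase, add_zero] at hF
    by_cases hcol : col (rs (Ioo p q) F) = DU
    · rw [if_pos hcol, CharTwo.add_self_eq_zero] at hF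
      exact absurd rfl hF
    · rw [if_neg hcol, add_zero] at hF
      obtain ⟨_, _, _, hev⟩ := hz.supp F hF
      refine ⟨?_, F, hF, rfl⟩
      by_contra hcon
      push Not at hcon
      apply hcol
      ext t
      rw [col_rs, mem_inter]
      constructor
      · rintro ⟨ht, htU⟩
        obtain ⟨x, hx, hxt⟩ := mem_col.1 ht
        have hte : Even t := by
          by_contra hte
          exact hcon x hx (by rw [hxt]; exact hte) (by rw [hxt]; exact htU)
        rw [hDU, mem_filter]
        exact ⟨htU, hte⟩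
      · intro ht
        have h1 := hDUD ht
        rw [← hev, mem_filter] at h1
        exact ⟨h1.1, hDUU ht⟩

end Job


end J_step

end Pool.Agent.Helper236.CE
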