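import Pool.Agent.Helper236.CE.Basic
import Pool.Agent.Helper236.CE.J_step

set_option autoImplicit false
set_option linter.unusedSectionVars false
set_option linter.style.longLine false

namespace Pool.Agent.Helper236.CE

open Finset
open J_step (step)


namespace J_base_case

section Job

variable {P : Type} [PartialOrder P] [Fintype P] [DecidableEq P] [BoundedOrder P] [GradeOrder ℕ P]


/-- predecessor -/
def prd (E : Finset ℕ) (e : ℕ) : ℕ := (E.filter (fun a => a < e)).sup id

theorem prd_mem (E : Finset ℕ) (e : ℕ) : prd E e = 0 ∨ prd E e ∈ E := by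
  unfold prd
  rcases (E.filter (fun a => a < e)).eq_empty_or_nonempty with h | h
  · left; rw [h]; rfl
  · right
    obtain ⟨x, hx, hx'⟩ := Finset.exists_mem_eq_sup _ h id
    rw [hx']
    exact (Finset.mem_filter.mp hx).1

theorem prd_lt (E : Finset ℕ) {e : ℕ} (he : 0 < e) : prd E e < e := by
  unfold prd
  rw [Finset.sup_lt_iff he]
  intro b hb
  exact (Finset.mem_filter.mp hb).2

theorem le_prd (E : Finset ℕ) {a e : ℕ} (ha : a ∈ E) (h : a < e) : a ≤ prd E e := by
  unfold prd
  exact Finset.le_sup (f := id) (Finset.mem_filter.mpr ⟨ha, h⟩)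

theorem prd_gap (E : Finset ℕ) (e a : ℕ) (ha : a ∈ E) : a ∉ Ioo (prd E e) e := by
  intro h
  rw [Finset.mem_Ioo] at h
  have := le_prd E ha h.2
  omega

theorem prd_disj (E : Finset ℕ) {e e' : ℕ} (he : e ∈ E) (he' : e' ∈ E) (hne : e ≠ e') {t : ℕ}
    (h : t ∈ Ioo (prd E e) e) : t ∉ Ioo (prd E e') e' := by
  intro h'
  rw [Finset.mem_Ioo] at h h'
  rcases lt_or_gt_of_ne hne with h1 | h1
  · have := le_prd E he h1; omega
  · have := le_prd E he' h1; omega

theorem D0_card (m : ℕ) : (D0 m).card = m := by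
  have h : D0 m = (Icc 1 m).image (fun i => 2 * i) := by
    ext t
    simp only [D0, Finset.mem_filter, Finset.mem_Icc, Finset.mem_image]
    constructor
    · rintro ⟨⟨h1, h2⟩, k, hk⟩
      exact ⟨k, ⟨by omega, by omega⟩, by omega⟩
    · rintro ⟨k, ⟨h1, h2⟩, rfl⟩
      exact ⟨⟨by omega, by omega⟩, k, by ring⟩
  rw [h, Finset.card_image_of_injective _ (fun a b hab => by simpa using hab), Nat.card_Icc]
  omega

theorem inz_add {K : Type} [Field K] {m : ℕ} {E A : Finset ℕ} {n : ℕ} {z w : Finset P → K}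
    (hz : InZ m E A n z) (hw : InZ m E A n w) : InZ m E A n (z + w) := by
  refine ⟨fun F hF => ?_, fun l hl => ?_⟩
  · by_cases h : z F = 0
    · refine hw.supp F fun h' => hF ?_
      rw [Pi.add_apply, h, h', add_zero]
    · exact hz.supp F h
  · rw [bd_add, hz.ker l hl, hw.ker l hl, add_zero]

theorem inz_zero {K : Type} [Field K] (m : ℕ) (E A : Finset ℕ) (n : ℕ) :
    InZ m E A n (0 : Finset P → K) :=
  ⟨fun F hF => absurd rfl hF, fun _ _ => bd_zero _⟩

theorem inz_bd {K : Type} [Field K] {m : ℕ} {E A : Finset ℕ} {n : ℕ} {w : Finset P → K} (c : P → K)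
    (hw : InZ m E A (n + 1) w) : InZ m E A n (bd (od c) w) := by
  refine ⟨fun F hF => ?_, fun l hl => ?_⟩
  · obtain ⟨x, hxF, hx, hwx⟩ := bd_ne_zero hF
    obtain ⟨h1, h2, h3, h4⟩ := hw.supp _ hwx
    have hodd : ¬ Even (grade ℕ x) := by
      intro h
      apply hx
      unfold od
      rw [if_pos h]
    refine ⟨h1.mono (Finset.subset_insert _ _), ?_, ?_, ?_⟩
    · rw [Finset.card_insert_of_notMem hxF] at h2
      omega
    · rw [col_insert] at h3
      exact (Finset.subset_insert _ _).trans h3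
    · rw [col_insert, Finset.filter_insert, if_neg hodd] at h4
      exact h4
  · rw [bd_comm, hw.ker l hl, bd_zero]

theorem base_ind {K : Type} [Field K] [CharP K 2] (m : ℕ) (c : P → K)
    (hW : ∀ p q, Even p → Even q → p < q → q ≤ 2 * m → WStar c p q)
    (E : Finset ℕ) (hE : E ⊆ D0 m) (n : ℕ) (z : Finset P → K) (hz : InZ m E (D0 m) n z)
    (hcyc : bd (od c) z = 0) (E' : Finset ℕ) (hE' : E' ⊆ E) :
    ∃ w : Finset P → K, InZ m E (D0 m) (n + 1) w ∧ ∀ F, z F + bd (od c) w F ≠ 0 →
      ∀ e ∈ E', ∃ x ∈ F, ¬ Even (grade ℕ x) ∧ grade ℕ x ∈ Ioo (prd E e) e := by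
  induction E' using Finset.induction_on with
  | empty => exact ⟨0, inz_zero _ _ _ _, fun F _ e he => absurd he (Finset.notMem_empty e)⟩
  | insert e E' heE' ih =>
    obtain ⟨w, hw, hwF⟩ := ih ((Finset.subset_insert _ _).trans hE')
    have heE : e ∈ E := hE' (Finset.mem_insert_self _ _)
    have heD := hE heE
    unfold D0 at heD
    rw [Finset.mem_filter, Finset.mem_Icc] at heD
    have hpe : Even (prd E e) := by
      rcases prd_mem E e with h | h
      · rw [h]; exact Even.zero
      · have := hE h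
        unfold D0 at this
        exact (Finset.mem_filter.mp this).2
    have hlt := prd_lt E (show 0 < e by omega)
    have hz' : InZ m E (D0 m) n (z + bd (od c) w) := inz_add hz (inz_bd c hw)
    have hcyc' : bd (od c) (z + bd (od c) w) = 0 := by
      rw [bd_add, hcyc, bd_self, add_zero]
    obtain ⟨w', hw', hwF'⟩ := step m c E hE (prd E e) e heE (prd_mem E e) hlt (prd_gap E e)
      (hW _ _ hpe heD.2 hlt heD.1.2) n _ hz' hcyc'
    refine ⟨w + w', inz_add hw hw', fun F hF e' he' => ?_⟩
    have hF' : (z + bd (od c) w) F + bd (od c) w' F ≠ 0 := by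
      rw [bd_add] at hF
      rw [Pi.add_apply] at hF ⊢
      rwa [add_assoc]
    obtain ⟨h1, F', hF'0, hfil⟩ := hwF' F hF'
    rcases Finset.mem_insert.mp he' with h | h
    · rw [h]; exact h1
    · obtain ⟨x, hx, hodd, hgr⟩ := hwF F' hF'0 e' h
      have hne : e' ≠ e := fun h' => heE' (h' ▸ h)
      have hx' : x ∈ F'.filter (fun x => grade ℕ x ∉ Ioo (prd E e) e) :=
        Finset.mem_filter.mpr ⟨hx, prd_disj E (hE' he') heE hne hgr⟩
      rw [hfil] at hx'
      exact ⟨x, (Finset.mem_filter.mp hx').1, hodd, hgr⟩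

/-- TARGET -/
theorem base_case {K : Type} [Field K] [CharP K 2] (m : ℕ) (c : P → K)
    (hW : ∀ p q, Even p → Even q → p < q → q ≤ 2 * m → WStar c p q)
    (E : Finset ℕ) (hE : E ⊆ D0 m) (n : ℕ) (hn : n < m + E.card) : EX m c E (D0 m) n := by
  intro z hz hcyc
  obtain ⟨w, hw, hwF⟩ := base_ind m c hW E hE n z hz hcyc E subset_rfl
  refine ⟨w, hw, ?_⟩
  funext F
  by_contra hne
  have hF : z F + bd (od c) w F ≠ 0 := by
    intro h
    rw [CharTwo.add_eq_zero] at h
    exact hne h.symm
  have hz' : InZ m E (D0 m) n (z + bd (od c) w) := inz_add hz (inz_bd c hw)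
  obtain ⟨h1, h2, h3, h4⟩ := hz'.supp F hF
  have h5 := hwF F hF
  choose! x hxF hxo hxg using h5
  have hcard := Finset.card_filter_add_card_filter_not (s := col F) (fun t => Even t)
  rw [h4, D0_card, card_col h1, h2] at hcard
  have hinj : E.card ≤ ((col F).filter (fun t => ¬ Even t)).card := by
    refine Finset.card_le_card_of_injOn (fun e => grade ℕ (x e)) ?_ ?_
    · intro e he
      exact Finset.mem_coe.mpr (Finset.mem_filter.mpr
        ⟨mem_col.mpr ⟨x e, hxF e he, rfl⟩, hxo e he⟩)
    · intro e he e' he' hee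
      by_contra hne'
      have h6 := hxg e he
      have h7 := hxg e' he'
      simp only at hee
      rw [hee] at h6
      exact prd_disj E he he' hne' h6 h7
  omega

end Job


end J_base_case

end Pool.Agent.Helper236.CE
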