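import Pool.Agent.Helper236.CE.Basic

set_option autoImplicit false
set_option linter.unusedSectionVars false
set_option linter.style.longLine false

namespace Pool.Agent.Helper236.CE

open Finset


namespace J_base_change

section Job

variable {P : Type} [PartialOrder P] [Fintype P] [DecidableEq P] [BoundedOrder P] [GradeOrder ℕ P]


theorem bc_coord {K k : Type} [Field K] [Field k] [Algebra K k] (φ : k →ₗ[K] K) (a : P → K)
    (z : Finset P → k) (F : Finset P) :
    φ (bd (fun x => algebraMap K k (a x)) z F) = bd a (fun G => φ (z G)) F := by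
  rw [bd_apply, bd_apply, map_sum]
  refine sum_congr rfl (fun x _ => ?_)
  rw [← Algebra.smul_def, map_smul, smul_eq_mul]

theorem bc_th {K k : Type} [Field K] [Field k] [Algebra K k] (l : ℕ) :
    (th k l : P → k) = fun x => algebraMap K k (th K l x) := by
  funext x
  unfold th
  split_ifs <;> simp

theorem bc_sum {K k : Type} [Field K] [Field k] [Algebra K k] {ι : Type} (s : Finset ι) (b : ι → k)
    (a : P → K) (w : ι → Finset P → K) (F : Finset P) :
    bd (fun x => algebraMap K k (a x)) (fun G => ∑ i ∈ s, (w i G) • b i) F =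
      ∑ i ∈ s, (bd a (w i) F) • b i := by
  rw [bd_apply]
  simp only [bd_apply, mul_sum, sum_smul]
  rw [sum_comm]
  refine sum_congr rfl (fun i _ => sum_congr rfl (fun x _ => ?_))
  rw [← Algebra.smul_def, smul_smul]

/-- TARGET -/
theorem base_change {K k : Type} [Field K] [Field k] [Algebra K k] (c : P → K) (n : ℕ)
    (h : ∀ z : Finset P → K, InR n z → bd c z = 0 → ∃ w : Finset P → K, InR (n + 1) w ∧ bd c w = z) :
    ∀ z : Finset P → k, InR n z → bd (fun x => algebraMap K k (c x)) z = 0 →
      ∃ w : Finset P → k, InR (n + 1) w ∧ bd (fun x => algebraMap K k (c x)) w = z := by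
  classical
  intro z hz hcz
  set b := Module.Basis.ofVectorSpace K k with hb
  have h1 : ∀ i, InR n (fun F => b.coord i (z F)) := by
    intro i
    refine ⟨fun F hF => hz.supp F (fun h0 => hF (by simp only [h0, map_zero])), fun l => ?_⟩
    funext F
    have h2 := bc_coord (b.coord i) (th K l) z F
    rw [← h2]
    have h3 := hz.ker l
    rw [bc_th (K := K)] at h3
    rw [h3]; simp
  have h2 : ∀ i, bd c (fun F => b.coord i (z F)) = 0 := by
    intro i
    funext F
    rw [← bc_coord, hcz]; simp
  choose w hw hw2 using fun i => h _ (h1 i) (h2 i)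
  set s : Finset (Module.Basis.ofVectorSpaceIndex K k) := (univ : Finset (Finset P)).biUnion (fun F => (b.repr (z F)).support) with hs
  refine ⟨fun F => ∑ i ∈ s, (w i F) • b i, ⟨?_, ?_⟩, ?_⟩
  · intro F hF
    obtain ⟨i, _, hi⟩ := exists_ne_zero_of_sum_ne_zero hF
    exact (hw i).supp F (fun h0 => hi (by rw [h0, zero_smul]))
  · intro l
    rw [bc_th (K := K)]
    funext F
    rw [bc_sum]
    refine sum_eq_zero (fun i _ => ?_)
    rw [(hw i).ker l]; simp
  · funext F
    rw [bc_sum]
    conv_rhs => rw [← b.linearCombination_repr (z F)]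
    rw [Finsupp.linearCombination_apply, Finsupp.sum_of_support_subset (s := s)]
    · refine sum_congr rfl (fun i _ => ?_)
      rw [hw2 i]; rfl
    · intro i hi
      rw [hs, mem_biUnion]; exact ⟨F, mem_univ _, hi⟩
    · intro i _; simp

end Job


end J_base_change

end Pool.Agent.Helper236.CE
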