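import Pool.Agent.Helper236.CE.Basic

set_option autoImplicit false
set_option linter.unusedSectionVars false
set_option linter.style.longLine false

namespace Pool.Agent.Helper236.CE

open Finset


namespace J_bridge

section BridgeAux

variable {P : Type} [PartialOrder P] [Fintype P] [DecidableEq P]
variable {k : Type} [Field k]

/-- indicator exponent -/
noncomputable def eF (F : Finset P) : P →₀ ℕ := ∑ x ∈ F, Finsupp.single x 1

theorem eF_apply (F : Finset P) (y : P) : eF F y = if y ∈ F then 1 else 0 := by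
  unfold eF
  rw [Finsupp.finset_sum_apply]
  simp only [Finsupp.single_apply]
  rw [Finset.sum_ite_eq']

theorem eF_support (F : Finset P) : (eF F).support = F := by
  ext y
  rw [Finsupp.mem_support_iff, eF_apply]
  by_cases h : y ∈ F <;> simp [h]

theorem eF_inj {F G : Finset P} (h : eF F = eF G) : F = G := by
  rw [← eF_support F, ← eF_support G, h]

theorem eF_erase {F : Finset P} {x : P} (_hx : x ∈ F) :
    eF F - Finsupp.single x 1 = eF (F.erase x) := by
  ext y
  rw [Finsupp.tsub_apply, eF_apply, eF_apply, Finsupp.single_apply]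
  by_cases h : x = y
  · subst h; simp [_hx]
  · rw [if_neg h]
    simp [Finset.mem_erase, Ne.symm h]

theorem eF_insert {F : Finset P} {x : P} (hx : x ∉ F) :
    Finsupp.single x 1 + eF F = eF (insert x F) := by
  unfold eF
  rw [Finset.sum_insert hx]

/-- squarefree monomial -/
noncomputable def mon (k : Type) [Field k] (F : Finset P) : MvPolynomial P k :=
  MvPolynomial.monomial (eF F) 1

theorem X_mul_mon {F : Finset P} {x : P} (hx : x ∉ F) :
    MvPolynomial.X x * mon k F = mon k (insert x F) := by
  unfold mon MvPolynomial.X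
  rw [MvPolynomial.monomial_mul, one_mul, eF_insert hx]

theorem eF_degree (F : Finset P) : (eF F).degree = F.card := by
  rw [Finsupp.degree_apply, eF_support]
  rw [Finset.card_eq_sum_ones]
  apply Finset.sum_congr rfl
  intro x hx
  rw [eF_apply, if_pos hx]

/-- linear form -/
noncomputable def ell (a : P → k) : MvPolynomial P k :=
  ∑ x : P, MvPolynomial.C (a x) * MvPolynomial.X x

theorem coeff_ell_mul (a : P → k) (f : MvPolynomial P k) (F : Finset P) :
    MvPolynomial.coeff (eF F) (ell a * f)
      = ∑ x ∈ F, a x * MvPolynomial.coeff (eF (F.erase x)) f := by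
  unfold ell
  rw [Finset.sum_mul, MvPolynomial.coeff_sum]
  have h1 : ∀ x : P, MvPolynomial.coeff (eF F) (MvPolynomial.C (a x) * MvPolynomial.X x * f)
      = if x ∈ F then a x * MvPolynomial.coeff (eF (F.erase x)) f else 0 := by
    intro x
    rw [mul_assoc, MvPolynomial.coeff_C_mul, MvPolynomial.coeff_X_mul', eF_support]
    by_cases hx : x ∈ F
    · rw [if_pos hx, if_pos hx, eF_erase hx]
    · rw [if_neg hx, if_neg hx, mul_zero]
  rw [Finset.sum_congr rfl fun x _ => h1 x, Finset.sum_ite_mem, Finset.univ_inter]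

/-- the functional attached to `w` -/
noncomputable def Lam (w : Finset P → k) : MvPolynomial P k →ₗ[k] k :=
  ∑ F : Finset P, w F • MvPolynomial.lcoeff k (eF F)

theorem Lam_apply (w : Finset P → k) (f : MvPolynomial P k) :
    Lam w f = ∑ F : Finset P, w F * MvPolynomial.coeff (eF F) f := by
  unfold Lam
  rw [LinearMap.sum_apply]
  rfl

theorem sum_swap (g : Finset P → P → k) :
    ∑ F : Finset P, ∑ x ∈ F, g (F.erase x) x = ∑ G : Finset P, ∑ x ∈ Gᶜ, g G x := by
  rw [Finset.sum_sigma', Finset.sum_sigma']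
  refine Finset.sum_bij' (fun p _ => ⟨p.1.erase p.2, p.2⟩) (fun p _ => ⟨insert p.2 p.1, p.2⟩)
    ?_ ?_ ?_ ?_ ?_
  · rintro ⟨F, x⟩ h
    simp
  · rintro ⟨F, x⟩ h
    simp
  · rintro ⟨F, x⟩ h
    simp only [Finset.mem_sigma] at h
    simp only [Finset.insert_erase h.2]
  · rintro ⟨F, x⟩ h
    simp only [Finset.mem_sigma, Finset.mem_compl] at h
    simp only [Finset.erase_insert h.2]
  · rintro ⟨F, x⟩ _
    rfl

theorem Lam_ell (w : Finset P → k) (a : P → k) (f : MvPolynomial P k) :
    Lam w (ell a * f) = ∑ G : Finset P, MvPolynomial.coeff (eF G) f * bd a w G := by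
  rw [Lam_apply]
  have h1 : ∀ F : Finset P, w F * MvPolynomial.coeff (eF F) (ell a * f)
      = ∑ x ∈ F, a x * w (insert x (F.erase x)) * MvPolynomial.coeff (eF (F.erase x)) f := by
    intro F
    rw [coeff_ell_mul, Finset.mul_sum]
    apply Finset.sum_congr rfl
    intro x hx
    rw [Finset.insert_erase hx]
    ring
  rw [Finset.sum_congr rfl fun F _ => h1 F,
    sum_swap (fun G x => a x * w (insert x G) * MvPolynomial.coeff (eF G) f)]
  apply Finset.sum_congr rfl
  intro G _
  unfold bd
  rw [Finset.mul_sum]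
  apply Finset.sum_congr rfl
  intro x _
  ring

theorem Lam_incomp (w : Finset P → k) (hw : ∀ F, w F ≠ 0 → Ch F) {x y : P} (hxy : ¬ x ≤ y)
    (hyx : ¬ y ≤ x) (f : MvPolynomial P k) :
    Lam w (MvPolynomial.X x * MvPolynomial.X y * f) = 0 := by
  rw [Lam_apply]
  apply Finset.sum_eq_zero
  intro F _
  by_cases hF : w F = 0
  · rw [hF, zero_mul]
  · have hch := hw F hF
    rw [mul_assoc, MvPolynomial.coeff_X_mul', eF_support]
    by_cases hx : x ∈ F
    · rw [if_pos hx, eF_erase hx, MvPolynomial.coeff_X_mul', eF_support]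
      by_cases hy : y ∈ F.erase x
      · rcases hch x hx y (Finset.mem_of_mem_erase hy) with h | h
        · exact absurd h hxy
        · exact absurd h hyx
      · rw [if_neg hy, mul_zero]
    · rw [if_neg hx, mul_zero]

variable [BoundedOrder P] [GradeOrder ℕ P]

/-- the ideal of the reduced face ring -/
structure IsA (𝔞 : Ideal (MvPolynomial P k)) : Prop where
  inc : ∀ x y : P, ¬ x ≤ y → ¬ y ≤ x →
    (MvPolynomial.X x * MvPolynomial.X y : MvPolynomial P k) ∈ 𝔞
  th : ∀ l : ℕ, ell (th k l) ∈ 𝔞

theorem IsA.sq {𝔞 : Ideal (MvPolynomial P k)} (h : IsA 𝔞) (x : P) :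
    (MvPolynomial.X x * MvPolynomial.X x : MvPolynomial P k) ∈ 𝔞 := by
  have h1 := 𝔞.mul_mem_left (MvPolynomial.X x) (h.th (grade ℕ x))
  have h2 : (MvPolynomial.X x : MvPolynomial P k) * ell (CE.th k (grade ℕ x))
      = MvPolynomial.X x * MvPolynomial.X x + ∑ y ∈ Finset.univ.erase x,
        MvPolynomial.X x * (MvPolynomial.C (CE.th k (grade ℕ x) y) * MvPolynomial.X y) := by
    unfold ell
    rw [Finset.mul_sum, ← Finset.add_sum_erase _ _ (Finset.mem_univ x)]
    congr 1
    unfold CE.th
    rw [if_pos rfl, MvPolynomial.C_1, one_mul]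
  have h3 : ∑ y ∈ Finset.univ.erase x,
        MvPolynomial.X x * (MvPolynomial.C (CE.th k (grade ℕ x) y) * MvPolynomial.X y) ∈ 𝔞 := by
    apply Ideal.sum_mem
    intro y hy
    have hne : y ≠ x := (Finset.mem_erase.1 hy).1
    unfold CE.th
    by_cases hg : grade ℕ y = grade ℕ x
    · rw [if_pos hg, MvPolynomial.C_1, one_mul]
      apply h.inc
      · intro hle
        rcases hle.eq_or_lt with h4 | h4
        · exact hne h4.symm
        · have := grade_strictMono (𝕆 := ℕ) h4; omega
      · intro hle
        rcases hle.eq_or_lt with h4 | h4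
        · exact hne h4
        · have := grade_strictMono (𝕆 := ℕ) h4; omega
    · rw [if_neg hg, MvPolynomial.C_0, zero_mul, mul_zero]
      exact 𝔞.zero_mem
  rw [h2] at h1
  exact (Ideal.add_mem_iff_left 𝔞 h3).1 h1

theorem IsA.X_mul_mon_mem {𝔞 : Ideal (MvPolynomial P k)} (h : IsA 𝔞) {G : Finset P} {x : P}
    (hx : x ∈ G) : MvPolynomial.X x * mon k G ∈ 𝔞 := by
  rw [← Finset.insert_erase hx, ← X_mul_mon (Finset.notMem_erase x G), ← mul_assoc]
  exact 𝔞.mul_mem_right _ (h.sq x)

theorem IsA.mon_mem {𝔞 : Ideal (MvPolynomial P k)} (h : IsA 𝔞) {F : Finset P} (hF : ¬ Ch F) :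
    mon k F ∈ 𝔞 := by
  unfold Ch at hF
  push Not at hF
  obtain ⟨x, hx, y, hy, hxy, hyx⟩ := hF
  have hyne : y ∈ F.erase x := Finset.mem_erase.2 ⟨fun e => hxy (e ▸ le_refl _), hy⟩
  rw [← Finset.insert_erase hx, ← X_mul_mon (Finset.notMem_erase x F),
    ← Finset.insert_erase hyne, ← X_mul_mon (Finset.notMem_erase y (F.erase x)), ← mul_assoc]
  exact 𝔞.mul_mem_right _ (h.inc x y hxy hyx)

theorem IsA.monomial_mem {𝔞 : Ideal (MvPolynomial P k)} (h : IsA 𝔞) {d : P →₀ ℕ}
    (hd : ∀ G : Finset P, d ≠ eF G) : MvPolynomial.monomial d (1 : k) ∈ 𝔞 := by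
  have hex : ∃ x, 2 ≤ d x := by
    by_contra hcon
    push Not at hcon
    apply hd d.support
    ext y
    rw [eF_apply]
    have := hcon y
    by_cases hy : y ∈ d.support
    · rw [if_pos hy]
      have := Finsupp.mem_support_iff.1 hy
      omega
    · rw [if_neg hy]
      exact Finsupp.notMem_support_iff.1 hy
  obtain ⟨x, hx⟩ := hex
  have h1 : MvPolynomial.monomial d (1 : k) = MvPolynomial.X x * MvPolynomial.X x *
      MvPolynomial.monomial (d - Finsupp.single x 2) 1 := by
    have e : d = Finsupp.single x 1 + Finsupp.single x 1 + (d - Finsupp.single x 2) := by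
      ext y
      rw [Finsupp.add_apply, Finsupp.add_apply, Finsupp.tsub_apply, Finsupp.single_apply,
        Finsupp.single_apply]
      by_cases hxy : x = y
      · subst hxy; simp; omega
      · simp [hxy]
    unfold MvPolynomial.X
    rw [MvPolynomial.monomial_mul, MvPolynomial.monomial_mul, one_mul, one_mul, ← e]
  rw [h1]
  exact 𝔞.mul_mem_right _ (h.sq x)

theorem Lam_zero {𝔞 : Ideal (MvPolynomial P k)} {m : ℕ}
    (h𝔞 : 𝔞 = Ideal.span {f : MvPolynomial P k | ∃ x y : P, ¬ x ≤ y ∧ ¬ y ≤ x ∧
        f = MvPolynomial.X x * MvPolynomial.X y} ⊔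
            Ideal.span (Set.range (fun j : Fin (2 * m + 2) =>
              ∑ x : P, if grade ℕ x = (j : ℕ) then (MvPolynomial.X x : MvPolynomial P k) else 0)))
    (w : Finset P → k) (hw : ∀ F, w F ≠ 0 → Ch F) (hk : ∀ l, bd (th k l) w = 0)
    (g : MvPolynomial P k) (hg : g ∈ 𝔞) : Lam w g = 0 := by
  let J : Ideal (MvPolynomial P k) :=
    { carrier := {g | ∀ f, Lam w (g * f) = 0}
      add_mem' := by
        intro a b ha hb f
        rw [add_mul, map_add, ha f, hb f, add_zero]
      zero_mem' := by
        intro f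
        rw [zero_mul, map_zero]
      smul_mem' := by
        intro c a ha f
        rw [smul_eq_mul, mul_comm c a, mul_assoc]
        exact ha _ }
  have hle : 𝔞 ≤ J := by
    rw [h𝔞]
    apply sup_le
    · rw [Ideal.span_le]
      rintro _ ⟨x, y, hxy, hyx, rfl⟩ f
      exact Lam_incomp w hw hxy hyx f
    · rw [Ideal.span_le]
      rintro _ ⟨j, rfl⟩ f
      have e : (∑ x : P, if grade ℕ x = (j : ℕ) then (MvPolynomial.X x : MvPolynomial P k) else 0)
          = ell (th k (j : ℕ)) := by
        unfold ell CE.th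
        apply Finset.sum_congr rfl
        intro x _
        split_ifs
        · rw [MvPolynomial.C_1, one_mul]
        · rw [MvPolynomial.C_0, zero_mul]
      change Lam w ((∑ x : P, if grade ℕ x = (j : ℕ) then
        (MvPolynomial.X x : MvPolynomial P k) else 0) * f) = 0
      rw [e, Lam_ell, hk]
      simp
  have h1 := hle hg 1
  rwa [mul_one] at h1

end BridgeAux

section Job

variable {P : Type} [PartialOrder P] [Fintype P] [DecidableEq P] [BoundedOrder P] [GradeOrder ℕ P]


/-- TARGET -/
theorem bridge (m : ℕ) (k : Type) [Field k] (h0 : grade ℕ (⊥ : P) = 0)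
    (h1 : grade ℕ (⊤ : P) = 2 * m + 1) (c : P → k) (n : ℕ)
    (h : ∀ z : Finset P → k, InR n z → bd c z = 0 → ∃ w : Finset P → k, InR (n + 1) w ∧ bd c w = z)
    (𝔞 : Ideal (MvPolynomial P k))
    (h𝔞 : 𝔞 = Ideal.span {f : MvPolynomial P k | ∃ x y : P, ¬ x ≤ y ∧ ¬ y ≤ x ∧
        f = MvPolynomial.X x * MvPolynomial.X y} ⊔
            Ideal.span (Set.range (fun j : Fin (2 * m + 2) =>
              ∑ x : P, if grade ℕ x = (j : ℕ) then (MvPolynomial.X x : MvPolynomial P k) else 0)))
    (p : MvPolynomial P k) (hp : p.IsHomogeneous n)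
    (hwp : (∑ x : P, MvPolynomial.C (c x) * MvPolynomial.X x) * p ∈ 𝔞) :
    (n = 0 ∧ p ∈ 𝔞) ∨ (0 < n ∧ ∃ q : MvPolynomial P k, q.IsHomogeneous (n - 1) ∧
      p - (∑ x : P, MvPolynomial.C (c x) * MvPolynomial.X x) * q ∈ 𝔞) := by
  classical
  -- the ideal
  have hA : IsA 𝔞 := by
    constructor
    · intro x y hxy hyx
      rw [h𝔞]
      exact Ideal.mem_sup_left (Ideal.subset_span ⟨x, y, hxy, hyx, rfl⟩)
    · intro l
      have e : ell (th k l)
          = (∑ x : P, if grade ℕ x = l then (MvPolynomial.X x : MvPolynomial P k) else 0) := by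
        unfold ell CE.th
        apply Finset.sum_congr rfl
        intro x _
        split_ifs
        · rw [MvPolynomial.C_1, one_mul]
        · rw [MvPolynomial.C_0, zero_mul]
      by_cases hl : l < 2 * m + 2
      · rw [e, h𝔞]
        exact Ideal.mem_sup_right (Ideal.subset_span ⟨⟨l, hl⟩, rfl⟩)
      · have h2 : ell (th k l) = (0 : MvPolynomial P k) := by
          rw [e]
          apply Finset.sum_eq_zero
          intro x _
          rw [if_neg]
          have h3 : grade ℕ x ≤ grade ℕ (⊤ : P) := grade_mono (𝕆 := ℕ) le_top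
          omega
        rw [h2]; exact 𝔞.zero_mem
  set ω : MvPolynomial P k := ∑ x : P, MvPolynomial.C (c x) * MvPolynomial.X x with hω
  have hωe : ω = ell c := rfl
  set W : Submodule k (MvPolynomial P k) := 𝔞.restrictScalars k ⊔
    (if n = 0 then ⊥ else (MvPolynomial.homogeneousSubmodule P k (n - 1)).map
      (LinearMap.mulLeft k ω)) with hW
  by_cases hpW : p ∈ W
  · by_cases hn : n = 0
    · left
      rw [hW, if_pos hn, sup_bot_eq] at hpW
      exact ⟨hn, hpW⟩
    · right
      rw [hW, if_neg hn, Submodule.mem_sup] at hpW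
      obtain ⟨a, ha, b, hb, hab⟩ := hpW
      obtain ⟨q, hq, rfl⟩ := hb
      refine ⟨Nat.pos_of_ne_zero hn, q, hq, ?_⟩
      rw [← hab, LinearMap.mulLeft_apply, add_sub_cancel_right]
      exact ha
  · exfalso
    obtain ⟨φ, hφp, hφW⟩ := Submodule.exists_le_ker_of_notMem hpW
    have hφ𝔞 : ∀ f ∈ 𝔞, φ f = 0 := by
      intro f hf
      exact hφW (Submodule.mem_sup_left hf)
    have hφω : ∀ q : MvPolynomial P k, n ≠ 0 → q.IsHomogeneous (n - 1) → φ (ω * q) = 0 := by
      intro q hn hq
      apply hφW
      apply Submodule.mem_sup_right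
      rw [if_neg hn]
      exact ⟨q, hq, rfl⟩
    set z : Finset P → k := fun F => if Ch F ∧ F.card = n then φ (mon k F) else 0 with hz
    have hzne : ∀ F, z F ≠ 0 → Ch F ∧ F.card = n := by
      intro F hF
      by_contra hcon
      exact hF (if_neg hcon)
    -- contraction of `z`
    have hbd : ∀ a : P → k, (∀ G : Finset P, Ch G → G.card + 1 = n → φ (ell a * mon k G) = 0) →
        bd a z = 0 := by
      intro a ha
      funext G
      by_contra hne
      obtain ⟨x, hx, _, hzx⟩ := bd_ne_zero hne
      obtain ⟨hch, hcard⟩ := hzne _ hzx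
      rw [Finset.card_insert_of_notMem hx] at hcard
      have hGch : Ch G := hch.mono (Finset.subset_insert _ _)
      apply hne
      have h2 := ha G hGch hcard
      rw [Pi.zero_apply, bd_apply, ← h2]
      unfold ell
      rw [Finset.sum_mul, map_sum, ← Finset.sum_subset (Finset.subset_univ Gᶜ)]
      · apply Finset.sum_congr rfl
        intro y hy
        rw [Finset.mem_compl] at hy
        rw [mul_assoc, ← MvPolynomial.smul_eq_C_mul, map_smul, smul_eq_mul, X_mul_mon hy]
        congr 1
        by_cases hc2 : Ch (insert y G)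
        · rw [hz]
          simp only
          rw [if_pos ⟨hc2, by rw [Finset.card_insert_of_notMem hy]; exact hcard⟩]
        · rw [hφ𝔞 _ (hA.mon_mem hc2), hz]
          simp only
          rw [if_neg fun h => hc2 h.1]
      · intro y _ hy
        rw [Finset.mem_compl, not_not] at hy
        rw [mul_assoc, ← MvPolynomial.smul_eq_C_mul, map_smul, hφ𝔞 _ (hA.X_mul_mon_mem hy),
          smul_zero]
    have hInR : InR n z := by
      refine ⟨hzne, fun l => hbd _ fun G _ _ => ?_⟩
      exact hφ𝔞 _ (𝔞.mul_mem_right _ (hA.th l))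
    have hcz : bd c z = 0 := by
      apply hbd
      intro G _ hcard
      rw [← hωe]
      apply hφω _ (by omega)
      unfold mon
      apply MvPolynomial.isHomogeneous_monomial
      rw [eF_degree]
      omega
    obtain ⟨w, hw, hwz⟩ := h z hInR hcz
    have hzero : Lam w (ω * p) = 0 :=
      Lam_zero h𝔞 w (fun F hF => (hw.supp F hF).1) hw.ker _ hwp
    rw [hωe, Lam_ell, hwz] at hzero
    apply hφp
    rw [← hzero]
    -- `φ p = ∑ coeff * z`
    have hmono : ∀ d : P →₀ ℕ, d.degree = n → φ (MvPolynomial.monomial d 1)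
        = ∑ G : Finset P, if eF G = d then z G else 0 := by
      intro d hd
      by_cases hex : ∃ G : Finset P, d = eF G
      · obtain ⟨G, rfl⟩ := hex
        rw [Finset.sum_eq_single G]
        · rw [if_pos rfl, hz]
          rw [eF_degree] at hd
          simp only
          by_cases hch : Ch G
          · rw [if_pos ⟨hch, hd⟩]; rfl
          · rw [if_neg fun h => hch h.1]
            exact hφ𝔞 _ (hA.mon_mem hch)
        · intro F _ hF
          rw [if_neg fun h => hF (eF_inj h)]
        · intro h; exact absurd (Finset.mem_univ _) h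
      · push Not at hex
        rw [hφ𝔞 _ (hA.monomial_mem hex)]
        symm
        apply Finset.sum_eq_zero
        intro G _
        rw [if_neg fun h => hex G h.symm]
    have h5 : φ p = ∑ d ∈ p.support, MvPolynomial.coeff d p * φ (MvPolynomial.monomial d 1) := by
      conv_lhs => rw [p.as_sum]
      rw [map_sum]
      apply Finset.sum_congr rfl
      intro d _
      rw [← smul_eq_mul, ← map_smul, MvPolynomial.smul_monomial, smul_eq_mul, mul_one]
    rw [h5]
    have h6 : ∀ d ∈ p.support, MvPolynomial.coeff d p * φ (MvPolynomial.monomial d 1)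
        = ∑ G : Finset P, if eF G = d then MvPolynomial.coeff d p * z G else 0 := by
      intro d hd
      have hdeg : d.degree = n := by
        by_contra hne
        exact MvPolynomial.mem_support_iff.1 hd (hp.coeff_eq_zero hne)
      rw [hmono d hdeg, Finset.mul_sum]
      apply Finset.sum_congr rfl
      intro G _
      split_ifs
      · rfl
      · rw [mul_zero]
    rw [Finset.sum_congr rfl h6, Finset.sum_comm]
    apply Finset.sum_congr rfl
    intro G _
    rw [Finset.sum_ite_eq]
    split_ifs with hG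
    · rfl
    · rw [MvPolynomial.notMem_support_iff.1 hG, zero_mul]

end Job


end J_bridge

end Pool.Agent.Helper236.CE
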