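import Pool.Agent.Helper236.CE.Basic

set_option autoImplicit false
set_option linter.unusedSectionVars false
set_option linter.style.longLine false

namespace Pool.Agent.Helper236.CE

open Finset


namespace J_conn_fc

section Job

variable {P : Type} [PartialOrder P] [Fintype P] [DecidableEq P] [BoundedOrder P] [GradeOrder ℕ P]



/-- hybrid of two sets -/
def hyb (M M' : Finset P) (D' : Finset ℕ) : Finset P :=
  M.filter (fun x => grade ℕ x ∉ D') ∪ M'.filter (fun x => grade ℕ x ∈ D')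

theorem mem_hyb {M M' : Finset P} {D' : Finset ℕ} {x : P} :
    x ∈ hyb M M' D' ↔ (x ∈ M ∧ grade ℕ x ∉ D') ∨ (x ∈ M' ∧ grade ℕ x ∈ D') := by
  simp [hyb]

theorem hyb_mem (p q : ℕ) (Q : Finset P) (M M' : Fc (Ioo p q) Q)
    (h : rs ((Ioo p q).filter (fun t => ¬ Even t)) M.1 =
      rs ((Ioo p q).filter (fun t => ¬ Even t)) M'.1)
    (D' : Finset ℕ) (hD' : D' ⊆ (Ioo p q).filter (fun t => Even t)) :
    Ch (hyb M.1 M'.1 D' ∪ Q) ∧ col (hyb M.1 M'.1 D') = Ioo p q := by
  obtain ⟨M, hM, hMc⟩ := M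
  obtain ⟨M', hM', hMc'⟩ := M'
  dsimp only at h ⊢
  have hgU : ∀ x ∈ M, grade ℕ x ∈ Ioo p q := fun x hx => by
    rw [← hMc, mem_col]; exact ⟨x, hx, rfl⟩
  have hgU' : ∀ x ∈ M', grade ℕ x ∈ Ioo p q := fun x hx => by
    rw [← hMc', mem_col]; exact ⟨x, hx, rfl⟩
  have hodd : ∀ x ∈ M, ¬ Even (grade ℕ x) → x ∈ M' := by
    intro x hx ho
    have : x ∈ rs ((Ioo p q).filter (fun t => ¬ Even t)) M :=
      mem_rs.2 ⟨hx, mem_filter.2 ⟨hgU x hx, ho⟩⟩
    rw [h] at this
    exact (mem_rs.1 this).1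
  -- comparison of an element of `M` with one of `M'`
  have hcmp : ∀ x ∈ M, ∀ x' ∈ M', grade ℕ x ∉ D' → grade ℕ x' ∈ D' → x ≤ x' ∨ x' ≤ x := by
    intro x hx x' hx' h1 h2
    have hx'e : Even (grade ℕ x') := (mem_filter.1 (hD' h2)).2
    by_cases hxe : Even (grade ℕ x)
    · have hne : grade ℕ x ≠ grade ℕ x' := by
        intro he; rw [he] at h1; exact h1 h2
      have hxU := mem_Ioo.1 (hgU x hx)
      have hxU' := mem_Ioo.1 (hgU' x' hx')
      obtain ⟨u, hu⟩ := hxe
      obtain ⟨v, hv⟩ := hx'e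
      rcases lt_or_gt_of_ne hne with hlt | hgt
      · left
        have ho : grade ℕ x' - 1 ∈ col M := by
          rw [hMc, mem_Ioo]; omega
        obtain ⟨y, hy, hyo⟩ := mem_col.1 ho
        have hyM' : y ∈ M' := hodd y hy (by
          rw [hyo]; rintro ⟨k, hk⟩; omega)
        have h3 : x < y := hM.lt (mem_union_left _ hx) (mem_union_left _ hy) (by omega)
        have h4 : y < x' := hM'.lt (mem_union_left _ hyM') (mem_union_left _ hx') (by omega)
        exact (h3.trans h4).le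
      · right
        have ho : grade ℕ x' + 1 ∈ col M := by
          rw [hMc, mem_Ioo]; omega
        obtain ⟨y, hy, hyo⟩ := mem_col.1 ho
        have hyM' : y ∈ M' := hodd y hy (by
          rw [hyo]; rintro ⟨k, hk⟩; omega)
        have h3 : y < x := hM.lt (mem_union_left _ hy) (mem_union_left _ hx) (by omega)
        have h4 : x' < y := hM'.lt (mem_union_left _ hx') (mem_union_left _ hyM') (by omega)
        exact (h4.trans h3).le
    · exact hM' x (mem_union_left _ (hodd x hx hxe)) x' (mem_union_left _ hx')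
  refine ⟨?_, ?_⟩
  · intro x hx y hy
    rw [mem_union, mem_hyb] at hx hy
    rcases hx with (⟨hx, hx2⟩ | ⟨hx, hx2⟩) | hx
    · rcases hy with (⟨hy, hy2⟩ | ⟨hy, hy2⟩) | hy
      · exact hM x (mem_union_left _ hx) y (mem_union_left _ hy)
      · exact hcmp x hx y hy hx2 hy2
      · exact hM x (mem_union_left _ hx) y (mem_union_right _ hy)
    · rcases hy with (⟨hy, hy2⟩ | ⟨hy, hy2⟩) | hy
      · exact (hcmp y hy x hx hy2 hx2).symm
      · exact hM' x (mem_union_left _ hx) y (mem_union_left _ hy)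
      · exact hM' x (mem_union_left _ hx) y (mem_union_right _ hy)
    · rcases hy with (⟨hy, hy2⟩ | ⟨hy, hy2⟩) | hy
      · exact hM x (mem_union_right _ hx) y (mem_union_left _ hy)
      · exact hM' x (mem_union_right _ hx) y (mem_union_left _ hy)
      · exact hM x (mem_union_right _ hx) y (mem_union_right _ hy)
  · ext t
    rw [mem_col]
    constructor
    · rintro ⟨x, hx, rfl⟩
      rw [mem_hyb] at hx
      rcases hx with ⟨hx, -⟩ | ⟨hx, -⟩
      · exact hgU x hx
      · exact hgU' x hx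
    · intro ht
      by_cases htD : t ∈ D'
      · have : t ∈ col M' := by rw [hMc']; exact ht
        obtain ⟨x, hx, rfl⟩ := mem_col.1 this
        exact ⟨x, mem_hyb.2 (Or.inr ⟨hx, htD⟩), rfl⟩
      · have : t ∈ col M := by rw [hMc]; exact ht
        obtain ⟨x, hx, rfl⟩ := mem_col.1 this
        exact ⟨x, mem_hyb.2 (Or.inl ⟨hx, htD⟩), rfl⟩

/-- TARGET -/
theorem conn_fc {K : Type} [Field K] (p q : ℕ) (hp : Even p) (hq : Even q) (Q : Finset P) :
    ∀ ζ : Fc (Ioo p q) Q → K,
      (∀ d ∈ (Ioo p q).filter (fun t => Even t), ζ ∈ CS K (Ioo p q) Q ((Ioo p q).erase d)) →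
      ζ ∈ CS K (Ioo p q) Q ((Ioo p q).filter (fun t => ¬ Even t)) := by
  intro ζ hζ
  rw [mem_CS_iff]
  intro M M' h
  have key : ∀ (D' : Finset ℕ) (hD' : D' ⊆ (Ioo p q).filter (fun t => Even t)),
      ζ ⟨hyb M.1 M'.1 D', hyb_mem p q Q M M' h D' hD'⟩ = ζ M := by
    intro D'
    induction D' using Finset.induction_on with
    | empty =>
      intro hD'
      congr 1
      apply Subtype.ext
      ext x
      simp [mem_hyb]
    | insert d D' hd ih =>
      intro hD'
      have hD1 : D' ⊆ (Ioo p q).filter (fun t => Even t) := (subset_insert _ _).trans hD'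
      rw [← ih hD1]
      have hdm : d ∈ (Ioo p q).filter (fun t => Even t) := hD' (mem_insert_self _ _)
      refine (mem_CS_iff.1 (hζ d hdm)) _ _ ?_
      ext x
      simp only [mem_rs, mem_hyb, mem_erase, mem_insert, not_or]
      tauto
  have h1 := key _ (subset_refl _)
  rw [← h1]
  congr 1
  apply Subtype.ext
  ext x
  have hgU : ∀ x ∈ M.1, grade ℕ x ∈ Ioo p q := fun x hx => by
    rw [← M.2.2, mem_col]; exact ⟨x, hx, rfl⟩
  have hgU' : ∀ x ∈ M'.1, grade ℕ x ∈ Ioo p q := fun x hx => by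
    rw [← M'.2.2, mem_col]; exact ⟨x, hx, rfl⟩
  have hx1 : x ∈ rs ((Ioo p q).filter (fun t => ¬ Even t)) M.1 ↔
      x ∈ rs ((Ioo p q).filter (fun t => ¬ Even t)) M'.1 := by rw [h]
  simp only [mem_rs, mem_filter] at hx1
  simp only [mem_hyb, mem_filter]
  have a1 := hgU x
  have a2 := hgU' x
  tauto

end Job


end J_conn_fc

end Pool.Agent.Helper236.CE
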