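import Pool.Agent.Helper236.CE.Basic

set_option autoImplicit false
set_option linter.unusedSectionVars false
set_option linter.style.longLine false

namespace Pool.Agent.Helper236.CE

open Finset


namespace J_extend_fc

section Job

variable {P : Type} [PartialOrder P] [Fintype P] [DecidableEq P] [BoundedOrder P] [GradeOrder ℕ P]

theorem extend_one (M : Finset P) (hM : Ch M) (v : ℕ)
    (h0 : grade ℕ (⊥ : P) = 0) (hv : v ≤ grade ℕ (⊤ : P)) :
    ∃ M' : Finset P, M ⊆ M' ∧ Ch M' ∧ col M' = insert v (col M) := by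
  classical
  by_cases hvM : v ∈ col M
  · exact ⟨M, Subset.refl _, hM, (insert_eq_of_mem hvM).symm⟩
  suffices h : ∃ x : P, grade ℕ x = v ∧ ∀ y ∈ M, x ≤ y ∨ y ≤ x by
    obtain ⟨x, hx, hy⟩ := h
    refine ⟨insert x M, subset_insert _ _, ?_, by rw [col_insert, hx]⟩
    intro a ha b hb
    rw [mem_insert] at ha hb
    rcases ha with rfl | ha
    · rcases hb with rfl | hb
      · exact Or.inl le_rfl
      · exact hy b hb
    · rcases hb with rfl | hb
      · exact (hy a ha).symm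
      · exact hM a ha b hb
  rcases Nat.eq_zero_or_pos v with hv0 | hv0
  · exact ⟨⊥, by rw [h0, hv0], fun y _ => Or.inl bot_le⟩
  rcases hv.eq_or_lt with hvt | hvt
  · exact ⟨⊤, hvt.symm, fun y _ => Or.inr le_top⟩
  have hM0 : Ch (insert ⊤ (insert ⊥ M)) := by
    intro a ha b hb
    simp only [mem_insert] at ha hb
    rcases ha with rfl | rfl | ha
    · exact Or.inr le_top
    · exact Or.inl bot_le
    · rcases hb with rfl | rfl | hb
      · exact Or.inl le_top
      · exact Or.inr bot_le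
      · exact hM a ha b hb
  obtain ⟨a, ha, hamax⟩ := Finset.exists_max_image
    ((insert ⊤ (insert ⊥ M)).filter (fun x => grade ℕ x < v)) (fun x => grade ℕ x)
    ⟨⊥, by simp [h0, hv0]⟩
  obtain ⟨b, hb, hbmin⟩ := Finset.exists_min_image
    ((insert ⊤ (insert ⊥ M)).filter (fun x => v < grade ℕ x)) (fun x => grade ℕ x)
    ⟨⊤, by simp [hvt]⟩
  rw [mem_filter] at ha hb
  have hab : a < b := hM0.lt ha.1 hb.1 (ha.2.trans hb.2)
  obtain ⟨x, hx, hxmax⟩ := Finset.exists_max_image
    ((Finset.univ : Finset P).filter (fun x => a ≤ x ∧ x ≤ b ∧ grade ℕ x ≤ v))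
    (fun x => grade ℕ x)
    ⟨a, by simp [hab.le, ha.2.le]⟩
  rw [mem_filter] at hx
  obtain ⟨-, hax, hxb, hxv⟩ := hx
  have hxeq : grade ℕ x = v := by
    by_contra hne
    have hlt : grade ℕ x < v := lt_of_le_of_ne hxv hne
    have hxb' : x < b := by
      refine lt_of_le_of_ne hxb ?_
      rintro rfl
      exact absurd hb.2 (by omega)
    obtain ⟨c, hc, hcb⟩ := exists_covBy_le_of_lt hxb'
    have hg := CovBy.grade ℕ hc
    rw [Nat.covBy_iff_add_one_eq] at hg
    have := hxmax c (by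
      rw [mem_filter]
      exact ⟨mem_univ _, hax.trans hc.le, hcb, by omega⟩)
    omega
  refine ⟨x, hxeq, fun y hy => ?_⟩
  have hy0 : y ∈ insert ⊤ (insert ⊥ M) := mem_insert_of_mem (mem_insert_of_mem hy)
  rcases lt_trichotomy (grade ℕ y) v with h | h | h
  · right
    have h1 := hamax y (by rw [mem_filter]; exact ⟨hy0, h⟩)
    rcases h1.eq_or_lt with h2 | h2
    · rw [hM0.inj hy0 ha.1 h2]; exact hax
    · exact (hM0.lt hy0 ha.1 h2).le.trans hax
  · exact absurd (mem_col.2 ⟨y, hy, h⟩) hvM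
  · left
    have h1 := hbmin y (by rw [mem_filter]; exact ⟨hy0, h⟩)
    rcases h1.eq_or_lt with h2 | h2
    · rw [← hM0.inj hb.1 hy0 h2]; exact hxb
    · exact hxb.trans (hM0.lt hb.1 hy0 h2).le

/-- TARGET (also) -/
theorem extend_chain (F : Finset P) (hF : Ch F) (V : Finset ℕ)
    (h0 : grade ℕ (⊥ : P) = 0) (hV : ∀ v ∈ V, v ≤ grade ℕ (⊤ : P)) :
    ∃ M : Finset P, F ⊆ M ∧ Ch M ∧ col M = col F ∪ V := by
  induction V using Finset.induction_on with
  | empty => exact ⟨F, Subset.refl _, hF, by simp⟩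
  | insert v V hv ih =>
    obtain ⟨M, hFM, hM, hc⟩ := ih (fun w hw => hV w (mem_insert_of_mem hw))
    obtain ⟨M', hMM', hM', hc'⟩ := extend_one M hM v h0 (hV v (mem_insert_self _ _))
    refine ⟨M', hFM.trans hMM', hM', ?_⟩
    rw [hc', hc, union_insert]


/-- TARGET -/
theorem extend_fc (U : Finset ℕ) (Q : Finset P) (hd : Disjoint U (col Q))
    (h0 : grade ℕ (⊥ : P) = 0) (hU : ∀ v ∈ U, v ≤ grade ℕ (⊤ : P)) :
    ∀ S ⊆ U, ∀ F : Finset P, Ch (F ∪ Q) → col F = S → ∃ M : Fc U Q, rs S M.1 = F := by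
  intro S hS F hF hFS
  obtain ⟨M', hFM, hM', hc⟩ := extend_chain (F ∪ Q) hF U h0 hU
  refine ⟨⟨rs U M', ?_, ?_⟩, ?_⟩
  · refine hM'.mono ?_
    exact union_subset (rs_subset _ _) (subset_union_right.trans hFM)
  · rw [col_rs, hc, col_union, hFS]
    ext t
    simp only [mem_inter, mem_union]
    tauto
  · show rs S (rs U M') = F
    rw [rs_rs_of_subset hS]
    ext x
    rw [mem_rs]
    constructor
    · rintro ⟨hx, hxS⟩
      rw [← hFS, mem_col] at hxS
      obtain ⟨y, hy, hyx⟩ := hxS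
      have := hM'.inj (hFM (mem_union_left _ hy)) hx hyx
      rw [← this]; exact hy
    · intro hx
      refine ⟨hFM (mem_union_left _ hx), ?_⟩
      rw [← hFS]
      exact mem_col.2 ⟨x, hx, rfl⟩

end Job


end J_extend_fc

end Pool.Agent.Helper236.CE
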