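import Pool.Agent.Helper236.CE.Basic

set_option autoImplicit false
set_option linter.unusedSectionVars false
set_option linter.style.longLine false

namespace Pool.Agent.Helper236.CE

open Finset


namespace J_filt

section Job

variable {P : Type} [PartialOrder P] [Fintype P] [DecidableEq P] [BoundedOrder P] [GradeOrder ℕ P]


/-- even colours -/
def ev (F : Finset P) : Finset ℕ := (col F).filter (fun t => Even t)

theorem ev_insert (x : P) (F : Finset P) :
    ev (insert x F) = (insert (grade ℕ x) (col F)).filter (fun t => Even t) := by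
  rw [ev, col_insert]

theorem ev_insert_odd {x : P} (hx : ¬ Even (grade ℕ x)) (F : Finset P) : ev (insert x F) = ev F := by
  rw [ev_insert, Finset.filter_insert, if_neg hx, ev]

theorem ev_insert_card {x : P} {F : Finset P} (hx : Even (grade ℕ x)) (hxF : x ∉ F)
    (hc : Ch (insert x F)) : (ev (insert x F)).card = (ev F).card + 1 := by
  rw [ev_insert, Finset.filter_insert, if_pos hx, Finset.card_insert_of_notMem, ev]
  intro h
  rw [Finset.mem_filter, mem_col] at h
  obtain ⟨⟨y, hy, hyx⟩, _⟩ := h
  have := hc.inj (mem_insert_of_mem hy) (mem_insert_self x F) hyx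
  subst this
  exact hxF hy

theorem z_zero_of_unique {K : Type} [Field K] {n : ℕ} {z : Finset P → K} (hz : InR n z)
    {F : Finset P} {e : P} (he : e ∈ F) (hu : ∀ y : P, grade ℕ y = grade ℕ e → y = e) :
    z F = 0 := by
  have h1 := congrFun (hz.ker (grade ℕ e)) (F.erase e)
  rw [bd_apply, Pi.zero_apply] at h1
  rw [Finset.sum_eq_single e] at h1
  · rw [th, if_pos rfl, one_mul, insert_erase he] at h1
    exact h1
  · intro y _ hye
    rw [th, if_neg (fun h => hye (hu y h)), zero_mul]
  · intro h
    exact absurd (by simp) h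

theorem col_sub {K : Type} [Field K] (m : ℕ) (h0 : grade ℕ (⊥ : P) = 0)
    (h1 : grade ℕ (⊤ : P) = 2 * m + 1) {n : ℕ} {z : Finset P → K} (hz : InR n z)
    {F : Finset P} (hF : z F ≠ 0) : col F ⊆ Icc 1 (2 * m) := by
  intro t ht
  rw [mem_col] at ht
  obtain ⟨x, hx, rfl⟩ := ht
  rw [mem_Icc]
  constructor
  · by_contra hc
    have hx0 : grade ℕ x = 0 := by omega
    have hxb : ∀ y : P, grade ℕ y = 0 → y = ⊥ := by
      intro y hy
      by_contra hne
      have := grade_strictMono (𝕆 := ℕ) (bot_lt_iff_ne_bot.2 hne)
      omega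
    apply hF
    apply z_zero_of_unique hz hx
    intro y hy
    rw [hxb y (by omega), hxb x hx0]
  · by_contra hc
    have hle : grade ℕ x ≤ grade ℕ (⊤ : P) := grade_mono (𝕆 := ℕ) le_top
    have hx1 : grade ℕ x = 2 * m + 1 := by omega
    have hxt : ∀ y : P, grade ℕ y = 2 * m + 1 → y = ⊤ := by
      intro y hy
      by_contra hne
      have := grade_strictMono (𝕆 := ℕ) (lt_top_iff_ne_top.2 hne)
      omega
    apply hF
    apply z_zero_of_unique hz hx
    intro y hy
    rw [hxt y (by omega), hxt x hx1]

theorem ev_sub {K : Type} [Field K] (m : ℕ) (h0 : grade ℕ (⊥ : P) = 0)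
    (h1 : grade ℕ (⊤ : P) = 2 * m + 1) {n : ℕ} {z : Finset P → K} (hz : InR n z)
    {F : Finset P} (hF : z F ≠ 0) : ev F ⊆ D0 m :=
  Finset.filter_subset_filter _ (col_sub m h0 h1 hz hF)

theorem _root_.Pool.Agent.Helper236.CE.InR.add {K : Type} [Field K] {n : ℕ} {z w : Finset P → K} (hz : InR n z) (hw : InR n w) :
    InR n (z + w) := by
  constructor
  · intro F hF
    by_cases h : z F = 0
    · apply hw.supp
      intro h'
      apply hF
      rw [Pi.add_apply, h, h', add_zero]
    · exact hz.supp F h
  · intro l
    rw [bd_add, hz.ker, hw.ker, add_zero]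

/-- even part of the weights -/
def evn {K : Type} [Field K] (c : P → K) (x : P) : K := if Even (grade ℕ x) then c x else 0

theorem od_add_evn {K : Type} [Field K] (c : P → K) : od c + evn c = c := by
  funext x
  rw [Pi.add_apply, od, evn]
  split_ifs <;> simp

/-- the part of `z` with even colours `A` -/
def prt {K : Type} [Field K] (z : Finset P → K) (A : Finset ℕ) (F : Finset P) : K :=
  if ev F = A then z F else 0

theorem filt_aux {K : Type} [Field K] [CharP K 2] (m : ℕ) (h0 : grade ℕ (⊥ : P) = 0)
    (h1 : grade ℕ (⊤ : P) = 2 * m + 1) (c : P → K) (n : ℕ)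
    (hex : ∀ A ⊆ D0 m, EX m c ∅ A n) (t : ℕ) :
    ∀ z : Finset P → K, InR n z → bd c z = 0 → (∀ F, z F ≠ 0 → (ev F).card < t) →
      ∃ w : Finset P → K, InR (n + 1) w ∧ bd c w = z := by
  induction t with
  | zero =>
    intro z hz _ hlt
    have hz0 : z = 0 := by
      funext F
      by_contra hne
      exact absurd (hlt F hne) (Nat.not_lt_zero _)
    refine ⟨0, ⟨fun F hF => absurd rfl hF, fun l => bd_zero _⟩, ?_⟩
    rw [bd_zero, hz0]
  | succ t ih =>
    intro z hz hcyc hlt
    have hevz : ∀ F, bd (evn c) z F ≠ 0 → (ev F).card < t := by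
      intro F hF
      obtain ⟨x, hxF, hx, hzx⟩ := bd_ne_zero hF
      have hxe : Even (grade ℕ x) := by
        by_contra hc
        exact hx (if_neg hc)
      have hch := (hz.supp _ hzx).1
      have := hlt _ hzx
      rw [ev_insert_card hxe hxF hch] at this
      omega
    have hZ : ∀ A ⊆ D0 m, A.card = t → InZ m ∅ A n (prt z A) ∧ bd (od c) (prt z A) = 0 := by
      intro A hA hAt
      refine ⟨⟨?_, ?_⟩, ?_⟩
      · intro F hF
        rw [prt] at hF
        have he : ev F = A := by
          by_contra hne
          rw [if_neg hne] at hF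
          exact hF rfl
        rw [if_pos he] at hF
        exact ⟨(hz.supp F hF).1, (hz.supp F hF).2, col_sub m h0 h1 hz hF, he⟩
      · intro l _
        funext F
        have h2 := congrFun (hz.ker l) F
        rw [Pi.zero_apply] at h2 ⊢
        rw [bd_apply] at h2 ⊢
        by_cases hA' : (insert l (col F)).filter (fun t => Even t) = A
        · rw [← h2]
          refine sum_congr rfl (fun x _ => ?_)
          by_cases hxl : grade ℕ x = l
          · rw [prt, ev_insert, hxl, if_pos hA']
          · rw [th, if_neg hxl, zero_mul, zero_mul]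
        · apply sum_eq_zero
          intro x _
          by_cases hxl : grade ℕ x = l
          · rw [prt, ev_insert, hxl, if_neg hA', mul_zero]
          · rw [th, if_neg hxl, zero_mul]
      · funext F
        rw [Pi.zero_apply, bd_apply]
        by_cases he : ev F = A
        · have h3 : bd (evn c) z F = 0 := by
            by_contra hne
            have := hevz F hne
            rw [he] at this
            omega
          have h4 := congrFun hcyc F
          rw [← od_add_evn c, bd_add_left, Pi.add_apply, h3, add_zero, Pi.zero_apply,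
            bd_apply] at h4
          rw [← h4]
          refine sum_congr rfl (fun x _ => ?_)
          by_cases hx : Even (grade ℕ x)
          · rw [od, if_pos hx, zero_mul, zero_mul]
          · rw [prt, ev_insert_odd hx, if_pos he]
        · apply sum_eq_zero
          intro x _
          by_cases hx : Even (grade ℕ x)
          · rw [od, if_pos hx, zero_mul]
          · rw [prt, ev_insert_odd hx, if_neg he, mul_zero]
    have hW : ∀ A ∈ (D0 m).powersetCard t, ∃ w : Finset P → K,
        InZ m ∅ A (n + 1) w ∧ bd (od c) w = prt z A := by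
      intro A hA
      rw [mem_powersetCard] at hA
      obtain ⟨i1, i2⟩ := hZ A hA.1 hA.2
      exact hex A hA.1 _ i1 i2
    choose! W hW1 hW2 using hW
    set w1 : Finset P → K := ∑ A ∈ (D0 m).powersetCard t, W A with hw1
    have hw1ne : ∀ F, w1 F ≠ 0 → ∃ A ∈ (D0 m).powersetCard t, W A F ≠ 0 := by
      intro F hF
      rw [hw1, Finset.sum_apply] at hF
      exact exists_ne_zero_of_sum_ne_zero hF
    have hR1 : InR (n + 1) w1 := by
      constructor
      · intro F hF
        obtain ⟨A, hA, hne⟩ := hw1ne F hF
        have := (hW1 A hA).supp F hne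
        exact ⟨this.1, this.2.1⟩
      · intro l
        rw [hw1, bd_sum]
        exact sum_eq_zero fun A hA => (hW1 A hA).ker l (notMem_empty l)
    have hRz1 : InR n (z - bd c w1) := by
      constructor
      · intro F hF
        by_cases h : z F = 0
        · rw [Pi.sub_apply, h, zero_sub, neg_ne_zero] at hF
          obtain ⟨x, hxF, _, hx⟩ := bd_ne_zero hF
          obtain ⟨hc1, hc2⟩ := hR1.supp _ hx
          refine ⟨hc1.mono (subset_insert x F), ?_⟩
          rw [card_insert_of_notMem hxF] at hc2
          omega
        · exact hz.supp F h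
      · intro l
        rw [bd_sub, hz.ker, bd_comm, hR1.ker, bd_zero, sub_zero]
    have hcz1 : bd c (z - bd c w1) = 0 := by
      rw [bd_sub, hcyc, bd_self, sub_zero]
    have hlt1 : ∀ F, (z - bd c w1) F ≠ 0 → (ev F).card < t := by
      intro F hF
      by_contra hge
      push Not at hge
      apply hF
      have e1 : bd (evn c) w1 F = 0 := by
        by_contra hne
        obtain ⟨x, hxF, hx, hwx⟩ := bd_ne_zero hne
        have hxe : Even (grade ℕ x) := by
          by_contra hc
          exact hx (if_neg hc)
        obtain ⟨A, hA, hne'⟩ := hw1ne _ hwx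
        have hs := (hW1 A hA).supp _ hne'
        have hc2 : ev (insert x F) = A := hs.2.2.2
        have hc3 := ev_insert_card hxe hxF hs.1
        rw [mem_powersetCard] at hA
        rw [hc2, hA.2] at hc3
        omega
      have e2 : bd (od c) w1 F = z F := by
        rw [hw1, bd_sum, Finset.sum_apply]
        rw [sum_congr rfl (fun A hA => congrFun (hW2 A hA) F)]
        by_cases hzF : z F = 0
        · rw [hzF]
          apply sum_eq_zero
          intro A _
          rw [prt, hzF, ite_self]
        · have hlt' := hlt F hzF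
          rw [sum_eq_single (ev F)]
          · rw [prt, if_pos rfl]
          · intro A _ hAne
            rw [prt, if_neg (Ne.symm hAne)]
          · intro hno
            exfalso
            apply hno
            rw [mem_powersetCard]
            exact ⟨ev_sub m h0 h1 hz hzF, by omega⟩
      rw [Pi.sub_apply]
      have e3 : bd c w1 F = bd (od c) w1 F + bd (evn c) w1 F := by
        conv_lhs => rw [← od_add_evn c, bd_add_left, Pi.add_apply]
      rw [e3, e1, e2, add_zero, sub_self]
    obtain ⟨w2, hw2, hw2'⟩ := ih _ hRz1 hcz1 hlt1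
    refine ⟨w1 + w2, hR1.add hw2, ?_⟩
    rw [bd_add, hw2', add_sub_cancel]

/-- TARGET -/
theorem filt {K : Type} [Field K] [CharP K 2] (m : ℕ) (h0 : grade ℕ (⊥ : P) = 0)
    (h1 : grade ℕ (⊤ : P) = 2 * m + 1) (c : P → K) (n : ℕ)
    (hex : ∀ A ⊆ D0 m, EX m c ∅ A n) (z : Finset P → K) (hz : InR n z) (hcyc : bd c z = 0) :
    ∃ w : Finset P → K, InR (n + 1) w ∧ bd c w = z := by
  apply filt_aux m h0 h1 c n hex ((D0 m).card + 1) z hz hcyc
  intro F hF
  have := card_le_card (ev_sub m h0 h1 hz hF)
  omega

end Job


end J_filt

end Pool.Agent.Helper236.CE
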