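import Pool.Agent.Helper236.CE.Basic

set_option autoImplicit false
set_option linter.unusedSectionVars false
set_option linter.style.longLine false

namespace Pool.Agent.Helper236.CE

open Finset


namespace J_gdl

section Job

variable {P : Type} [PartialOrder P] [Fintype P] [DecidableEq P] [BoundedOrder P] [GradeOrder ℕ P]



/-- pushforward of a function on facets -/
noncomputable def push {K : Type} [Field K] {U : Finset ℕ} {Q : Finset P} (A : Finset ℕ)
    (ζ : Fc U Q → K) (F : Finset P) : K := ∑ M : Fc U Q, if rs A M.1 = F then ζ M else 0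

theorem push_supp {K : Type} [Field K] {U : Finset ℕ} {Q : Finset P} {A : Finset ℕ} (hA : A ⊆ U)
    (ζ : Fc U Q → K) (F : Finset P) (h : push A ζ F ≠ 0) : Ch (F ∪ Q) ∧ col F = A := by
  obtain ⟨M, -, hM⟩ := exists_ne_zero_of_sum_ne_zero h
  have h1 : rs A M.1 = F := by
    by_contra hne
    exact hM (if_neg hne)
  subst h1
  refine ⟨M.2.1.mono (union_subset_union_left (rs_subset _ _)), ?_⟩
  rw [col_rs, M.2.2]
  exact inter_eq_right.2 hA

theorem exists_x0 {U : Finset ℕ} {Q : Finset P} {l : ℕ} (hl : l ∈ U) (M : Fc U Q) :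
    ∃ x0 : P, x0 ∈ M.1 ∧ grade ℕ x0 = l ∧ ∀ x ∈ M.1, grade ℕ x = l → x = x0 := by
  have h1 : l ∈ col M.1 := by rw [M.2.2]; exact hl
  obtain ⟨x0, h2, h3⟩ := mem_col.1 h1
  refine ⟨x0, h2, h3, fun x hx hxl => ?_⟩
  exact (M.2.1.mono subset_union_left).inj hx h2 (by rw [hxl, h3])

theorem cj_eq {K : Type} [Field K] {U : Finset ℕ} {Q : Finset P} {l : ℕ} (a : P → K) (M : Fc U Q)
    (x0 : P) (h1 : x0 ∈ M.1) (h2 : grade ℕ x0 = l) (h3 : ∀ x ∈ M.1, grade ℕ x = l → x = x0) :
    cj a U Q l M = a x0 := by
  have : rs {l} M.1 = {x0} := by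
    ext y
    rw [mem_rs, mem_singleton, mem_singleton]
    constructor
    · rintro ⟨hy, hyl⟩; exact h3 y hy hyl
    · rintro rfl; exact ⟨h1, h2⟩
  rw [cj, this, sum_singleton]

theorem bd_push {K : Type} [Field K] {U : Finset ℕ} {Q : Finset P} {A : Finset ℕ} (hA : A ⊆ U)
    {l : ℕ} (hl : l ∈ A) (a : P → K) (ζ : Fc U Q → K) :
    bd (wt a {l}) (push A ζ) = push (A.erase l) (cj a U Q l * ζ) := by
  funext G
  rw [bd_apply]
  simp only [push, mul_sum]
  rw [sum_comm]
  refine sum_congr rfl (fun M _ => ?_)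
  obtain ⟨x0, h1, h2, h3⟩ := exists_x0 (hA hl) M
  rw [Pi.mul_apply, cj_eq a M x0 h1 h2 h3]
  by_cases hG : rs (A.erase l) M.1 = G
  · rw [if_pos hG]
    have hx0G : x0 ∉ G := by
      rw [← hG, mem_rs]
      rintro ⟨-, h⟩
      rw [h2] at h
      exact absurd rfl (mem_erase.1 h).1
    have hins : rs A M.1 = insert x0 G := by
      rw [← hG]
      ext y
      rw [mem_insert, mem_rs, mem_rs, mem_erase]
      constructor
      · rintro ⟨hy, hyA⟩
        by_cases hyl : grade ℕ y = l
        · exact Or.inl (h3 y hy hyl)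
        · exact Or.inr ⟨hy, hyl, hyA⟩
      · rintro (rfl | ⟨hy, hyl, hyA⟩)
        · exact ⟨h1, by rw [h2]; exact hl⟩
        · exact ⟨hy, hyA⟩
    rw [sum_eq_single x0]
    · rw [if_pos hins, wt, if_pos (by rw [h2]; exact mem_singleton_self l)]
    · intro x hx hne
      by_cases hxl : grade ℕ x = l
      · rw [if_neg, mul_zero]
        intro he
        have hxM : x ∈ rs A M.1 := by rw [he]; exact mem_insert_self _ _
        exact hne (h3 x (mem_rs.1 hxM).1 hxl)
      · rw [wt, if_neg (by rw [mem_singleton]; exact hxl), zero_mul]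
    · intro h
      exact absurd (mem_compl.2 hx0G) h
  · rw [if_neg hG]
    apply sum_eq_zero
    intro x hx
    rw [mem_compl] at hx
    by_cases hxl : grade ℕ x = l
    · rw [if_neg, mul_zero]
      intro he
      apply hG
      have hxM : x ∈ rs A M.1 := by rw [he]; exact mem_insert_self _ _
      have hx0 : x = x0 := h3 x (mem_rs.1 hxM).1 hxl
      ext y
      rw [mem_rs, mem_erase]
      constructor
      · rintro ⟨hy, hyl, hyA⟩
        have : y ∈ rs A M.1 := mem_rs.2 ⟨hy, hyA⟩
        rw [he, mem_insert] at this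
        rcases this with rfl | h
        · exact absurd hxl hyl
        · exact h
      · intro hy
        have : y ∈ rs A M.1 := by rw [he]; exact mem_insert_of_mem hy
        rw [mem_rs] at this
        refine ⟨this.1, ?_, this.2⟩
        intro hyl
        have h4 := h3 y this.1 hyl
        rw [h4, ← hx0] at hy
        exact hx hy
    · rw [wt, if_neg (by rw [mem_singleton]; exact hxl), zero_mul]

theorem th_eq {K : Type} [Field K] (l : ℕ) : (th K l : P → K) = wt (fun _ => 1) {l} := by
  funext x
  rw [th, wt]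
  by_cases h : grade ℕ x = l
  · rw [if_pos h, if_pos (mem_singleton.2 h)]
  · rw [if_neg h, if_neg (fun h' => h (mem_singleton.1 h'))]

theorem bd_th_push {K : Type} [Field K] {U : Finset ℕ} {Q : Finset P} {A : Finset ℕ} (hA : A ⊆ U)
    {l : ℕ} (hl : l ∈ A) (ζ : Fc U Q → K) :
    bd (th K l) (push A ζ) = push (A.erase l) ζ := by
  rw [th_eq, bd_push hA hl]
  congr 1
  funext M
  obtain ⟨x0, h1, h2, h3⟩ := exists_x0 (hA hl) M
  rw [Pi.mul_apply, cj_eq _ M x0 h1 h2 h3, one_mul]

theorem sum_erase_insert {K : Type} [Field K] (l : ℕ) (h z : Finset P → K) (S : Finset ℕ)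
    (hl : l ∈ S) (Q : Finset P) (hz : ∀ F, z F ≠ 0 → Ch (F ∪ Q) ∧ col F = S) :
    ∑ F, h (rs (S.erase l) F) * z F = ∑ G, h G * bd (th K l) z G := by
  classical
  have h1 : ∀ F : Finset P, h (rs (S.erase l) F) * z F =
      ∑ x : P, if x ∈ F ∧ grade ℕ x = l then h (F.erase x) * z F else 0 := by
    intro F
    by_cases hF : z F = 0
    · rw [hF, mul_zero]
      symm
      apply sum_eq_zero
      intro x _
      split_ifs
      · rw [mul_zero]
      · rfl
    · obtain ⟨hch, hcol⟩ := hz F hF
      have hchF : Ch F := hch.mono subset_union_left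
      obtain ⟨x0, hx0, hx0l⟩ := mem_col.1 (show l ∈ col F by rw [hcol]; exact hl)
      rw [sum_eq_single x0]
      · rw [if_pos ⟨hx0, hx0l⟩]
        congr 2
        ext y
        rw [mem_rs, mem_erase, mem_erase]
        constructor
        · rintro ⟨hy, hyl, -⟩
          refine ⟨?_, hy⟩
          rintro rfl
          exact hyl hx0l
        · rintro ⟨hne, hy⟩
          refine ⟨hy, ?_, ?_⟩
          · intro hyl
            exact hne (hchF.inj hy hx0 (by rw [hyl, hx0l]))
          · rw [← hcol]
            exact mem_col.2 ⟨y, hy, rfl⟩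
      · intro x _ hne
        rw [if_neg]
        rintro ⟨hx, hxl⟩
        exact hne (hchF.inj hx hx0 (by rw [hxl, hx0l]))
      · intro h
        exact absurd (mem_univ _) h
  have h2 : ∀ G : Finset P, h G * bd (th K l) z G =
      ∑ x : P, if x ∉ G ∧ grade ℕ x = l then h G * z (insert x G) else 0 := by
    intro G
    rw [bd_apply, mul_sum, ← sum_filter_add_sum_filter_not univ (fun x => x ∈ G)
      (fun x => if x ∉ G ∧ grade ℕ x = l then h G * z (insert x G) else 0)]
    rw [show (∑ x ∈ univ.filter (fun x => x ∈ G),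
      if x ∉ G ∧ grade ℕ x = l then h G * z (insert x G) else 0) = 0 from
      sum_eq_zero (fun x hx => if_neg (fun h' => h'.1 (mem_filter.1 hx).2)), zero_add]
    have h3 : univ.filter (fun x => ¬ x ∈ G) = Gᶜ := by
      ext x; simp
    rw [h3]
    refine sum_congr rfl (fun x hx => ?_)
    rw [mem_compl] at hx
    by_cases hxl : grade ℕ x = l
    · rw [if_pos ⟨hx, hxl⟩, th, if_pos hxl, one_mul]
    · rw [if_neg (fun h' => hxl h'.2), th, if_neg hxl, zero_mul, mul_zero]
  rw [sum_congr rfl (fun F _ => h1 F), sum_congr rfl (fun G _ => h2 G), sum_comm,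
    sum_comm (s := univ) (t := univ) (f := fun (G : Finset P) (x : P) =>
      if x ∉ G ∧ grade ℕ x = l then h G * z (insert x G) else 0)]
  refine sum_congr rfl (fun x _ => ?_)
  by_cases hxl : grade ℕ x = l
  · have h4 : ∑ F : Finset P, (if x ∈ F ∧ grade ℕ x = l then h (F.erase x) * z F else 0) =
        ∑ F ∈ univ.filter (fun F : Finset P => x ∈ F), h (F.erase x) * z F := by
      rw [sum_filter]
      refine sum_congr rfl (fun F _ => ?_)
      by_cases hx : x ∈ F
      · rw [if_pos ⟨hx, hxl⟩, if_pos hx]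
      · rw [if_neg (fun h' => hx h'.1), if_neg hx]
    have h5 : ∑ G : Finset P, (if x ∉ G ∧ grade ℕ x = l then h G * z (insert x G) else 0) =
        ∑ G ∈ univ.filter (fun G : Finset P => x ∉ G), h G * z (insert x G) := by
      rw [sum_filter]
      refine sum_congr rfl (fun G _ => ?_)
      by_cases hx : x ∈ G
      · rw [if_neg (fun h' => h'.1 hx), if_neg (fun h' => h' hx)]
      · rw [if_pos ⟨hx, hxl⟩, if_pos hx]
    rw [h4, h5]
    refine sum_bij' (fun F _ => F.erase x) (fun G _ => insert x G) ?_ ?_ ?_ ?_ ?_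
    · intro F hF
      rw [mem_filter] at hF ⊢
      exact ⟨mem_univ _, notMem_erase _ _⟩
    · intro G hG
      rw [mem_filter] at hG ⊢
      exact ⟨mem_univ _, mem_insert_self _ _⟩
    · intro F hF
      rw [mem_filter] at hF
      exact insert_erase hF.2
    · intro G hG
      rw [mem_filter] at hG
      exact erase_insert hG.2
    · intro F hF
      rw [mem_filter] at hF
      rw [insert_erase hF.2]
  · rw [sum_eq_zero, sum_eq_zero]
    · intro G _
      exact if_neg (fun h' => hxl h'.2)
    · intro F _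
      exact if_neg (fun h' => hxl h'.2)

/-- TARGET -/
theorem gdl {K : Type} [Field K] (U : Finset ℕ) (Q : Finset P)
    (hext : ∀ S ⊆ U, ∀ F : Finset P, Ch (F ∪ Q) → col F = S → ∃ M : Fc U Q, rs S M.1 = F)
    (S : Finset ℕ) (hS : S ⊆ U) (T : Finset ℕ) (hT : T ⊆ S) (J : Finset ℕ) (hJ : J ⊆ U)
    (hJS : Disjoint J S)
    (T' : ℕ → Finset ℕ) (hT' : ∀ j ∈ J, T' j ⊆ insert j S) (a : P → K)
    (hyp : ∀ u ∈ CS K U Q S, (∀ j ∈ J, cj a U Q j * u ∈ Bd (CS K U Q) (T' j) (insert j S)) →
      u ∈ Bd (CS K U Q) T S)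
    (z : Finset P → K) (hz : ∀ F, z F ≠ 0 → Ch (F ∪ Q) ∧ col F = S)
    (hzT : ∀ l ∈ T, bd (th K l) z = 0) :
    ∃ w : ℕ → Finset P → K,
      (∀ j ∈ J, ∀ F, w j F ≠ 0 → Ch (F ∪ Q) ∧ col F = insert j S) ∧
      (∀ j ∈ J, ∀ l ∈ T' j, bd (th K l) (w j) = 0) ∧ ∑ j ∈ J, bd (wt a {j}) (w j) = z := by
  classical
  let L : Submodule K (Finset P → K) :=
    { carrier := {y | ∃ w : ℕ → Finset P → K,
        (∀ j ∈ J, ∀ F, w j F ≠ 0 → Ch (F ∪ Q) ∧ col F = insert j S) ∧
        (∀ j ∈ J, ∀ l ∈ T' j, bd (th K l) (w j) = 0) ∧ ∑ j ∈ J, bd (wt a {j}) (w j) = y}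
      add_mem' := by
        rintro y1 y2 ⟨w1, h1, h2, h3⟩ ⟨w2, h4, h5, h6⟩
        refine ⟨fun j => w1 j + w2 j, ?_, ?_, ?_⟩
        · intro j hj F hF
          by_cases h7 : w1 j F = 0
          · by_cases h8 : w2 j F = 0
            · exfalso
              apply hF
              show w1 j F + w2 j F = 0
              rw [h7, h8, add_zero]
            · exact h4 j hj F h8
          · exact h1 j hj F h7
        · intro j hj l hl
          rw [bd_add, h2 j hj l hl, h5 j hj l hl, add_zero]
        · rw [← h3, ← h6, ← sum_add_distrib]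
          exact sum_congr rfl (fun j _ => bd_add _ _ _)
      zero_mem' := by
        refine ⟨fun _ => 0, ?_, ?_, ?_⟩
        · intro j _ F hF
          exact absurd rfl hF
        · intro j _ l _
          exact bd_zero _
        · exact sum_eq_zero (fun j _ => bd_zero _)
      smul_mem' := by
        rintro c y ⟨w, h1, h2, h3⟩
        refine ⟨fun j => c • w j, ?_, ?_, ?_⟩
        · intro j hj F hF
          apply h1 j hj F
          intro h
          apply hF
          show c • w j F = 0
          rw [h, smul_zero]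
        · intro j hj l hl
          rw [bd_smul, h2 j hj l hl, smul_zero]
        · rw [← h3, smul_sum]
          exact sum_congr rfl (fun j _ => bd_smul _ _ _) }
  by_contra hcon
  have hzL : z ∉ L := hcon
  obtain ⟨g, hg, hgz⟩ := sep L z hzL
  set u : Fc U Q → K := fun M => g (rs S M.1) with hu
  have huCS : u ∈ CS K U Q S := mem_CS.2 ⟨g, fun M => rfl⟩
  have claim : ∀ j ∈ J, cj a U Q j * u ∈ Bd (CS K U Q) (T' j) (insert j S) := by
    intro j hj
    by_contra hnot
    obtain ⟨ζ, hζ, hζne⟩ := sep _ _ hnot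
    have hjS : j ∉ S := Finset.disjoint_left.1 hJS hj
    have hjU : insert j S ⊆ U := insert_subset (hJ hj) hS
    have hmem : push S (cj a U Q j * ζ) ∈ L := by
      refine ⟨fun i => if i = j then push (insert j S) ζ else 0, ?_, ?_, ?_⟩
      · intro i hi F hF
        simp only at hF
        by_cases hij : i = j
        · subst hij
          rw [if_pos rfl] at hF
          exact push_supp hjU ζ F hF
        · rw [if_neg hij] at hF
          exact absurd rfl hF
      · intro i hi l hl
        simp only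
        by_cases hij : i = j
        · subst hij
          rw [if_pos rfl, bd_th_push hjU (hT' i hi hl)]
          funext G
          have h1 : (fun M : Fc U Q => if rs ((insert i S).erase l) M.1 = G then (1:K) else 0) ∈
              CS K U Q ((insert i S).erase l) := by
            rw [mem_CS]
            exact ⟨fun F => if F = G then 1 else 0, fun M => rfl⟩
          have h2 := hζ _ (le_Bd (CS K U Q) (insert i S) hl h1)
          rw [push, Pi.zero_apply]
          refine Eq.trans ?_ h2
          refine sum_congr rfl (fun M _ => ?_)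
          split_ifs
          · rw [mul_one]
          · rw [mul_zero]
        · rw [if_neg hij]
          exact bd_zero _
      · rw [sum_eq_single_of_mem j hj]
        · show bd (wt a {j}) (if j = j then push (insert j S) ζ else 0) = _
          rw [if_pos rfl, bd_push hjU (mem_insert_self j S), erase_insert hjS]
        · intro i _ hij
          show bd (wt a {i}) (if i = j then push (insert j S) ζ else 0) = _
          rw [if_neg hij]
          exact bd_zero _
    have h3 := hg _ hmem
    apply hζne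
    rw [← h3]
    simp only [push, mul_sum]
    rw [sum_comm]
    refine sum_congr rfl (fun M _ => ?_)
    rw [sum_eq_single (rs S M.1)]
    · rw [if_pos rfl, Pi.mul_apply, Pi.mul_apply]
      simp only [hu]
      ring
    · intro F _ hne
      rw [if_neg (Ne.symm hne), mul_zero]
    · intro h
      exact absurd (mem_univ _) h
  have huB := hyp u huCS claim
  rw [mem_Bd] at huB
  obtain ⟨f, hf1, hf2⟩ := huB
  have hf3 : ∀ l, ∃ h : Finset P → K, l ∈ T → ∀ M : Fc U Q, f l M = h (rs (S.erase l) M.1) := by
    intro l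
    by_cases hl : l ∈ T
    · obtain ⟨h, hh⟩ := mem_CS.1 (hf1 l hl)
      exact ⟨h, fun _ => hh⟩
    · exact ⟨0, fun h => absurd h hl⟩
  choose h hh using hf3
  apply hgz
  have h1 : ∀ F, g F * z F = ∑ l ∈ T, h l (rs (S.erase l) F) * z F := by
    intro F
    by_cases hF : z F = 0
    · rw [hF, mul_zero]
      symm
      exact sum_eq_zero (fun l _ => mul_zero _)
    · obtain ⟨hch, hcol⟩ := hz F hF
      obtain ⟨M, hM⟩ := hext S hS F hch hcol
      rw [← sum_mul]
      congr 1
      have h2 : g F = u M := by rw [hu, ← hM]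
      rw [h2, ← hf2, Finset.sum_apply]
      refine sum_congr rfl (fun l hl => ?_)
      rw [hh l hl M, ← hM, rs_rs_of_subset (erase_subset l S)]
  rw [sum_congr rfl (fun F _ => h1 F), sum_comm]
  apply sum_eq_zero
  intro l hl
  rw [sum_erase_insert l (h l) z S (hT hl) Q hz, hzT l hl]
  exact sum_eq_zero (fun G _ => by rw [Pi.zero_apply, mul_zero])

end Job


end J_gdl

end Pool.Agent.Helper236.CE
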