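import Pool.Agent.Helper236.CE.Basic

set_option autoImplicit false
set_option linter.unusedSectionVars false
set_option linter.style.longLine false

namespace Pool.Agent.Helper236.CE

open Finset


namespace J_gen_indep


/-- exponent of the squarefree monomial -/
noncomputable def expo {P : Type} [DecidableEq P] (F : Finset P) : P →₀ ℕ :=
  ∑ x ∈ F, Finsupp.single x 1

theorem expo_apply {P : Type} [DecidableEq P] (F : Finset P) (x : P) :
    expo F x = if x ∈ F then 1 else 0 := by
  rw [expo, Finsupp.finsetSum_apply]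
  simp only [Finsupp.single_apply]
  rw [Finset.sum_ite_eq' F x (fun _ => 1)]

theorem prod_X_eq {P : Type} [DecidableEq P] (F : Finset P) :
    (∏ x ∈ F, (MvPolynomial.X x : MvPolynomial P (ZMod 2))) = MvPolynomial.monomial (expo F) 1 := by
  rw [expo, MvPolynomial.monomial_sum_one]
  rfl

theorem poly_indep {P : Type} [Fintype P] [DecidableEq P] (𝒮 : Finset (Finset P))
    (a : Finset P → MvPolynomial P (ZMod 2))
    (h : ∑ F ∈ 𝒮, (∏ x ∈ F, (MvPolynomial.X x : MvPolynomial P (ZMod 2))) * (a F) ^ 2 = 0) :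
    ∀ F ∈ 𝒮, a F = 0 := by
  intro F0 hF0
  ext m
  rw [MvPolynomial.coeff_zero]
  have h1 := congrArg (MvPolynomial.coeff (expo F0 + 2 • m)) h
  rw [MvPolynomial.coeff_sum, MvPolynomial.coeff_zero] at h1
  rw [Finset.sum_eq_single_of_mem F0 hF0] at h1
  · rw [prod_X_eq, MvPolynomial.coeff_monomial_mul, one_mul, ← MvPolynomial.expand_zmod,
      MvPolynomial.coeff_expand_smul 2 (by norm_num)] at h1
    exact h1
  · intro F hF hne
    rw [prod_X_eq, MvPolynomial.coeff_monomial_mul', ← MvPolynomial.expand_zmod]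
    split_ifs with hle
    · rw [one_mul]
      -- find a point where parity differs
      obtain ⟨x, hx⟩ : ∃ x, ¬ (x ∈ F ↔ x ∈ F0) := by
        by_contra hcon
        push Not at hcon
        exact hne (Finset.ext hcon)
      apply MvPolynomial.coeff_expand_of_not_dvd (i := x)
      have hle' := hle x
      rw [Finsupp.tsub_apply]
      rw [Finsupp.add_apply, Finsupp.smul_apply, expo_apply, expo_apply, smul_eq_mul] at *
      by_cases h1 : x ∈ F <;> by_cases h2 : x ∈ F0
      · exact absurd (iff_of_true h1 h2) hx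
      · simp only [h1, h2, if_true, if_false] at hle' ⊢
        omega
      · simp only [h1, h2, if_true, if_false] at hle' ⊢
        omega
      · exact absurd (iff_of_false h1 h2) hx
    · rfl

/-- TARGET: squares are independent over squarefree monomials (char 2 genericity). -/
theorem gen_indep {P : Type} [Fintype P] [DecidableEq P] (𝒮 : Finset (Finset P))
    (s : Finset P → FractionRing (MvPolynomial P (ZMod 2)))
    (h : ∑ F ∈ 𝒮, (∏ x ∈ F, algebraMap (MvPolynomial P (ZMod 2)) (FractionRing (MvPolynomial P (ZMod 2)))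
      (MvPolynomial.X x)) * (s F) ^ 2 = 0) : ∀ F ∈ 𝒮, s F = 0 := by
  classical
  obtain ⟨b, hb⟩ := IsLocalization.exist_integer_multiples
    (nonZeroDivisors (MvPolynomial P (ZMod 2))) 𝒮 s
  have hb' : ∀ F : Finset P, ∃ r : MvPolynomial P (ZMod 2), F ∈ 𝒮 →
      algebraMap _ (FractionRing (MvPolynomial P (ZMod 2))) r =
        algebraMap _ (FractionRing (MvPolynomial P (ZMod 2))) (b : MvPolynomial P (ZMod 2)) * s F := by
    intro F
    by_cases hF : F ∈ 𝒮
    · obtain ⟨r, hr⟩ := hb F hF
      refine ⟨r, fun _ => ?_⟩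
      rw [hr, Algebra.smul_def]
    · exact ⟨0, fun hF' => absurd hF' hF⟩
  choose a ha using hb'
  have hinj : Function.Injective (algebraMap (MvPolynomial P (ZMod 2))
      (FractionRing (MvPolynomial P (ZMod 2)))) := IsFractionRing.injective _ _
  have hpoly : ∑ F ∈ 𝒮, (∏ x ∈ F, (MvPolynomial.X x : MvPolynomial P (ZMod 2))) * (a F) ^ 2 = 0 := by
    apply hinj
    rw [map_zero, map_sum]
    have : ∀ F ∈ 𝒮, algebraMap (MvPolynomial P (ZMod 2)) (FractionRing (MvPolynomial P (ZMod 2)))
        ((∏ x ∈ F, (MvPolynomial.X x : MvPolynomial P (ZMod 2))) * (a F) ^ 2) =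
        (algebraMap _ (FractionRing (MvPolynomial P (ZMod 2))) (b : MvPolynomial P (ZMod 2))) ^ 2 *
        ((∏ x ∈ F, algebraMap (MvPolynomial P (ZMod 2)) (FractionRing (MvPolynomial P (ZMod 2)))
      (MvPolynomial.X x)) * (s F) ^ 2) := by
      intro F hF
      rw [map_mul, map_pow, ha F hF, map_prod]
      ring
    rw [Finset.sum_congr rfl this, ← Finset.mul_sum, h, mul_zero]
  have hz := poly_indep 𝒮 a hpoly
  intro F hF
  have h1 := ha F hF
  rw [hz F hF, map_zero] at h1
  have hbne : algebraMap (MvPolynomial P (ZMod 2)) (FractionRing (MvPolynomial P (ZMod 2)))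
      (b : MvPolynomial P (ZMod 2)) ≠ 0 := by
    intro h0
    have : (b : MvPolynomial P (ZMod 2)) = 0 := hinj (by rw [h0, map_zero])
    exact nonZeroDivisors.coe_ne_zero b this
  rcases mul_eq_zero.1 h1.symm with h2 | h2
  · exact absurd h2 hbne
  · exact h2


end J_gen_indep

end Pool.Agent.Helper236.CE
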