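import Pool.Agent.Helper236.CE.Basic
import Pool.Agent.Helper236.CE.J_gdl

set_option autoImplicit false
set_option linter.unusedSectionVars false
set_option linter.style.longLine false

namespace Pool.Agent.Helper236.CE

open Finset
open J_gdl (gdl)


namespace J_lift_z

section Job

variable {P : Type} [PartialOrder P] [Fintype P] [DecidableEq P] [BoundedOrder P] [GradeOrder ℕ P]


/-- TARGET -/
theorem lift_z {K : Type} [Field K] (m : ℕ)
    (hext : ∀ S ⊆ Icc 1 (2 * m), ∀ F : Finset P, Ch (F ∪ (∅ : Finset P)) → col F = S →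
      ∃ M : Fc (Icc 1 (2 * m)) (∅ : Finset P), rs S M.1 = F)
    (hreg : Reg (CS K (Icc 1 (2 * m)) (∅ : Finset P)) (Icc 1 (2 * m)))
    (E A : Finset ℕ) (hA : A ⊆ D0 m) (i : ℕ) (hi : i ∈ D0 m) (hiA : i ∉ A) (n : ℕ)
    (z : Finset P → K) (hz : InZ m E A n z) :
    ∃ z' : Finset P → K, InZ m (insert i E) (insert i A) (n + 1) z' ∧ bd (th K i) z' = z := by
  classical
  have hiU : i ∈ Icc 1 (2 * m) := (mem_filter.1 hi).1
  have hie : Even i := (mem_filter.1 hi).2
  have hcj : cj (K := K) (fun _ => 1) (Icc 1 (2 * m)) (∅ : Finset P) i = 1 := by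
    funext M
    obtain ⟨M, hM1, hM2⟩ := M
    have hch : Ch M := hM1.mono subset_union_left
    have h1 : i ∈ col M := by rw [hM2]; exact hiU
    obtain ⟨x, hx, hxi⟩ := mem_col.1 h1
    have h2 : rs {i} M = {x} := by
      ext y
      rw [mem_rs, mem_singleton, mem_singleton]
      constructor
      · rintro ⟨hy, hyi⟩
        exact hch.inj hy hx (hyi.trans hxi.symm)
      · rintro rfl
        exact ⟨hx, hxi⟩
    show ∑ y ∈ rs {i} M, (1 : K) = 1
    rw [h2, sum_singleton]
  have hwt : wt (K := K) (P := P) (fun _ => 1) {i} = th K i := by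
    funext x
    simp only [wt, th, mem_singleton]
  set SS : Finset (Finset ℕ) := (Icc 1 (2 * m)).powerset.filter
    (fun S => S.filter (fun t => Even t) = A ∧ S.card = n) with hSS
  have hiS : ∀ S ∈ SS, i ∉ S := by
    intro S hS h
    rw [hSS, mem_filter] at hS
    apply hiA
    rw [← hS.2.1, mem_filter]
    exact ⟨h, hie⟩
  have key : ∀ S ∈ SS, ∃ w : Finset P → K, (∀ F, w F ≠ 0 → Ch F ∧ col F = insert i S) ∧
      (∀ l ∈ S \ E, bd (th K l) w = 0) ∧
      bd (th K i) w = fun F => if col F = S then z F else 0 := by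
    intro S hS
    have hS' := hS
    rw [hSS, mem_filter, mem_powerset] at hS'
    obtain ⟨hSU, hSA, hSn⟩ := hS'
    obtain ⟨w, hw1, hw2, hw3⟩ := gdl (K := K) (Icc 1 (2 * m)) (∅ : Finset P) hext S hSU (S \ E)
      sdiff_subset {i} (singleton_subset_iff.2 hiU) (disjoint_singleton_left.2 (hiS S hS))
      (fun _ => S \ E) (fun j _ => sdiff_subset.trans (subset_insert _ _)) (fun _ => 1) (by
        intro u hu h
        have h1 := h i (mem_singleton_self i)
        rw [hcj, one_mul] at h1
        exact hreg S hSU (S \ E) sdiff_subset i hiU (hiS S hS) ⟨hu, h1⟩)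
      (fun F => if col F = S then z F else 0) (by
        intro F hF
        by_cases h : col F = S
        · rw [if_pos h] at hF
          rw [union_empty]
          exact ⟨(hz.supp F hF).1, h⟩
        · rw [if_neg h] at hF
          exact absurd rfl hF) (by
        intro l hl
        rw [mem_sdiff] at hl
        funext F
        have h1 : bd (th K l) z F = 0 := by rw [hz.ker l hl.2]; rfl
        rw [bd_apply] at h1 ⊢
        have h2 : ∀ x ∈ Fᶜ, th K l x * (if col (insert x F) = S then z (insert x F) else 0) =
            (if insert l (col F) = S then (1:K) else 0) * (th K l x * z (insert x F)) := by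
          intro x _
          by_cases hx : grade ℕ x = l
          · rw [col_insert, hx]
            by_cases h3 : insert l (col F) = S
            · rw [if_pos h3, if_pos h3, one_mul]
            · rw [if_neg h3, if_neg h3, mul_zero, zero_mul]
          · simp only [th, if_neg hx, zero_mul, mul_zero]
        rw [sum_congr rfl h2, ← mul_sum, h1, mul_zero]
        rfl)
    rw [sum_singleton, hwt] at hw3
    refine ⟨w i, ?_, hw2 i (mem_singleton_self i), hw3⟩
    intro F hF
    have := hw1 i (mem_singleton_self i) F hF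
    rwa [union_empty] at this
  choose! w hw1 hw2 hw3 using key
  refine ⟨∑ S ∈ SS, w S, ⟨?_, ?_⟩, ?_⟩
  · intro F hF
    rw [Finset.sum_apply] at hF
    obtain ⟨S, hS, hne⟩ := exists_ne_zero_of_sum_ne_zero hF
    obtain ⟨h1, h2⟩ := hw1 S hS F hne
    have hS' := hS
    rw [hSS, mem_filter, mem_powerset] at hS'
    obtain ⟨hSU, hSA, hSn⟩ := hS'
    refine ⟨h1, ?_, ?_, ?_⟩
    · rw [← card_col h1, h2, card_insert_of_notMem (hiS S hS), hSn]
    · rw [h2]
      exact insert_subset hiU hSU
    · rw [h2, filter_insert, if_pos hie, hSA]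
  · intro l hl
    rw [mem_insert, not_or] at hl
    rw [bd_sum]
    refine sum_eq_zero fun S hS => ?_
    by_cases hlS : l ∈ S
    · exact hw2 S hS l (mem_sdiff.2 ⟨hlS, hl.2⟩)
    · funext F
      by_contra hne
      obtain ⟨x, -, hx, hwx⟩ := bd_ne_zero hne
      have h1 : grade ℕ x = l := by
        by_contra h
        exact hx (by simp only [th, if_neg h])
      have h2 := (hw1 S hS _ hwx).2
      have h3 : l ∈ col (insert x F) := by
        rw [col_insert, h1]
        exact mem_insert_self _ _
      rw [h2, mem_insert] at h3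
      rcases h3 with h3 | h3
      · exact hl.1 h3
      · exact hlS h3
  · rw [bd_sum, sum_congr rfl hw3]
    funext F
    rw [Finset.sum_apply, sum_ite_eq]
    split_ifs with h
    · rfl
    · by_contra hne
      have h1 := hz.supp F (Ne.symm hne)
      apply h
      rw [hSS, mem_filter, mem_powerset]
      refine ⟨h1.2.2.1, h1.2.2.2, ?_⟩
      rw [card_col h1.1]
      exact h1.2.1

end Job


end J_lift_z

end Pool.Agent.Helper236.CE
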