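import Pool.Agent.Helper236.CE.Basic

set_option autoImplicit false
set_option linter.unusedSectionVars false
set_option linter.style.longLine false

namespace Pool.Agent.Helper236.CE

open Finset


namespace J_reg_all


variable {K V : Type} [Field K] [AddCommGroup V] [Module K V]


theorem Bd_mono_T' (C : Finset ℕ → Submodule K V) {T T' : Finset ℕ} (h : T ⊆ T') (S : Finset ℕ) :
    Bd C T S ≤ Bd C T' S :=
  biSup_mono (fun _ hl => h hl)

theorem Bd_mono_S' (C : Finset ℕ → Submodule K V) (hC : Monotone C) (T : Finset ℕ)
    {S S' : Finset ℕ} (h : S ⊆ S') : Bd C T S ≤ Bd C T S' :=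
  iSup₂_mono (fun l _ => hC (erase_subset_erase l h))

theorem Bd_insert (C : Finset ℕ → Submodule K V) (t : ℕ) (T S : Finset ℕ) :
    Bd C (insert t T) S = C (S.erase t) ⊔ Bd C T S := by
  unfold Bd; rw [Finset.iSup_insert]

/-- regularity of `j` modulo `T` -/
def PP (C : Finset ℕ → Submodule K V) (U T : Finset ℕ) (j : ℕ) : Prop :=
  ∀ S ⊆ U, j ∉ S → C S ⊓ Bd C (T ∩ S) (insert j S) ≤ Bd C (T ∩ S) S

theorem PP_a (C : Finset ℕ → Submodule K V) (hC : Monotone C) (U T : Finset ℕ) (t j : ℕ)
    (htj : t ≠ j) (ht : t ∉ T) (hj : j ∉ T) (hjU : j ∈ U)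
    (h1 : PP C U T t) (h2 : PP C U (insert t T) j) : PP C U T j := by
  have key : ∀ n, ∀ S ⊆ U, S.card = n → j ∉ S → C S ⊓ Bd C (T ∩ S) (insert j S) ≤ Bd C (T ∩ S) S := by
    intro n
    induction n with
    | zero =>
      intro S hS hn hjS f hf
      rw [card_eq_zero] at hn; subst hn
      have := h2 ∅ hS hjS
      simp only [inter_empty] at this hf ⊢
      exact this hf
    | succ n ih =>
      intro S hS hn hjS f hf
      by_cases htS : t ∈ S
      · have e1 : (insert t T) ∩ S = insert t (T ∩ S) := insert_inter_of_mem htS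
        have h3 := h2 S hS hjS
        rw [e1] at h3
        have h4 : f ∈ Bd C (insert t (T ∩ S)) S :=
          h3 ⟨hf.1, Bd_mono_T' C (subset_insert _ _) _ hf.2⟩
        rw [Bd_insert, Submodule.mem_sup] at h4
        obtain ⟨g, hg, b, hb, hgb⟩ := h4
        have hb' : b ∈ Bd C (T ∩ S) (insert j S) := Bd_mono_S' C hC _ (subset_insert _ _) hb
        have hg' : g ∈ Bd C (T ∩ S) (insert j S) := by
          have : g = f - b := by rw [← hgb]; abel
          rw [this]; exact Submodule.sub_mem _ hf.2 hb'
        have e2 : insert t (insert j (S.erase t)) = insert j S := by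
          rw [insert_comm, insert_erase htS]
        have e3 : T ∩ (insert j (S.erase t)) = T ∩ S := by
          ext x; simp only [mem_inter, mem_insert, mem_erase]
          constructor
          · rintro ⟨hx, rfl | ⟨_, hxS⟩⟩
            · exact absurd hx hj
            · exact ⟨hx, hxS⟩
          · rintro ⟨hx, hxS⟩
            exact ⟨hx, Or.inr ⟨fun h => ht (h ▸ hx), hxS⟩⟩
        have e4 : T ∩ (S.erase t) = T ∩ S := by
          ext x; simp only [mem_inter, mem_erase]
          constructor
          · rintro ⟨hx, _, hxS⟩; exact ⟨hx, hxS⟩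
          · rintro ⟨hx, hxS⟩; exact ⟨hx, fun h => ht (h ▸ hx), hxS⟩
        have h5 := h1 (insert j (S.erase t)) (insert_subset hjU ((erase_subset _ _).trans hS))
          (by simp [htj])
        rw [e2, e3] at h5
        have h6 : g ∈ Bd C (T ∩ S) (insert j (S.erase t)) :=
          h5 ⟨hC (subset_insert _ _) hg, hg'⟩
        have h7 := ih (S.erase t) ((erase_subset _ _).trans hS)
          (by rw [card_erase_of_mem htS, hn]; rfl) (fun h => hjS (mem_of_mem_erase h))
        rw [e4] at h7
        have h8 : g ∈ Bd C (T ∩ S) (S.erase t) := h7 ⟨hg, h6⟩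
        rw [← hgb]
        exact Submodule.add_mem _ (Bd_mono_S' C hC _ (erase_subset _ _) h8) hb
      · have e1 : (insert t T) ∩ S = T ∩ S := insert_inter_of_notMem htS
        have h3 := h2 S hS hjS
        rw [e1] at h3
        exact h3 hf
  intro S hS hjS
  exact key _ S hS rfl hjS

theorem PP_b (C : Finset ℕ → Submodule K V) (hC : Monotone C) (U T : Finset ℕ) (t j : ℕ)
    (htj : t ≠ j) (ht : t ∉ T) (hj : j ∉ T) (htU : t ∈ U)
    (h1 : PP C U T t) (h2 : PP C U (insert t T) j) : PP C U (insert j T) t := by
  intro S hS htS f hf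
  by_cases hjS : j ∈ S
  · have e1 : (insert j T) ∩ S = insert j (T ∩ S) := insert_inter_of_mem hjS
    rw [e1] at hf ⊢
    obtain ⟨hf1, hf2⟩ := hf
    rw [Bd_insert, SetLike.mem_coe, Submodule.mem_sup] at hf2
    obtain ⟨g, hg, b, hb, hgb⟩ := hf2
    have e2 : (insert t S).erase j = insert t (S.erase j) := erase_insert_of_ne htj
    rw [e2] at hg
    have e3 : insert j (insert t (S.erase j)) = insert t S := by
      rw [insert_comm, insert_erase hjS]
    have e4 : (insert t T) ∩ (insert t (S.erase j)) = insert t (T ∩ S) := by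
      ext x; simp only [mem_inter, mem_insert, mem_erase]
      constructor
      · rintro ⟨rfl | hx, hx2⟩
        · exact Or.inl rfl
        · rcases hx2 with rfl | ⟨_, h⟩
          · exact Or.inl rfl
          · exact Or.inr ⟨hx, h⟩
      · rintro (rfl | ⟨hx, hxS⟩)
        · exact ⟨Or.inl rfl, Or.inl rfl⟩
        · exact ⟨Or.inr hx, Or.inr ⟨fun h => hj (h ▸ hx), hxS⟩⟩
    have h3 := h2 (insert t (S.erase j)) (insert_subset htU ((erase_subset _ _).trans hS))
      (by simp [Ne.symm htj])
    rw [e3, e4] at h3
    have e5 : (insert t S).erase t = S := erase_insert htS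
    have h4 : g ∈ Bd C (insert t (T ∩ S)) (insert t S) := by
      rw [Bd_insert, e5]
      have : g = f - b := by rw [← hgb]; abel
      rw [this]
      exact Submodule.sub_mem _ (Submodule.mem_sup_left hf1) (Submodule.mem_sup_right hb)
    have h5 := h3 ⟨hg, h4⟩
    rw [Bd_insert, Submodule.mem_sup] at h5
    obtain ⟨h, hh, b', hb', hhb⟩ := h5
    have e6 : (insert t (S.erase j)).erase t = S.erase j :=
      erase_insert (fun h => htS (mem_of_mem_erase h))
    rw [e6] at hh
    have h6 : f - h ∈ Bd C (T ∩ S) (insert t S) := by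
      have : f - h = b' + b := by rw [← hgb, ← hhb]; abel
      rw [this]
      refine Submodule.add_mem _ (Bd_mono_S' C hC _ ?_ hb') hb
      exact insert_subset_insert _ (erase_subset _ _)
    have h7 : f - h ∈ Bd C (T ∩ S) S :=
      h1 S hS htS ⟨Submodule.sub_mem _ hf1 (hC (erase_subset _ _) hh), h6⟩
    rw [Bd_insert, Submodule.mem_sup]
    exact ⟨h, hh, f - h, h7, by abel⟩
  · have e1 : (insert j T) ∩ S = T ∩ S := insert_inter_of_notMem hjS
    rw [e1] at hf ⊢
    exact h1 S hS htS hf

/-- TARGET: from the natural order to all subsets and orders. -/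
theorem reg_all (U : Finset ℕ) (C : Finset ℕ → Submodule K V) (hC : Monotone C)
    (hnat : ∀ S ⊆ U, ∀ j ∈ U, j ∉ S →
      C S ⊓ Bd C (S.filter (fun l => l < j)) (insert j S) ≤ Bd C (S.filter (fun l => l < j)) S) :
    ∀ S ⊆ U, ∀ T ⊆ S, ∀ j ∈ U, j ∉ S → C S ⊓ Bd C T (insert j S) ≤ Bd C T S := by
  have hnat' : ∀ j ∈ U, PP C U (U.filter (fun l => l < j)) j := by
    intro j hj S hS hjS
    have e : (U.filter (fun l => l < j)) ∩ S = S.filter (fun l => l < j) := by
      ext x; simp only [mem_inter, mem_filter]
      constructor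
      · rintro ⟨⟨_, h⟩, hx⟩; exact ⟨hx, h⟩
      · rintro ⟨hx, h⟩; exact ⟨⟨hS hx, h⟩, hx⟩
    rw [e]; exact hnat S hS j hj hjS
  have G : ∀ n : ℕ, ∀ T ⊆ U.filter (fun l => l < n), ∀ j ∈ U.filter (fun l => l < n), j ∉ T →
      PP C U T j := by
    intro n
    induction n with
    | zero => intro T _ j hj; simp at hj
    | succ n ih =>
      by_cases hn : n ∈ U
      · -- (i)
        have hi : ∀ r, ∀ T ⊆ U.filter (fun l => l < n), ((U.filter (fun l => l < n)) \ T).card = r →
            PP C U T n := by
          intro r
          induction r with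
          | zero =>
            intro T hT hr
            rw [card_eq_zero, sdiff_eq_empty_iff_subset] at hr
            rw [Subset.antisymm hT hr]; exact hnat' n hn
          | succ r ihr =>
            intro T hT hr
            obtain ⟨t, ht⟩ : ((U.filter (fun l => l < n)) \ T).Nonempty := by
              rw [← card_pos]; omega
            rw [mem_sdiff] at ht
            have htn : t ≠ n := by
              have := (mem_filter.1 ht.1).2; omega
            have hnT : n ∉ T := fun h => by have := (mem_filter.1 (hT h)).2; omega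
            refine PP_a C hC U T t n htn ht.2 hnT hn (ih T hT t ht.1 ht.2) ?_
            apply ihr _ (insert_subset ht.1 hT)
            have : (U.filter (fun l => l < n)) \ insert t T = ((U.filter (fun l => l < n)) \ T).erase t := by
              ext x; simp only [mem_sdiff, mem_insert, mem_erase]; tauto
            rw [this, card_erase_of_mem (mem_sdiff.2 ht), hr]; rfl
        intro T hT j hj hjT
        by_cases hjn : j = n
        · subst hjn
          refine hi _ T ?_ rfl
          intro x hx
          have h3 := mem_filter.1 (hT hx)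
          rw [mem_filter]; refine ⟨h3.1, ?_⟩
          have : x ≠ j := fun h => hjT (h ▸ hx)
          omega
        · have hj' : j ∈ U.filter (fun l => l < n) := by
            have := mem_filter.1 hj; rw [mem_filter]; exact ⟨this.1, by omega⟩
          by_cases hnT : n ∈ T
          · have hT0 : T.erase n ⊆ U.filter (fun l => l < n) := by
              intro x hx; rw [mem_erase] at hx
              have := mem_filter.1 (hT hx.2); rw [mem_filter]; exact ⟨this.1, by omega⟩
            rw [← insert_erase hnT]
            refine PP_b C hC U (T.erase n) j n hjn (fun h => hjT (mem_of_mem_erase h)) (notMem_erase _ _)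
              (mem_filter.1 hj).1 (ih _ hT0 j hj' (fun h => hjT (mem_of_mem_erase h))) ?_
            exact hi _ _ (insert_subset hj' hT0) rfl
          · refine ih T ?_ j hj' hjT
            intro x hx
            have h3 := mem_filter.1 (hT hx)
            rw [mem_filter]; refine ⟨h3.1, ?_⟩
            have : x ≠ n := fun h => hnT (h ▸ hx)
            omega
      · have e : U.filter (fun l => l < n + 1) = U.filter (fun l => l < n) := by
          ext x; simp only [mem_filter]
          constructor
          · rintro ⟨h, h'⟩; refine ⟨h, ?_⟩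
            have : x ≠ n := fun h3 => hn (h3 ▸ h)
            omega
          · rintro ⟨h, h'⟩; exact ⟨h, by omega⟩
        rw [e]; exact ih
  intro S hS T hT j hj hjS
  have hbig : ∀ x ∈ U, x < U.sup id + 1 := by
    intro x hx; have := le_sup (f := id) hx; simp only [id] at this; omega
  have h1 := G (U.sup id + 1) T (fun x hx => mem_filter.2 ⟨hS (hT hx), hbig x (hS (hT hx))⟩) j
    (mem_filter.2 ⟨hj, hbig j hj⟩) (fun h => hjS (hT h)) S hS hjS
  rwa [inter_eq_left.2 hT] at h1


end J_reg_all

end Pool.Agent.Helper236.CE
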