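import Pool.Agent.Helper236.CE.Basic

set_option autoImplicit false
set_option linter.unusedSectionVars false
set_option linter.style.longLine false

namespace Pool.Agent.Helper236.CE

open Finset


namespace J_reg_descent

section Job

variable {P : Type} [PartialOrder P] [Fintype P] [DecidableEq P] [BoundedOrder P] [GradeOrder ℕ P]


/-- TARGET -/
theorem reg_descent {k K : Type} [Field k] [Field K] [Algebra K k] (U : Finset ℕ) (Q : Finset P)
    (h : Reg (CS k U Q) U) : Reg (CS K U Q) U := by
  have hinj : Function.Injective (Algebra.linearMap K k) := by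
    intro a b hab
    exact (algebraMap K k).injective hab
  obtain ⟨ρ, hρ⟩ := LinearMap.exists_leftInverse_of_injective (Algebra.linearMap K k)
    (LinearMap.ker_eq_bot.2 hinj)
  have hρ' : ∀ a : K, ρ (algebraMap K k a) = a := fun a => LinearMap.congr_fun hρ a
  have hup : ∀ (A : Finset ℕ) (f : Fc U Q → K), f ∈ CS K U Q A →
      (fun M => algebraMap K k (f M)) ∈ CS k U Q A := by
    intro A f hf
    rw [mem_CS_iff] at hf ⊢
    intro M M' hM
    show algebraMap K k (f M) = algebraMap K k (f M')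
    rw [hf M M' hM]
  have hdown : ∀ (A : Finset ℕ) (f : Fc U Q → k), f ∈ CS k U Q A →
      (fun M => ρ (f M)) ∈ CS K U Q A := by
    intro A f hf
    rw [mem_CS_iff] at hf ⊢
    intro M M' hM
    show ρ (f M) = ρ (f M')
    rw [hf M M' hM]
  intro S hS T hT j hj hjS f hf
  obtain ⟨hf1, hf2⟩ := Submodule.mem_inf.1 hf
  rw [mem_Bd] at hf2
  obtain ⟨g, hg1, hg2⟩ := hf2
  have h1 : (fun M => algebraMap K k (f M)) ∈ Bd (CS k U Q) T (insert j S) := by
    rw [mem_Bd]
    refine ⟨fun l M => algebraMap K k (g l M), fun l hl => hup _ _ (hg1 l hl), ?_⟩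
    funext M
    rw [Finset.sum_apply, ← hg2, Finset.sum_apply, map_sum]
  have h2 := h S hS T hT j hj hjS (Submodule.mem_inf.2 ⟨hup S f hf1, h1⟩)
  rw [mem_Bd] at h2
  obtain ⟨w, hw1, hw2⟩ := h2
  rw [mem_Bd]
  refine ⟨fun l M => ρ (w l M), fun l hl => hdown _ _ (hw1 l hl), ?_⟩
  funext M
  rw [Finset.sum_apply, ← map_sum]
  have h3 := congrFun hw2 M
  rw [Finset.sum_apply] at h3
  rw [h3, hρ']

end Job


end J_reg_descent

end Pool.Agent.Helper236.CE
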