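import Pool.Agent.Helper236.CE.Basic

set_option autoImplicit false
set_option linter.unusedSectionVars false
set_option linter.style.longLine false

namespace Pool.Agent.Helper236.CE

open Finset


namespace J_reg_link

section Job

variable {P : Type} [PartialOrder P] [Fintype P] [DecidableEq P] [BoundedOrder P] [GradeOrder ℕ P]


theorem rs_of_sub {F N : Finset P} (hN : Ch N) (hFN : F ⊆ N) {A : Finset ℕ} (hA : A ⊆ col F) :
    rs A N = rs A F := by
  ext x
  rw [mem_rs, mem_rs]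
  constructor
  · rintro ⟨hx, hxA⟩
    obtain ⟨y, hy, hyx⟩ := mem_col.mp (hA hxA)
    have : y = x := hN.inj (hFN hy) hx hyx
    subst this
    exact ⟨hy, hxA⟩
  · rintro ⟨hx, hxA⟩
    exact ⟨hFN hx, hxA⟩

/-- TARGET -/
theorem reg_link {K : Type} [Field K] (U0 U : Finset ℕ) (Q : Finset P) (hU : U ⊆ U0)
    (hQ : col Q ⊆ U0) (hd : Disjoint U (col Q)) (hQc : Ch Q)
    (hext : ∀ F : Finset P, Ch F → col F ⊆ U0 → ∃ M : Fc U0 (∅ : Finset P), F ⊆ M.1)
    (h : Reg (CS K U0 (∅ : Finset P)) U0) : Reg (CS K U Q) U := by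
  intro S hS T hT j hj hjS f hf
  obtain ⟨hf1, hf2⟩ := Submodule.mem_inf.mp hf
  obtain ⟨g, hg⟩ := mem_CS.mp hf1
  obtain ⟨fl, hfl, hfsum⟩ := (mem_Bd _ _ _ _).mp hf2
  have hgl' : ∀ l : ℕ, ∃ gl : Finset P → K, l ∈ T → ∀ M : Fc U Q, fl l M = gl (rs ((insert j S).erase l) M.1) := by
    intro l
    by_cases hl : l ∈ T
    · obtain ⟨gl, h1⟩ := mem_CS.mp (hfl l hl)
      exact ⟨gl, fun _ => h1⟩
    · exact ⟨fun _ => 0, fun h => absurd h hl⟩
  choose gl hgl using hgl'
  have hlQ : ∀ l ∈ T, l ∉ col Q := fun l hl hlq =>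
    Finset.disjoint_left.mp hd (hS (hT hl)) hlq
  have hjQ : j ∉ col Q := Finset.disjoint_left.mp hd hj
  set Fh : Fc U0 (∅ : Finset P) → K := fun N => if Q ⊆ N.1 then g (rs S N.1) else 0 with hFh
  set Fl : ℕ → Fc U0 (∅ : Finset P) → K := fun l N =>
    if Q ⊆ N.1 then gl l (rs ((insert j S).erase l) N.1) else 0 with hFl
  have gen : ∀ (A : Finset ℕ) (g' : Finset P → K),
      (fun N : Fc U0 (∅ : Finset P) => if Q ⊆ N.1 then g' (rs A N.1) else 0) ∈
        CS K U0 (∅ : Finset P) (A ∪ col Q) := by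
    intro A g'
    rw [mem_CS_iff]
    intro M M' hMM
    have hsub : ∀ N : Finset P, Q ⊆ N ↔ Q ⊆ rs (A ∪ col Q) N := by
      intro N
      constructor
      · intro hQN x hx
        rw [mem_rs]
        exact ⟨hQN hx, mem_union_right _ (mem_col.mpr ⟨x, hx, rfl⟩)⟩
      · intro hQN
        exact hQN.trans (rs_subset _ _)
    have h1 : (Q ⊆ M.1) ↔ (Q ⊆ M'.1) := by
      rw [hsub M.1, hsub M'.1, hMM]
    have h2 : rs A M.1 = rs A M'.1 := by
      rw [← rs_rs_of_subset (subset_union_left : A ⊆ A ∪ col Q) M.1,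
        ← rs_rs_of_subset (subset_union_left : A ⊆ A ∪ col Q) M'.1, hMM]
    show (if Q ⊆ M.1 then g' (rs A M.1) else 0) = (if Q ⊆ M'.1 then g' (rs A M'.1) else 0)
    by_cases hQM : Q ⊆ M.1
    · rw [if_pos hQM, if_pos (h1.mp hQM), h2]
    · rw [if_neg hQM, if_neg (fun h => hQM (h1.mpr h))]
  have c1 : Fh ∈ CS K U0 (∅ : Finset P) (S ∪ col Q) := gen S g
  have c2 : ∀ l ∈ T, Fl l ∈ CS K U0 (∅ : Finset P) ((insert j (S ∪ col Q)).erase l) := by
    intro l hl
    refine CS_mono U0 ∅ ?_ (gen ((insert j S).erase l) (gl l))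
    intro t ht
    rw [mem_union, mem_erase, mem_insert] at ht
    rw [mem_erase, mem_insert, mem_union]
    rcases ht with ⟨h1, h2⟩ | h1
    · refine ⟨h1, ?_⟩
      tauto
    · refine ⟨?_, Or.inr (Or.inr h1)⟩
      rintro rfl
      exact hlQ t hl h1
  have c3 : ∑ l ∈ T, Fl l = Fh := by
    funext N
    rw [Finset.sum_apply]
    simp only [hFl, hFh]
    by_cases hQN : Q ⊆ N.1
    · simp only [if_pos hQN]
      have hNch : Ch N.1 := N.2.1.mono subset_union_left
      have hcol : col (rs U N.1) = U := by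
        rw [col_rs, N.2.2, inter_eq_right.mpr hU]
      let M : Fc U Q := ⟨rs U N.1, hNch.mono (union_subset (rs_subset _ _) hQN), hcol⟩
      have e1 : f M = g (rs S N.1) := by
        rw [hg M]
        show g (rs S (rs U N.1)) = _
        rw [rs_rs_of_subset hS]
      have e2 : f M = ∑ l ∈ T, gl l (rs ((insert j S).erase l) N.1) := by
        rw [← hfsum, Finset.sum_apply]
        refine Finset.sum_congr rfl (fun l hl => ?_)
        rw [hgl l hl M]
        show gl l (rs ((insert j S).erase l) (rs U N.1)) = _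
        rw [rs_rs_of_subset]
        exact (erase_subset _ _).trans (insert_subset hj hS)
      rw [← e2, e1]
    · simp only [if_neg hQN, Finset.sum_const_zero]
  have c4 : Fh ∈ Bd (CS K U0 (∅ : Finset P)) T (insert j (S ∪ col Q)) :=
    (mem_Bd _ _ _ _).mpr ⟨Fl, c2, c3⟩
  have c5 := h (S ∪ col Q) (union_subset (hS.trans hU) hQ) T (hT.trans subset_union_left) j (hU hj)
    (by rw [mem_union]; exact fun h => h.elim hjS hjQ) (Submodule.mem_inf.mpr ⟨c1, c4⟩)
  obtain ⟨fh, hfh, hfhsum⟩ := (mem_Bd _ _ _ _).mp c5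
  have hgh' : ∀ l : ℕ, ∃ gh : Finset P → K, l ∈ T → ∀ N : Fc U0 (∅ : Finset P),
      fh l N = gh (rs ((S ∪ col Q).erase l) N.1) := by
    intro l
    by_cases hl : l ∈ T
    · obtain ⟨gh, h1⟩ := mem_CS.mp (hfh l hl)
      exact ⟨gh, fun _ => h1⟩
    · exact ⟨fun _ => 0, fun h => absurd h hl⟩
  choose gh hgh using hgh'
  refine (mem_Bd _ _ _ _).mpr ⟨fun l G => gh l (rs (S.erase l) G.1 ∪ Q), ?_, ?_⟩
  · intro l _
    rw [mem_CS]
    exact ⟨fun F => gh l (F ∪ Q), fun M => rfl⟩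
  · funext G
    rw [Finset.sum_apply]
    obtain ⟨N, hN⟩ := hext (G.1 ∪ Q) G.2.1 (by
      rw [col_union, G.2.2]
      exact union_subset hU hQ)
    have hNch : Ch N.1 := N.2.1.mono subset_union_left
    have hGN : G.1 ⊆ N.1 := subset_union_left.trans hN
    have hQN : Q ⊆ N.1 := subset_union_right.trans hN
    have e1 : f G = Fh N := by
      simp only [hFh, if_pos hQN]
      rw [hg G, rs_of_sub hNch hGN (A := S) (by rw [G.2.2]; exact hS)]
    rw [e1, ← hfhsum, Finset.sum_apply]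
    refine Finset.sum_congr rfl (fun l hl => ?_)
    rw [hgh l hl N]
    congr 1
    ext x
    rw [mem_union, mem_rs, mem_rs, mem_erase, mem_erase, mem_union]
    constructor
    · rintro (⟨h1, h2, h3⟩ | h1)
      · exact ⟨hGN h1, h2, Or.inl h3⟩
      · have h2 : grade ℕ x ∈ col Q := mem_col.mpr ⟨x, h1, rfl⟩
        refine ⟨hQN h1, ?_, Or.inr h2⟩
        intro h3
        exact hlQ l hl (h3 ▸ h2)
    · rintro ⟨h1, h2, h3 | h3⟩
      · left
        have h4 : x ∈ rs S N.1 := mem_rs.mpr ⟨h1, h3⟩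
        rw [rs_of_sub hNch hGN (A := S) (by rw [G.2.2]; exact hS)] at h4
        exact ⟨(mem_rs.mp h4).1, h2, h3⟩
      · right
        have h4 : x ∈ rs (col Q) N.1 := mem_rs.mpr ⟨h1, h3⟩
        rw [rs_of_sub hNch hQN (A := col Q) (Finset.Subset.refl _)] at h4
        exact (mem_rs.mp h4).1

end Job


end J_reg_link

end Pool.Agent.Helper236.CE
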