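import Pool.Agent.Helper236.CE.Basic

set_option autoImplicit false
set_option linter.unusedSectionVars false
set_option linter.style.longLine false

namespace Pool.Agent.Helper236.CE

open Finset


namespace J_ring_nat

section Job

variable {P : Type} [PartialOrder P] [Fintype P] [DecidableEq P] [BoundedOrder P] [GradeOrder ℕ P]


section RN
open MvPolynomial

variable {k : Type} [Field k]

/-- the ideal of incomparable pairs -/
noncomputable def rnI (P : Type) [PartialOrder P] (k : Type) [Field k] : Ideal (MvPolynomial P k) :=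
  Ideal.span {f : MvPolynomial P k | ∃ x y : P, ¬ x ≤ y ∧ ¬ y ≤ x ∧
        f = MvPolynomial.X x * MvPolynomial.X y}

/-- rank sums -/
noncomputable def rnT (P : Type) [PartialOrder P] [Fintype P] [GradeOrder ℕ P]
    (k : Type) [Field k] (l : ℕ) : MvPolynomial P k :=
  ∑ x : P, if grade ℕ x = l then (MvPolynomial.X x : MvPolynomial P k) else 0

/-- squarefree exponent -/
noncomputable def rnd (F : Finset P) : P →₀ ℕ := Finsupp.indicator F (fun _ _ => 1)

theorem rnd_apply (F : Finset P) (x : P) : rnd F x = if x ∈ F then 1 else 0 := by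
  unfold rnd
  rw [Finsupp.indicator_apply]
  split_ifs <;> rfl

theorem rnd_inj {F G : Finset P} (h : rnd F = rnd G) : F = G := by
  ext x
  have := DFunLike.congr_fun h x
  rw [rnd_apply, rnd_apply] at this
  by_cases h1 : x ∈ F <;> by_cases h2 : x ∈ G <;> simp_all

theorem rnd_erase {F : Finset P} {x : P} (hx : x ∈ F) :
    rnd F - Finsupp.single x 1 = rnd (F.erase x) := by
  ext y
  rw [Finsupp.tsub_apply, rnd_apply, rnd_apply]
  by_cases hxy : x = y
  · subst hxy
    simp [hx]
  · rw [Finsupp.single_eq_of_ne (Ne.symm hxy)]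
    by_cases hy : y ∈ F
    · have : y ∈ F.erase x := mem_erase.2 ⟨Ne.symm hxy, hy⟩
      simp [hy, this]
    · have : y ∉ F.erase x := fun h => hy (mem_of_mem_erase h)
      simp [hy, this]

theorem rnd_insert {F : Finset P} {x : P} (hx : x ∉ F) :
    Finsupp.single x 1 + rnd F = rnd (insert x F) := by
  ext y
  rw [Finsupp.add_apply, rnd_apply, rnd_apply]
  by_cases hxy : x = y
  · subst hxy
    simp [hx]
  · rw [Finsupp.single_eq_of_ne (Ne.symm hxy)]
    simp [Ne.symm hxy]

theorem rnd_mem_support (F : Finset P) (x : P) : x ∈ (rnd F).support ↔ x ∈ F := by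
  rw [Finsupp.mem_support_iff, rnd_apply]
  by_cases h : x ∈ F <;> simp [h]

/-- squarefree monomials -/
noncomputable def rnm (k : Type) [Field k] (F : Finset P) : MvPolynomial P k := monomial (rnd F) 1

theorem rnm_X {F : Finset P} {x : P} (hx : x ∉ F) : X x * rnm k F = rnm k (insert x F) := by
  unfold rnm X
  rw [monomial_mul, rnd_insert hx, one_mul]

theorem rnI_eq : rnI P k = Ideal.span ((fun s => monomial s (1 : k)) ''
    {s : P →₀ ℕ | ∃ x y : P, ¬ x ≤ y ∧ ¬ y ≤ x ∧ s = Finsupp.single x 1 + Finsupp.single y 1}) := by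
  unfold rnI
  congr 1
  ext f
  constructor
  · rintro ⟨x, y, h1, h2, rfl⟩
    refine ⟨_, ⟨x, y, h1, h2, rfl⟩, ?_⟩
    simp only
    unfold X
    rw [monomial_mul, one_mul]
  · rintro ⟨s, ⟨x, y, h1, h2, rfl⟩, rfl⟩
    refine ⟨x, y, h1, h2, ?_⟩
    simp only
    unfold X
    rw [monomial_mul, one_mul]

theorem rnI_coeff {i : MvPolynomial P k} (hi : i ∈ rnI P k) {F : Finset P} (hF : Ch F) :
    coeff (rnd F) i = 0 := by
  rw [rnI_eq, mem_ideal_span_monomial_image] at hi
  by_contra hne
  obtain ⟨s, ⟨x, y, h1, h2, rfl⟩, hle⟩ := hi (rnd F) (mem_support_iff.2 hne)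
  have hx : x ∈ F := by
    have := hle x
    rw [Finsupp.add_apply, Finsupp.single_eq_same, rnd_apply] at this
    by_contra hc
    rw [if_neg hc] at this
    omega
  have hy : y ∈ F := by
    have := hle y
    rw [Finsupp.add_apply, Finsupp.single_eq_same, rnd_apply] at this
    by_contra hc
    rw [if_neg hc] at this
    omega
  rcases hF x hx y hy with h | h
  · exact h1 h
  · exact h2 h

theorem rnI_mem_of_not_ch {G : Finset P} {x : P} (hG : Ch G) (hx : x ∉ G)
    (h : ¬ Ch (insert x G)) : rnm k (insert x G) ∈ rnI P k := by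
  have : ∃ y ∈ G, ¬ x ≤ y ∧ ¬ y ≤ x := by
    by_contra hcon
    push Not at hcon
    apply h
    intro a ha b hb
    rw [mem_insert] at ha hb
    rcases ha with rfl | ha <;> rcases hb with rfl | hb
    · exact Or.inl le_rfl
    · by_cases h1 : a ≤ b
      · exact Or.inl h1
      · exact Or.inr (hcon b hb h1)
    · by_cases h1 : b ≤ a
      · exact Or.inr h1
      · exact Or.inl (hcon a ha h1)
    · exact hG a ha b hb
  obtain ⟨y, hy, h1, h2⟩ := this
  have e1 : rnm k (insert x G) = (X x * X y) * rnm k (G.erase y) := by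
    rw [mul_assoc, rnm_X (notMem_erase y G), insert_erase hy, rnm_X hx]
  rw [e1]
  exact Ideal.mul_mem_right _ _ (Ideal.subset_span ⟨x, y, h1, h2, rfl⟩)

open Classical in
/-- chains with given colours -/
noncomputable def rnC (P : Type) [PartialOrder P] [Fintype P] [DecidableEq P] [GradeOrder ℕ P]
    (W : Finset ℕ) : Finset (Finset P) := univ.filter (fun F => Ch F ∧ col F = W)

theorem mem_rnC {W : Finset ℕ} {F : Finset P} : F ∈ rnC P W ↔ Ch F ∧ col F = W := by
  unfold rnC
  simp

theorem rn_lift {W : Finset ℕ} {l : ℕ} (hl : l ∉ W) (h : Finset P → k) :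
    rnT P k l * (∑ G ∈ rnC P W, C (h G) * rnm k G) -
      ∑ F ∈ rnC P (insert l W), C (h (rs W F)) * rnm k F ∈ rnI P k := by
  classical
  have e1 : rnT P k l * (∑ G ∈ rnC P W, C (h G) * rnm k G) =
      ∑ p ∈ (rnC P W) ×ˢ (univ.filter (fun x : P => grade ℕ x = l)),
        C (h p.1) * rnm k (insert p.2 p.1) := by
    unfold rnT
    rw [← sum_filter, sum_mul_sum, sum_product_right]
    refine sum_congr rfl fun x hx => sum_congr rfl fun G hG => ?_
    rw [mem_rnC] at hG
    rw [mem_filter] at hx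
    have hxG : x ∉ G := by
      intro hxG
      apply hl
      rw [← hG.2, mem_col]
      exact ⟨x, hxG, hx.2⟩
    change X x * (C (h G) * rnm k G) = C (h G) * rnm k (insert x G)
    rw [← rnm_X hxG]
    ring
  have e2 : ∑ F ∈ rnC P (insert l W), C (h (rs W F)) * rnm k F =
      ∑ p ∈ ((rnC P W) ×ˢ (univ.filter (fun x : P => grade ℕ x = l))).filter
        (fun p => Ch (insert p.2 p.1)), C (h p.1) * rnm k (insert p.2 p.1) := by
    symm
    have key : ∀ (G : Finset P) (x : P), Ch (insert x G) → col G = W → grade ℕ x = l →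
        rs W (insert x G) = G := by
      intro G x hc hG hx
      have hxG : x ∉ G := by
        intro hxG
        apply hl
        rw [← hG, mem_col]
        exact ⟨x, hxG, hx⟩
      have := rs_erase_insert hc hxG
      rw [col_insert, hG, hx, erase_insert hl] at this
      exact this
    refine sum_bij (fun p _ => insert p.2 p.1) ?_ ?_ ?_ ?_
    · rintro ⟨G, x⟩ hp
      simp only [mem_filter, mem_product, mem_rnC, mem_univ, true_and] at hp ⊢
      rw [col_insert, hp.1.1.2, hp.1.2]
      exact ⟨hp.2, rfl⟩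
    · rintro ⟨G, x⟩ hp ⟨G', x'⟩ hp' he
      simp only [mem_filter, mem_product, mem_rnC, mem_univ, true_and] at hp hp' he
      have h1 := key G x hp.2 hp.1.1.2 hp.1.2
      have h2 := key G' x' hp'.2 hp'.1.1.2 hp'.1.2
      have h3 : G = G' := by rw [← h1, ← h2, he]
      have h4 : x = x' := hp'.2.inj (by rw [← he]; exact mem_insert_self _ _)
        (mem_insert_self _ _) (by rw [hp.1.2, hp'.1.2])
      rw [h3, h4]
    · intro F hF
      rw [mem_rnC] at hF
      have : l ∈ col F := by rw [hF.2]; exact mem_insert_self _ _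
      rw [mem_col] at this
      obtain ⟨x, hx, hxl⟩ := this
      have hFe : insert x (rs W F) = F := by
        ext y
        rw [mem_insert, mem_rs]
        constructor
        · rintro (rfl | h)
          · exact hx
          · exact h.1
        · intro hy
          by_cases hyx : y = x
          · exact Or.inl hyx
          · right
            refine ⟨hy, ?_⟩
            have h5 : grade ℕ y ∈ col F := mem_col.2 ⟨y, hy, rfl⟩
            rw [hF.2, mem_insert] at h5
            rcases h5 with h5 | h5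
            · exact absurd (hF.1.inj hy hx (by rw [h5, hxl])) hyx
            · exact h5
      refine ⟨(rs W F, x), ?_, hFe⟩
      simp only [mem_filter, mem_product, mem_rnC, mem_univ, true_and]
      refine ⟨⟨⟨hF.1.mono (rs_subset _ _), ?_⟩, hxl⟩, ?_⟩
      · rw [col_rs, hF.2]
        exact inter_eq_right.2 (subset_insert _ _)
      · rw [hFe]; exact hF.1
    · rintro ⟨G, x⟩ hp
      simp only [mem_filter, mem_product, mem_rnC, mem_univ, true_and] at hp
      simp only
      rw [key G x hp.2 hp.1.1.2 hp.1.2]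
  rw [e1, e2, ← sum_filter_add_sum_filter_not ((rnC P W) ×ˢ (univ.filter (fun x : P => grade ℕ x = l)))
    (fun p => Ch (insert p.2 p.1)), add_sub_cancel_left]
  refine Ideal.sum_mem _ fun p hp => ?_
  simp only [mem_filter, mem_product, mem_rnC, mem_univ, true_and] at hp
  have hxG : p.2 ∉ p.1 := by
    intro hxG
    apply hl
    rw [← hp.1.1.2, mem_col]
    exact ⟨p.2, hxG, hp.1.2⟩
  exact Ideal.mul_mem_left _ _ (rnI_mem_of_not_ch hp.1.1.1 hxG hp.2)

theorem rn_coeff_theta (l : ℕ) (p : MvPolynomial P k) (F : Finset P) :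
    coeff (rnd F) (rnT P k l * p) =
      ∑ x ∈ F.filter (fun x => grade ℕ x = l), coeff (rnd (F.erase x)) p := by
  classical
  unfold rnT
  rw [← sum_filter, sum_mul, coeff_sum]
  simp only [coeff_X_mul', rnd_mem_support]
  rw [← sum_filter, filter_filter]
  have : univ.filter (fun x : P => grade ℕ x = l ∧ x ∈ F) = F.filter (fun x => grade ℕ x = l) := by
    ext x; simp only [mem_filter, mem_univ, true_and]; tauto
  rw [this]
  refine sum_congr rfl fun x hx => ?_
  rw [mem_filter] at hx
  rw [rnd_erase hx.1]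

theorem rn_span {j : ℕ} {w : MvPolynomial P k}
    (hw : w ∈ Ideal.span (rnT P k '' Set.Iio j)) :
    ∃ p : ℕ → MvPolynomial P k, w = ∑ l ∈ range j, rnT P k l * p l := by
  classical
  refine Submodule.span_induction ?_ ?_ ?_ ?_ hw
  · rintro _ ⟨l, hl, rfl⟩
    refine ⟨Pi.single l 1, ?_⟩
    rw [sum_eq_single l]
    · simp
    · intro b _ hb
      rw [Pi.single_eq_of_ne hb, mul_zero]
    · intro h
      exact absurd (mem_range.2 hl) h
  · exact ⟨0, by simp⟩
  · rintro x y _ _ ⟨p, rfl⟩ ⟨q, rfl⟩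
    refine ⟨p + q, ?_⟩
    rw [← sum_add_distrib]
    refine sum_congr rfl fun l _ => ?_
    rw [Pi.add_apply, mul_add]
  · rintro a x _ ⟨p, rfl⟩
    refine ⟨fun l => a * p l, ?_⟩
    rw [smul_eq_mul, mul_sum]
    refine sum_congr rfl fun l _ => ?_
    ring

theorem rn_reg (n : ℕ) 
    (hw : RingTheory.Sequence.IsWeaklyRegular
      (MvPolynomial P k ⧸ rnI P k)
      ((List.range n).map (fun i : ℕ => Ideal.Quotient.mk (rnI P k) (rnT P k i))))
    {j : ℕ} (hj : j < n) {f : MvPolynomial P k}
    (hf : rnT P k j * f ∈ Ideal.span (rnT P k '' Set.Iio j) ⊔ rnI P k) :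
    f ∈ Ideal.span (rnT P k '' Set.Iio j) ⊔ rnI P k := by
  have hlen : j < ((List.range n).map (fun i : ℕ =>
      Ideal.Quotient.mk (rnI P k) (rnT P k i))).length := by simpa using hj
  have h1 := hw.regular_mod_prev j hlen
  rw [isSMulRegular_quotient_iff_mem_of_smul_mem] at h1
  have h2 : (Ideal.ofList (((List.range n).map (fun i : ℕ =>
      Ideal.Quotient.mk (rnI P k) (rnT P k i))).take j) • ⊤ :
      Submodule (MvPolynomial P k ⧸ rnI P k) (MvPolynomial P k ⧸ rnI P k)) =
      (Ideal.span (rnT P k '' Set.Iio j)).map (Ideal.Quotient.mk (rnI P k)) := by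
    rw [smul_eq_mul, Ideal.mul_top, Ideal.map_span]
    unfold Ideal.ofList
    congr 1
    ext a
    rw [← List.map_take, List.take_range, min_eq_left hj.le]
    simp only [List.mem_map, List.mem_range, Set.mem_image, Set.mem_Iio]
    constructor
    · rintro ⟨b, hb, rfl⟩
      exact ⟨_, ⟨b, hb, rfl⟩, rfl⟩
    · rintro ⟨_, ⟨b, hb, rfl⟩, rfl⟩
      exact ⟨b, hb, rfl⟩
  rw [h2] at h1
  have h3 := h1 (Ideal.Quotient.mk (rnI P k) f)
  rw [Ideal.mem_quotient_iff_mem_sup] at h3
  apply h3
  have h4 : ((List.range n).map (fun i : ℕ =>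
      Ideal.Quotient.mk (rnI P k) (rnT P k i)))[j] = Ideal.Quotient.mk (rnI P k) (rnT P k j) := by
    simp
  rw [h4, smul_eq_mul, ← map_mul, Ideal.mem_quotient_iff_mem_sup]
  exact hf

end RN

/-- TARGET -/
theorem ring_nat (m : ℕ) (k : Type) [Field k]
    (hext : ∀ S ⊆ Icc 1 (2 * m), ∀ F : Finset P, Ch F → col F = S →
      ∃ M : Fc (Icc 1 (2 * m)) (∅ : Finset P), rs S M.1 = F)
    (hw : RingTheory.Sequence.IsWeaklyRegular
      (MvPolynomial P k ⧸ Ideal.span {f : MvPolynomial P k | ∃ x y : P, ¬ x ≤ y ∧ ¬ y ≤ x ∧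
        f = MvPolynomial.X x * MvPolynomial.X y})
      ((List.range (2 * m + 2)).map (fun i : ℕ =>
        Ideal.Quotient.mk (Ideal.span {f : MvPolynomial P k | ∃ x y : P, ¬ x ≤ y ∧ ¬ y ≤ x ∧
          f = MvPolynomial.X x * MvPolynomial.X y})
          (∑ x : P, if grade ℕ x = i then (MvPolynomial.X x : MvPolynomial P k) else 0)))) :
    ∀ S ⊆ Icc 1 (2 * m), ∀ j ∈ Icc 1 (2 * m), j ∉ S →
      CS k (Icc 1 (2 * m)) (∅ : Finset P) S ⊓
        Bd (CS k (Icc 1 (2 * m)) (∅ : Finset P)) (S.filter (fun l => l < j)) (insert j S) ≤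
      Bd (CS k (Icc 1 (2 * m)) (∅ : Finset P)) (S.filter (fun l => l < j)) S := by
  classical
  intro S hS j hj hjS f hf
  have hj2 : j < 2 * m + 2 := by have := (mem_Icc.1 hj).2; omega
  have hreg : ∀ f : MvPolynomial P k,
      rnT P k j * f ∈ Ideal.span (rnT P k '' Set.Iio j) ⊔ rnI P k →
      f ∈ Ideal.span (rnT P k '' Set.Iio j) ⊔ rnI P k :=
    fun f hf => rn_reg (P := P) (k := k) (2 * m + 2) hw hj2 hf
  set T := S.filter (fun l => l < j) with hT
  obtain ⟨hf1, hf2⟩ := hf
  obtain ⟨g, hg⟩ := mem_CS.1 hf1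
  obtain ⟨fl, hfl1, hfl2⟩ := (mem_Bd _ _ _ _).1 hf2
  have hex : ∀ l, ∃ gl : Finset P → k, l ∈ T → ∀ M : Fc (Icc 1 (2 * m)) (∅ : Finset P),
      fl l M = gl (rs ((insert j S).erase l) M.1) := by
    intro l
    by_cases hl : l ∈ T
    · obtain ⟨gl, hgl⟩ := mem_CS.1 (hfl1 l hl)
      exact ⟨gl, fun _ => hgl⟩
    · exact ⟨0, fun h => absurd h hl⟩
  choose gl hgl using hex
  have hTS : ∀ l ∈ T, l ∈ S ∧ l < j := fun l hl => mem_filter.1 hl
  have hjS' : insert j S ⊆ Icc 1 (2 * m) := insert_subset hj hS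
  -- (1)
  have h1 : ∀ F ∈ rnC P (insert j S), g (rs S F) =
      ∑ l ∈ T, gl l (rs ((insert j S).erase l) F) := by
    intro F hF
    rw [mem_rnC] at hF
    obtain ⟨M, hM⟩ := hext _ hjS' F hF.1 hF.2
    have e1 : rs S F = rs S M.1 := by rw [← hM, rs_rs_of_subset (subset_insert _ _)]
    rw [e1, ← hg M, ← hfl2, Finset.sum_apply]
    refine sum_congr rfl fun l hl => ?_
    rw [hgl l hl M, ← hM, rs_rs_of_subset (erase_subset _ _)]
  set gh : MvPolynomial P k := ∑ F ∈ rnC P S, MvPolynomial.C (g F) * rnm k F with hgh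
  have h2 : rnT P k j * gh ∈ Ideal.span (rnT P k '' Set.Iio j) ⊔ rnI P k := by
    have a1 := rn_lift (P := P) (k := k) hjS g
    have a2 : ∀ l ∈ T, rnT P k l * (∑ G ∈ rnC P ((insert j S).erase l),
        MvPolynomial.C (gl l G) * rnm k G) -
        ∑ F ∈ rnC P (insert j S), MvPolynomial.C (gl l (rs ((insert j S).erase l) F)) * rnm k F ∈
        rnI P k := by
      intro l hl
      have b1 := rn_lift (P := P) (k := k) (notMem_erase l (insert j S)) (gl l)
      rw [insert_erase (mem_insert_of_mem (hTS l hl).1)] at b1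
      exact b1
    have a3 : ∑ F ∈ rnC P (insert j S), MvPolynomial.C (g (rs S F)) * rnm k F =
        ∑ l ∈ T, ∑ F ∈ rnC P (insert j S),
          MvPolynomial.C (gl l (rs ((insert j S).erase l) F)) * rnm k F := by
      rw [sum_comm]
      refine sum_congr rfl fun F hF => ?_
      rw [h1 F hF, map_sum, sum_mul]
    have a4 : rnT P k j * gh = (rnT P k j * gh - ∑ F ∈ rnC P (insert j S),
        MvPolynomial.C (g (rs S F)) * rnm k F) -
        (∑ l ∈ T, (rnT P k l * (∑ G ∈ rnC P ((insert j S).erase l),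
        MvPolynomial.C (gl l G) * rnm k G) -
        ∑ F ∈ rnC P (insert j S),
          MvPolynomial.C (gl l (rs ((insert j S).erase l) F)) * rnm k F)) +
        ∑ l ∈ T, rnT P k l * (∑ G ∈ rnC P ((insert j S).erase l),
        MvPolynomial.C (gl l G) * rnm k G) := by
      rw [a3, sum_sub_distrib]; ring
    rw [a4]
    refine Ideal.add_mem _ (Ideal.sub_mem _ (Ideal.mem_sup_right a1)
      (Ideal.mem_sup_right (Ideal.sum_mem _ a2))) (Ideal.mem_sup_left (Ideal.sum_mem _ ?_))
    intro l hl
    exact Ideal.mul_mem_right _ _ (Ideal.subset_span ⟨l, (hTS l hl).2, rfl⟩)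
  have h3 := hreg _ h2
  obtain ⟨w, hw1, i, hi, hwi⟩ := Submodule.mem_sup.1 h3
  obtain ⟨p, rfl⟩ := rn_span hw1
  have h4 : ∀ F, Ch F → col F = S → g F = ∑ l ∈ T, MvPolynomial.coeff (rnd (rs (S.erase l) F)) (p l) := by
    intro F hF hFS
    have c1 : MvPolynomial.coeff (rnd F) gh = g F := by
      rw [hgh, MvPolynomial.coeff_sum, sum_eq_single F]
      · unfold rnm
        rw [MvPolynomial.coeff_C_mul, MvPolynomial.coeff_monomial, if_pos rfl, mul_one]
      · intro G _ hG
        unfold rnm
        rw [MvPolynomial.coeff_C_mul, MvPolynomial.coeff_monomial,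
          if_neg (fun h => hG (rnd_inj h)), mul_zero]
      · intro h
        exact absurd (mem_rnC.2 ⟨hF, hFS⟩) h
    rw [← c1, ← hwi, MvPolynomial.coeff_add, rnI_coeff hi hF, add_zero, MvPolynomial.coeff_sum]
    have c2 : ∀ l ∈ range j, MvPolynomial.coeff (rnd F) (rnT P k l * p l) =
        if l ∈ S then MvPolynomial.coeff (rnd (rs (S.erase l) F)) (p l) else 0 := by
      intro l _
      rw [rn_coeff_theta]
      split_ifs with hl
      · rw [← hFS, mem_col] at hl
        obtain ⟨x, hx, hxl⟩ := hl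
        rw [sum_eq_single x]
        · congr 2
          ext y
          rw [mem_erase, mem_rs, mem_erase]
          constructor
          · rintro ⟨hy1, hy2⟩
            refine ⟨hy2, ?_, ?_⟩
            · intro he
              exact hy1 (hF.inj hy2 hx (by rw [he, hxl]))
            · rw [← hFS]; exact mem_col.2 ⟨y, hy2, rfl⟩
          · rintro ⟨hy1, hy2, _⟩
            refine ⟨?_, hy1⟩
            rintro rfl
            exact hy2 hxl
        · intro y hy hne
          rw [mem_filter] at hy
          exact absurd (hF.inj hy.1 hx (by rw [hy.2, hxl])) hne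
        · intro h
          exact absurd (mem_filter.2 ⟨hx, hxl⟩) h
      · apply sum_eq_zero
        intro x hx
        rw [mem_filter] at hx
        exfalso
        apply hl
        rw [← hFS]
        exact mem_col.2 ⟨x, hx.1, hx.2⟩
    rw [sum_congr rfl c2, ← sum_filter]
    apply sum_congr _ (fun _ _ => rfl)
    ext l
    rw [hT, mem_filter, mem_filter, mem_range]
    tauto
  rw [mem_Bd]
  refine ⟨fun l M => MvPolynomial.coeff (rnd (rs (S.erase l) M.1)) (p l), ?_, ?_⟩
  · intro l _
    rw [mem_CS]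
    exact ⟨fun F => MvPolynomial.coeff (rnd F) (p l), fun M => rfl⟩
  · funext M
    rw [Finset.sum_apply, hg M]
    have hMc : Ch M.1 := M.2.1.mono subset_union_left
    rw [h4 (rs S M.1) (hMc.mono (rs_subset _ _)) (by
      rw [col_rs, M.2.2]; exact inter_eq_right.2 hS)]
    refine sum_congr rfl fun l _ => ?_
    rw [rs_rs_of_subset (erase_subset _ _)]

end Job


end J_ring_nat

end Pool.Agent.Helper236.CE
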