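import Pool.Agent.Helper236.CE.Basic

set_option autoImplicit false
set_option linter.unusedSectionVars false
set_option linter.style.longLine false

namespace Pool.Agent.Helper236.CE

open Finset


namespace J_thin_fc

section Job

variable {P : Type} [PartialOrder P] [Fintype P] [DecidableEq P] [BoundedOrder P] [GradeOrder ℕ P]



theorem eul_two (hE : Eul P) (a b : P) (t : ℕ) (ha : grade ℕ a + 1 = t) (hb : grade ℕ b = t + 1)
    (hab : a < b) [DecidablePred fun z : P => a ≤ z ∧ z ≤ b ∧ grade ℕ z = t] :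
    (univ.filter (fun z : P => a ≤ z ∧ z ≤ b ∧ grade ℕ z = t)).card = 2 := by
  classical
  have h := hE a b hab
  rw [Nat.card_eq_fintype_card, Nat.card_eq_fintype_card, Fintype.card_subtype,
    Fintype.card_subtype] at h
  have hcl : ∀ z, a ≤ z → z ≤ b → z = a ∨ z = b ∨ grade ℕ z = t := by
    intro z h1 h2
    rcases h1.eq_or_lt with h3 | h3
    · exact Or.inl h3.symm
    rcases h2.eq_or_lt with h4 | h4
    · exact Or.inr (Or.inl h4)
    have h5 := grade_strictMono (𝕆 := ℕ) h3
    have h6 := grade_strictMono (𝕆 := ℕ) h4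
    right; right; omega
  have hpair : (({a, b} : Finset P)).card = 2 := card_pair hab.ne
  by_cases ht : Even t
  · have e1 : (univ.filter (fun z : P => a ≤ z ∧ z ≤ b ∧ Even (grade ℕ z))) =
        univ.filter (fun z : P => a ≤ z ∧ z ≤ b ∧ grade ℕ z = t) := by
      ext z
      simp only [mem_filter, mem_univ, true_and]
      constructor
      · rintro ⟨h1, h2, h3⟩
        rcases hcl z h1 h2 with rfl | rfl | h4
        · exfalso; rw [← ha, Nat.even_add_one] at ht; exact ht h3
        · exfalso; rw [hb, Nat.even_add_one] at h3; exact h3 ht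
        · exact ⟨h1, h2, h4⟩
      · rintro ⟨h1, h2, h3⟩
        exact ⟨h1, h2, by rwa [h3]⟩
    have e2 : (univ.filter (fun z : P => a ≤ z ∧ z ≤ b ∧ ¬ Even (grade ℕ z))) = {a, b} := by
      ext z
      simp only [mem_filter, mem_univ, true_and, mem_insert, mem_singleton]
      constructor
      · rintro ⟨h1, h2, h3⟩
        rcases hcl z h1 h2 with h4 | h4 | h4
        · exact Or.inl h4
        · exact Or.inr h4
        · exfalso; rw [h4] at h3; exact h3 ht
      · rintro (rfl | rfl)
        · refine ⟨le_rfl, hab.le, ?_⟩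
          rw [← ha, Nat.even_add_one] at ht; exact ht
        · refine ⟨hab.le, le_rfl, ?_⟩
          rw [hb, Nat.even_add_one]; exact fun h => h ht
    rw [e2, hpair] at h
    rw [← h]
    congr 1
    rw [e1]
  · have e1 : (univ.filter (fun z : P => a ≤ z ∧ z ≤ b ∧ ¬ Even (grade ℕ z))) =
        univ.filter (fun z : P => a ≤ z ∧ z ≤ b ∧ grade ℕ z = t) := by
      ext z
      simp only [mem_filter, mem_univ, true_and]
      constructor
      · rintro ⟨h1, h2, h3⟩
        rcases hcl z h1 h2 with rfl | rfl | h4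
        · exfalso; rw [← ha, Nat.even_add_one] at ht; exact ht h3
        · exfalso; rw [hb, Nat.even_add_one] at h3; exact h3 ht
        · exact ⟨h1, h2, h4⟩
      · rintro ⟨h1, h2, h3⟩
        exact ⟨h1, h2, by rwa [h3]⟩
    have e2 : (univ.filter (fun z : P => a ≤ z ∧ z ≤ b ∧ Even (grade ℕ z))) = {a, b} := by
      ext z
      simp only [mem_filter, mem_univ, true_and, mem_insert, mem_singleton]
      constructor
      · rintro ⟨h1, h2, h3⟩
        rcases hcl z h1 h2 with h4 | h4 | h4
        · exact Or.inl h4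
        · exact Or.inr h4
        · exfalso; rw [h4] at h3; exact ht h3
      · rintro (rfl | rfl)
        · refine ⟨le_rfl, hab.le, ?_⟩
          rw [← ha, Nat.even_add_one, not_not] at ht; exact ht
        · refine ⟨hab.le, le_rfl, ?_⟩
          rw [hb, Nat.even_add_one]; exact ht
    rw [e2, hpair] at h
    rw [h]
    congr 1
    rw [e1]

/-- TARGET -/
theorem thin_fc (h0 : grade ℕ (⊥ : P) = 0) (hE : Eul P) (p q : ℕ) (Q : Finset P) (hQc : Ch Q)
    (hQ : col Q = ({p, q} : Finset ℕ).erase 0) :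
    ∀ t ∈ Ioo p q, ∀ M : Fc (Ioo p q) Q,
      (univ.filter (fun M' : Fc (Ioo p q) Q =>
        rs ((Ioo p q).erase t) M'.1 = rs ((Ioo p q).erase t) M.1)).card = 2 := by
  classical
  intro t ht M
  have hMc := M.2.1
  have hMcol := M.2.2
  obtain ⟨htp, htq⟩ := mem_Ioo.1 ht
  set R := rs ((Ioo p q).erase t) M.1 with hR
  have hRM : R ⊆ M.1 := rs_subset _ _
  have hRQ : R ∪ Q ⊆ M.1 ∪ Q := union_subset_union_left hRM
  have hRc : Ch (R ∪ Q) := hMc.mono hRQ
  have hgR : ∀ y ∈ R, grade ℕ y ≠ t ∧ p < grade ℕ y ∧ grade ℕ y < q := by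
    intro y hy
    have := (mem_rs.1 hy).2
    rw [mem_erase, mem_Ioo] at this
    exact this
  have hgQ : ∀ y ∈ Q, grade ℕ y ≠ 0 ∧ (grade ℕ y = p ∨ grade ℕ y = q) := by
    intro y hy
    have : grade ℕ y ∈ col Q := mem_col.2 ⟨y, hy, rfl⟩
    rw [hQ, mem_erase, mem_insert, mem_singleton] at this
    exact this
  have hgRQ : ∀ y ∈ R ∪ Q, grade ℕ y ≠ t := by
    intro y hy
    rcases mem_union.1 hy with h | h
    · exact (hgR y h).1
    · rcases (hgQ y h).2 with h1 | h1 <;> omega
  -- the element below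
  obtain ⟨a, hat, haz, hay⟩ : ∃ a : P, grade ℕ a + 1 = t ∧
      (∀ F : Finset P, Ch (F ∪ Q) → R ⊆ F → ∀ z ∈ F ∪ Q, t ≤ grade ℕ z → a < z) ∧
      (∀ y ∈ R ∪ Q, grade ℕ y < t → y ≤ a) := by
    have main : ∀ a ∈ R ∪ Q, grade ℕ a + 1 = t → ∃ a : P, grade ℕ a + 1 = t ∧
      (∀ F : Finset P, Ch (F ∪ Q) → R ⊆ F → ∀ z ∈ F ∪ Q, t ≤ grade ℕ z → a < z) ∧
      (∀ y ∈ R ∪ Q, grade ℕ y < t → y ≤ a) := by
      intro a ha hat
      refine ⟨a, hat, ?_, ?_⟩
      · intro F hF hRF z hz hzt
        exact hF.lt (union_subset_union_left hRF ha) hz (by omega)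
      · intro y hy hyt
        by_cases h : grade ℕ y = grade ℕ a
        · exact (hRc.inj hy ha h).le
        · exact (hRc.lt hy ha (by omega)).le
    by_cases h1 : p + 1 < t
    · have : t - 1 ∈ col M.1 := by rw [hMcol, mem_Ioo]; omega
      obtain ⟨a, ha, hg⟩ := mem_col.1 this
      refine main a (mem_union_left _ ?_) (by omega)
      rw [hR, mem_rs]
      refine ⟨ha, ?_⟩
      rw [mem_erase, mem_Ioo]; omega
    · by_cases h2 : p = 0
      · refine ⟨⊥, by rw [h0]; omega, ?_, ?_⟩
        · intro F _ _ z _ hzt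
          apply bot_lt_iff_ne_bot.2
          rintro rfl
          omega
        · intro y hy hyt
          exfalso
          rcases mem_union.1 hy with h | h
          · have := hgR y h; omega
          · have := (hgQ y h).1; omega
      · have : p ∈ col Q := by rw [hQ, mem_erase]; exact ⟨h2, mem_insert_self _ _⟩
        obtain ⟨a, ha, hg⟩ := mem_col.1 this
        exact main a (mem_union_right _ ha) (by omega)
  -- the element above
  obtain ⟨b, hb, hbt⟩ : ∃ b ∈ R ∪ Q, grade ℕ b = t + 1 := by
    by_cases h1 : t + 1 < q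
    · have : t + 1 ∈ col M.1 := by rw [hMcol, mem_Ioo]; omega
      obtain ⟨b, hb, hg⟩ := mem_col.1 this
      refine ⟨b, mem_union_left _ ?_, hg⟩
      rw [hR, mem_rs]
      refine ⟨hb, ?_⟩
      rw [mem_erase, mem_Ioo]; omega
    · have : q ∈ col Q := by
        rw [hQ, mem_erase]; exact ⟨by omega, mem_insert_of_mem (mem_singleton_self _)⟩
      obtain ⟨b, hb, hg⟩ := mem_col.1 this
      exact ⟨b, mem_union_right _ hb, by omega⟩
  have hbz : ∀ F : Finset P, Ch (F ∪ Q) → R ⊆ F → ∀ z ∈ F ∪ Q, grade ℕ z ≤ t → z < b := by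
    intro F hF hRF z hz hzt
    exact hF.lt hz (union_subset_union_left hRF hb) (by omega)
  have hby : ∀ y ∈ R ∪ Q, t < grade ℕ y → b ≤ y := by
    intro y hy hyt
    by_cases h : grade ℕ y = grade ℕ b
    · exact (hRc.inj hy hb h).ge
    · exact (hRc.lt hb hy (by omega)).le
  have hab : a < b := haz M.1 hMc hRM b (hRQ hb) (by omega)
  have hZ := eul_two hE a b t hat hbt hab
  rw [← hZ]
  symm
  have hmk : ∀ z : P, a ≤ z → z ≤ b → grade ℕ z = t →
      Ch (insert z R ∪ Q) ∧ col (insert z R) = Ioo p q := by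
    intro z hz1 hz2 hzt
    constructor
    · have hzy : ∀ y ∈ R ∪ Q, z ≤ y ∨ y ≤ z := by
        intro y hy
        rcases lt_or_gt_of_ne (hgRQ y hy) with h | h
        · right; exact (hay y hy h).trans hz1
        · left; exact hz2.trans (hby y hy h)
      intro x hx y hy
      rw [insert_union, mem_insert] at hx hy
      rcases hx with rfl | hx <;> rcases hy with rfl | hy
      · exact Or.inl le_rfl
      · exact hzy y hy
      · exact (hzy x hx).symm
      · exact hRc x hx y hy
    · rw [col_insert, hzt, hR, col_rs, hMcol, inter_eq_right.2 (erase_subset _ _), insert_erase ht]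
  refine Finset.card_bij (fun z hz => ⟨insert z R, hmk z (mem_filter.1 hz).2.1
    (mem_filter.1 hz).2.2.1 (mem_filter.1 hz).2.2.2⟩) ?_ ?_ ?_
  · intro z hz
    have hzt := (mem_filter.1 hz).2.2.2
    rw [mem_filter]
    refine ⟨mem_univ _, ?_⟩
    show rs ((Ioo p q).erase t) (insert z R) = R
    ext y
    rw [mem_rs, mem_insert]
    constructor
    · rintro ⟨rfl | hy, h2⟩
      · rw [hzt] at h2; exact absurd rfl (ne_of_mem_erase h2)
      · exact hy
    · intro hy
      exact ⟨Or.inr hy, (mem_rs.1 hy).2⟩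
  · intro z hz z' hz' he
    have hzt := (mem_filter.1 hz).2.2.2
    have he' : insert z R = insert z' R := congrArg Subtype.val he
    have : z ∈ insert z' R := by rw [← he']; exact mem_insert_self _ _
    rcases mem_insert.1 this with h | h
    · exact h
    · exact absurd hzt (hgR z h).1
  · intro M' hM'
    have hM'R : rs ((Ioo p q).erase t) M'.1 = R := (mem_filter.1 hM').2
    have hRM' : R ⊆ M'.1 := by rw [← hM'R]; exact rs_subset _ _
    have hM'c := M'.2.1
    have hM'col := M'.2.2
    have : t ∈ col M'.1 := by rw [hM'col]; exact ht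
    obtain ⟨z, hz, hzt⟩ := mem_col.1 this
    have hz1 : a ≤ z := (haz M'.1 hM'c hRM' z (mem_union_left _ hz) hzt.ge).le
    have hz2 : z ≤ b := (hbz M'.1 hM'c hRM' z (mem_union_left _ hz) hzt.le).le
    refine ⟨z, mem_filter.2 ⟨mem_univ _, hz1, hz2, hzt⟩, ?_⟩
    apply Subtype.ext
    show insert z R = M'.1
    ext y
    rw [mem_insert]
    constructor
    · rintro (rfl | hy)
      · exact hz
      · exact hRM' hy
    · intro hy
      by_cases hyt : grade ℕ y = t
      · left
        exact hM'c.inj (mem_union_left _ hy) (mem_union_left _ hz) (by rw [hyt, hzt])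
      · right
        rw [← hM'R, mem_rs]
        refine ⟨hy, ?_⟩
        rw [mem_erase, ← hM'col, mem_col]
        exact ⟨hyt, y, hy, rfl⟩

end Job


end J_thin_fc

end Pool.Agent.Helper236.CE
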