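import Pool.Agent.Helper236.CE.Basic
import Pool.Agent.Helper236.CE.J_aw

set_option autoImplicit false
set_option linter.unusedSectionVars false
set_option linter.style.longLine false

namespace Pool.Agent.Helper236.CE

open Finset
open J_aw (aw)


namespace J_w_thm

section Job

variable {P : Type} [PartialOrder P] [Fintype P] [DecidableEq P] [BoundedOrder P] [GradeOrder ℕ P]



omit [Fintype P] [DecidableEq P] [BoundedOrder P] in
theorem card_even_odd (p q : ℕ) (hp : Even p) (hq : Even q) (hpq : p < q) :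
    ((Ioo p q).filter (fun t => Even t)).card < ((Ioo p q).filter (fun t => ¬ Even t)).card := by
  have h1 : ((Ioo p q).filter (fun t => Even t)).image (fun t => t - 1) ⊆
      ((Ioo p q).filter (fun t => ¬ Even t)).erase (q - 1) := by
    intro s hs
    rw [mem_image] at hs
    obtain ⟨t, ht, rfl⟩ := hs
    rw [mem_filter, mem_Ioo] at ht
    rw [mem_erase, mem_filter, mem_Ioo]
    obtain ⟨a, ha⟩ := hp
    obtain ⟨b, hb⟩ := hq
    obtain ⟨⟨h1, h2⟩, e, he⟩ := ht
    refine ⟨by omega, by omega, ?_⟩
    rintro ⟨f, hf⟩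
    omega
  have h2 : (((Ioo p q).filter (fun t => Even t)).image (fun t => t - 1)).card =
      ((Ioo p q).filter (fun t => Even t)).card := by
    apply card_image_of_injOn
    intro a ha b hb hab
    rw [mem_coe, mem_filter, mem_Ioo] at ha hb
    simp only at hab
    omega
  have h3 : q - 1 ∈ (Ioo p q).filter (fun t => ¬ Even t) := by
    rw [mem_filter, mem_Ioo]
    obtain ⟨a, ha⟩ := hp
    obtain ⟨b, hb⟩ := hq
    refine ⟨by omega, ?_⟩
    rintro ⟨f, hf⟩
    omega
  have h4 := card_le_card h1
  rw [h2, card_erase_of_mem h3] at h4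
  have h5 := card_pos.2 ⟨_, h3⟩
  omega

theorem prod_cj {K : Type} [Field K] (c : P → K) (U O : Finset ℕ) (hO : O ⊆ U) (Q : Finset P)
    (M : Fc U Q) : ∏ j ∈ O, cj c U Q j M = ∏ x ∈ rs O M.1, c x := by
  rw [← prod_fiberwise_of_maps_to (s := rs O M.1) (t := O) (g := fun x => grade ℕ x)
    (fun x hx => (mem_rs.1 hx).2)]
  refine prod_congr rfl (fun j hj => ?_)
  have hM : Ch M.1 := M.2.1.mono subset_union_left
  have hj' : j ∈ col M.1 := by rw [M.2.2]; exact hO hj
  obtain ⟨x, hx, hxj⟩ := mem_col.1 hj'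
  have h1 : rs {j} M.1 = {x} := by
    ext y
    rw [mem_rs, mem_singleton, mem_singleton]
    constructor
    · rintro ⟨hy, hyj⟩; exact hM.inj hy hx (hyj.trans hxj.symm)
    · rintro rfl; exact ⟨hx, hxj⟩
  have h2 : (rs O M.1).filter (fun x => grade ℕ x = j) = {x} := by
    rw [← h1]
    ext y
    rw [mem_filter, mem_rs, mem_rs, mem_singleton]
    constructor
    · rintro ⟨⟨hy, _⟩, hyj⟩; exact ⟨hy, hyj⟩
    · rintro ⟨hy, hyj⟩; exact ⟨⟨hy, by rw [hyj]; exact hj⟩, hyj⟩
  rw [cj, h1, h2, sum_singleton, prod_singleton]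

/-- TARGET -/
theorem w_thm {K : Type} [Field K] [CharP K 2] (c : P → K)
    (hgen : ∀ (𝒮 : Finset (Finset P)) (s : Finset P → K),
      ∑ F ∈ 𝒮, (∏ x ∈ F, c x) * (s F) ^ 2 = 0 → ∀ F ∈ 𝒮, s F = 0)
    (p q : ℕ) (hp : Even p) (hq : Even q) (hpq : p < q) (Q : Finset P)
    (hreg : Reg (CS K (Ioo p q) Q) (Ioo p q))
    (hthin : ∀ t ∈ Ioo p q, ∀ M : Fc (Ioo p q) Q,
      (univ.filter (fun M' : Fc (Ioo p q) Q =>
        rs ((Ioo p q).erase t) M'.1 = rs ((Ioo p q).erase t) M.1)).card = 2)
    (hconn : ∀ ζ : Fc (Ioo p q) Q → K,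
      (∀ d ∈ (Ioo p q).filter (fun t => Even t), ζ ∈ CS K (Ioo p q) Q ((Ioo p q).erase d)) →
      ζ ∈ CS K (Ioo p q) Q ((Ioo p q).filter (fun t => ¬ Even t))) :
    ∀ u ∈ CS K (Ioo p q) Q ((Ioo p q).filter (fun t => Even t)),
      (∀ j ∈ (Ioo p q).filter (fun t => ¬ Even t), cj c (Ioo p q) Q j * u ∈
        Bd (CS K (Ioo p q) Q) (insert j ((Ioo p q).filter (fun t => Even t)))
          (insert j ((Ioo p q).filter (fun t => Even t)))) →
      u ∈ Bd (CS K (Ioo p q) Q) ((Ioo p q).filter (fun t => Even t))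
        ((Ioo p q).filter (fun t => Even t)) := by
  intro u hu hcu
  have hcard := card_even_odd p q hp hq hpq
  have hDOu : (Ioo p q).filter (fun t => Even t) ∪ (Ioo p q).filter (fun t => ¬ Even t) = Ioo p q :=
    filter_union_filter_not_eq _ _
  have hdis : Disjoint ((Ioo p q).filter (fun t => Even t)) ((Ioo p q).filter (fun t => ¬ Even t)) :=
    disjoint_filter_filter_not _ _ _
  generalize (Ioo p q).filter (fun t => Even t) = D at *
  generalize (Ioo p q).filter (fun t => ¬ Even t) = O at *
  generalize Ioo p q = U at *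
  have hDU : D ⊆ U := by rw [← hDOu]; exact subset_union_left
  have hOU : O ⊆ U := by rw [← hDOu]; exact subset_union_right
  have hC : Monotone (CS K U Q) := CS_mono U Q
  have h2 : ∀ v : K, v + v = 0 := fun v => CharTwo.add_self_eq_zero v
  -- vanishing sums
  have hsum : ∀ A ⊆ D ∪ O, ∀ t ∈ D ∪ O, t ∉ A → ∀ f ∈ CS K U Q A, ∑ M, f M = 0 := by
    intro A hA t ht htA f hf
    rw [hDOu] at hA ht
    have hf' : f ∈ CS K U Q (U.erase t) := hC (fun a ha => mem_erase.2 ⟨by
      rintro rfl; exact htA ha, hA ha⟩) hf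
    rw [mem_CS_iff] at hf'
    rw [← sum_fiberwise_of_maps_to (s := univ) (t := univ.image (fun M : Fc U Q => rs (U.erase t) M.1))
      (g := fun M : Fc U Q => rs (U.erase t) M.1) (fun M hM => mem_image_of_mem _ hM)]
    apply sum_eq_zero
    intro F hF
    rw [mem_image] at hF
    obtain ⟨M, -, rfl⟩ := hF
    rw [sum_congr rfl (g := fun _ => f M) (fun M' hM' => hf' M' M (mem_filter.1 hM').2), sum_const,
      hthin t ht M, two_smul, h2]
  have h1 := aw D O hdis hcard (CS K U Q) hC (CS_one U Q) (CS_mul U Q) (fun j => cj c U Q j)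
    (fun j _ => cj_mem c U Q j) hsum (by rw [hDOu]; exact hreg) u hu hcu
  -- the sums over the fibres vanish
  have hs : ∀ F : Finset P, ∑ M ∈ univ.filter (fun M : Fc U Q => rs O M.1 = F), u M = 0 := by
    have h3 : ∑ F ∈ (univ : Finset (Finset P)), (∏ x ∈ F, c x) *
        (∑ M ∈ univ.filter (fun M : Fc U Q => rs O M.1 = F), u M) ^ 2 = 0 := by
      rw [← h1]
      rw [← sum_fiberwise_of_maps_to (s := (univ : Finset (Fc U Q))) (t := (univ : Finset (Finset P)))
        (g := fun M : Fc U Q => rs O M.1) (fun M _ => mem_univ _)]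
      refine sum_congr rfl (fun F _ => ?_)
      rw [CharTwo.sum_sq, mul_sum]
      refine sum_congr rfl (fun M hM => ?_)
      rw [prod_cj c U O hOU Q M, (mem_filter.1 hM).2]
    intro F
    exact hgen univ _ h3 F (mem_univ F)
  -- step (3)
  have hU : u ∈ Bd (CS K U Q) D U := by
    by_contra hcon
    obtain ⟨ζ, hz1, hz2⟩ := sep _ u hcon
    have hz3 : ∀ d ∈ D, ζ ∈ CS K U Q (U.erase d) := by
      intro d hd
      rw [mem_CS_iff]
      intro M M' hMM
      by_cases hne : M = M'
      · rw [hne]
      · have hf : (fun N : Fc U Q => if rs (U.erase d) N.1 = rs (U.erase d) M.1 then (1 : K) else 0) ∈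
            CS K U Q (U.erase d) := by
          rw [mem_CS]
          exact ⟨fun F => if F = rs (U.erase d) M.1 then (1 : K) else 0, fun N => rfl⟩
        have h4 := hz1 _ (le_Bd (CS K U Q) U hd hf)
        have h5 : univ.filter (fun N : Fc U Q => rs (U.erase d) N.1 = rs (U.erase d) M.1) =
            {M, M'} := by
          symm
          apply eq_of_subset_of_card_le
          · intro N hN
            rw [mem_insert, mem_singleton] at hN
            rw [mem_filter]
            rcases hN with rfl | rfl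
            · exact ⟨mem_univ _, rfl⟩
            · exact ⟨mem_univ _, hMM.symm⟩
          · rw [hthin d (hDU hd) M, card_pair hne]
        simp only [mul_ite, mul_one, mul_zero] at h4
        rw [← sum_filter, h5, sum_pair hne] at h4
        exact CharTwo.add_eq_zero.1 h4
    have hz4 := hconn ζ hz3
    rw [mem_CS] at hz4
    obtain ⟨g, hg⟩ := hz4
    apply hz2
    rw [← sum_fiberwise_of_maps_to (s := (univ : Finset (Fc U Q))) (t := (univ : Finset (Finset P)))
      (g := fun M : Fc U Q => rs O M.1) (fun M _ => mem_univ _)]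
    apply sum_eq_zero
    intro F _
    rw [sum_congr rfl (g := fun M => g F * u M) (fun M hM => by
      rw [hg M, (mem_filter.1 hM).2]), ← mul_sum, hs F, mul_zero]
  -- step (4)
  have hrem : ∀ O' : Finset ℕ, O' ⊆ O → u ∈ Bd (CS K U Q) D (D ∪ (O \ O')) := by
    intro O'
    induction O' using Finset.induction_on with
    | empty =>
      intro _
      rw [sdiff_empty, hDOu]
      exact hU
    | insert j O' hj ih =>
      intro hsub
      have h5 := ih (fun x hx => hsub (mem_insert_of_mem hx))
      have hjO : j ∈ O := hsub (mem_insert_self j O')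
      have hjD : j ∉ D := fun h => (disjoint_left.1 hdis) h hjO
      have h6 : insert j (D ∪ (O \ insert j O')) = D ∪ (O \ O') := by
        ext x
        simp only [mem_insert, mem_union, mem_sdiff]
        constructor
        · rintro (rfl | h | ⟨h, h'⟩)
          · exact Or.inr ⟨hjO, hj⟩
          · exact Or.inl h
          · exact Or.inr ⟨h, fun hx => h' (Or.inr hx)⟩
        · rintro (h | ⟨h, h'⟩)
          · exact Or.inr (Or.inl h)
          · by_cases hxj : x = j
            · exact Or.inl hxj
            · exact Or.inr (Or.inr ⟨h, by rintro (h1 | h1); exact hxj h1; exact h' h1⟩)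
      rw [← h6] at h5
      have h7 : D ∪ (O \ insert j O') ⊆ U := by
        intro x hx
        rw [mem_union, mem_sdiff] at hx
        rcases hx with hx | hx
        · exact hDU hx
        · exact hOU hx.1
      have h8 : j ∉ D ∪ (O \ insert j O') := by
        rw [mem_union, mem_sdiff]
        rintro (h | h)
        · exact hjD h
        · exact h.2 (mem_insert_self j O')
      exact hreg _ h7 D subset_union_left j (hOU hjO) h8 ⟨hC subset_union_left hu, h5⟩
  have h9 := hrem O (Subset.refl O)
  rwa [sdiff_self, bot_eq_empty, union_empty] at h9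

end Job


end J_w_thm

end Pool.Agent.Helper236.CE
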