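import Pool.Agent.Helper236.CE.Basic
import Pool.Agent.Helper236.CE.J_reg_all
import Pool.Agent.Helper236.CE.J_extend_fc
import Pool.Agent.Helper236.CE.J_thin_fc
import Pool.Agent.Helper236.CE.J_conn_fc
import Pool.Agent.Helper236.CE.J_gdl
import Pool.Agent.Helper236.CE.J_reg_link
import Pool.Agent.Helper236.CE.J_reg_descent
import Pool.Agent.Helper236.CE.J_ring_nat
import Pool.Agent.Helper236.CE.J_step
import Pool.Agent.Helper236.CE.J_base_case
import Pool.Agent.Helper236.CE.J_lift_z
import Pool.Agent.Helper236.CE.J_filt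
import Pool.Agent.Helper236.CE.J_base_change
import Pool.Agent.Helper236.CE.J_bridge
import Pool.Agent.Helper236.CE.J_koszul_family
import Pool.Agent.Helper236.CE.J_aw
import Pool.Agent.Helper236.CE.J_w_thm
import Pool.Agent.Helper236.CE.J_koszul
import Pool.Agent.Helper236.CE.J_parity
import Pool.Agent.Helper236.CE.J_gen_indep

set_option autoImplicit false
set_option linter.unusedSectionVars false
set_option linter.style.longLine false

namespace Pool.Agent.Helper236.CE

open Finset
open J_reg_all (reg_all)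
open J_extend_fc (extend_fc)
open J_thin_fc (thin_fc)
open J_conn_fc (conn_fc)
open J_gdl (gdl)
open J_reg_link (reg_link)
open J_reg_descent (reg_descent)
open J_ring_nat (ring_nat)
open J_step (step)
open J_base_case (base_case)
open J_lift_z (lift_z)
open J_filt (filt)
open J_base_change (base_change)
open J_bridge (bridge)
open J_koszul_family (koszul_family)
open J_aw (aw)
open J_w_thm (w_thm)
open J_koszul (koszul)
open J_parity (parity)
open J_gen_indep (gen_indep)


section Top

variable {P : Type} [PartialOrder P] [Fintype P] [DecidableEq P] [BoundedOrder P] [GradeOrder ℕ P]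

theorem wt_one_singleton (K : Type) [Field K] (i : ℕ) :
    wt (fun _ : P => (1 : K)) {i} = th K i := by
  funext x; simp [wt, th]

theorem hext_facet (m : ℕ) (h0 : grade ℕ (⊥ : P) = 0) (h1 : grade ℕ (⊤ : P) = 2 * m + 1)
    (F : Finset P) (hF : Ch F) (hc : col F ⊆ Icc 1 (2 * m)) :
    ∃ M : Fc (Icc 1 (2 * m)) (∅ : Finset P), F ⊆ M.1 := by
  obtain ⟨M, hM⟩ := extend_fc (P := P) (Icc 1 (2 * m)) ∅ (by simp [col]) h0
    (fun v hv => by rw [mem_Icc] at hv; omega) (col F) hc F (by simpa using hF) rfl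
  refine ⟨M, ?_⟩
  rw [← hM]; exact rs_subset _ _

theorem wstar {K : Type} [Field K] [CharP K 2] (m : ℕ) (h0 : grade ℕ (⊥ : P) = 0)
    (h1 : grade ℕ (⊤ : P) = 2 * m + 1) (hE : Eul P) (c : P → K)
    (hgen : ∀ (𝒮 : Finset (Finset P)) (s : Finset P → K),
      ∑ F ∈ 𝒮, (∏ x ∈ F, c x) * (s F) ^ 2 = 0 → ∀ F ∈ 𝒮, s F = 0)
    (hreg : Reg (CS K (Icc 1 (2 * m)) (∅ : Finset P)) (Icc 1 (2 * m)))
    (p q : ℕ) (hp : Even p) (hq : Even q) (hpq : p < q) (hqm : q ≤ 2 * m) : WStar c p q := by
  intro Q hQc hQ ζ hζ hζk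
  have hU : Ioo p q ⊆ Icc 1 (2 * m) := by
    intro t ht; rw [mem_Ioo] at ht; rw [mem_Icc]; omega
  have hQs : col Q ⊆ Icc 1 (2 * m) := by
    rw [hQ]; intro t ht
    simp only [mem_erase, mem_insert, mem_singleton] at ht
    rw [mem_Icc]; omega
  have hd : Disjoint (Ioo p q) (col Q) := by
    rw [hQ, disjoint_left]; intro t ht ht'
    simp only [mem_erase, mem_insert, mem_singleton] at ht'
    rw [mem_Ioo] at ht; omega
  have hregU : Reg (CS K (Ioo p q) Q) (Ioo p q) :=
    reg_link (Icc 1 (2 * m)) (Ioo p q) Q hU hQs hd hQc (hext_facet m h0 h1) hreg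
  have hW := w_thm c hgen p q hp hq hpq Q hregU (thin_fc h0 hE p q Q hQc hQ)
    (conn_fc p q hp hq Q)
  have hext := extend_fc (P := P) (Ioo p q) Q hd h0 (fun v hv => by
    rw [mem_Ioo] at hv; omega)
  obtain ⟨w, hw1, hw2, hw3⟩ := gdl (Ioo p q) Q hext ((Ioo p q).filter (fun t => Even t))
    (filter_subset _ _) ((Ioo p q).filter (fun t => Even t)) (Subset.refl _)
    ((Ioo p q).filter (fun t => ¬ Even t)) (filter_subset _ _)
    (by
      rw [disjoint_left]; intro t ht ht'
      rw [mem_filter] at ht ht'; exact ht.2 ht'.2)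
    (fun j => insert j ((Ioo p q).filter (fun t => Even t))) (fun j _ => Subset.refl _) c hW ζ hζ hζk
  refine ⟨∑ j ∈ (Ioo p q).filter (fun t => ¬ Even t), w j, ?_, ?_, ?_⟩
  · intro G hG
    rw [Finset.sum_apply] at hG
    obtain ⟨j, hj, hne⟩ := exists_ne_zero_of_sum_ne_zero hG
    have := hw1 j hj G hne
    rw [mem_filter] at hj
    exact ⟨this.1, j, hj.1, hj.2, this.2⟩
  · intro l hl
    rw [bd_sum]
    refine sum_eq_zero (fun j hj => ?_)
    by_cases hlD : l ∈ insert j ((Ioo p q).filter (fun t => Even t))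
    · exact hw2 j hj l hlD
    · funext F
      by_contra hne
      obtain ⟨x, hx, hx1, hx2⟩ := bd_ne_zero hne
      have h3 := (hw1 j hj _ hx2).2
      apply hlD
      rw [← h3, col_insert]
      have : grade ℕ x = l := by
        by_contra h4; apply hx1; simp [th, h4]
      rw [this]; exact mem_insert_self _ _
  · rw [bd_sum, ← hw3]
    refine sum_congr rfl (fun j hj => ?_)
    funext F
    rw [bd_apply, bd_apply]
    refine sum_congr rfl (fun x hx => ?_)
    by_cases h5 : w j (insert x F) = 0
    · rw [h5, mul_zero, mul_zero]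
    · have h6 := (hw1 j hj _ h5).2
      rw [col_insert] at h6
      have h7 : grade ℕ x ∈ insert j ((Ioo p q).filter (fun t => Even t)) := by
        rw [← h6]; exact mem_insert_self _ _
      congr 1
      unfold wt
      rw [mem_filter] at hj
      rw [mem_insert, mem_filter] at h7
      by_cases h8 : grade ℕ x = j
      · rw [if_pos (by rw [mem_filter, h8]; exact hj), if_pos (by rw [mem_singleton]; exact h8)]
      · rw [if_neg, if_neg (by rw [mem_singleton]; exact h8)]
        rw [mem_filter]; rintro ⟨h9, h10⟩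
        rcases h7 with h7 | h7
        · exact h8 h7
        · exact h10 h7.2

theorem InZ.add {K : Type} [Field K] {m : ℕ} {E A : Finset ℕ} {n : ℕ} {z w : Finset P → K}
    (hz : InZ m E A n z) (hw : InZ m E A n w) : InZ m E A n (z + w) := by
  constructor
  · intro F hF
    rw [Pi.add_apply] at hF
    by_cases h : z F = 0
    · rw [h, zero_add] at hF; exact hw.supp F hF
    · exact hz.supp F h
  · intro l hl; rw [bd_add, hz.ker l hl, hw.ker l hl, add_zero]

theorem InZ.sub {K : Type} [Field K] {m : ℕ} {E A : Finset ℕ} {n : ℕ} {z w : Finset P → K}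
    (hz : InZ m E A n z) (hw : InZ m E A n w) : InZ m E A n (z - w) := by
  constructor
  · intro F hF
    rw [Pi.sub_apply] at hF
    by_cases h : z F = 0
    · rw [h, zero_sub, neg_ne_zero] at hF; exact hw.supp F hF
    · exact hz.supp F h
  · intro l hl; rw [bd_sub, hz.ker l hl, hw.ker l hl, sub_zero]

theorem InZ.bd_od {K : Type} [Field K] {m : ℕ} {E A : Finset ℕ} {n : ℕ} {w : Finset P → K}
    (c : P → K) (hw : InZ m E A (n + 1) w) : InZ m E A n (bd (od c) w) := by
  constructor
  · intro F hF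
    obtain ⟨x, hx, hx1, hx2⟩ := bd_ne_zero hF
    obtain ⟨h1, h2, h3, h4⟩ := hw.supp _ hx2
    have hodd : ¬ Even (grade ℕ x) := by
      intro h; apply hx1; simp [od, h]
    refine ⟨h1.mono (subset_insert _ _), ?_, ?_, ?_⟩
    · rw [card_insert_of_notMem hx] at h2; omega
    · refine Subset.trans ?_ h3; rw [col_insert]; exact subset_insert _ _
    · rw [col_insert, filter_insert, if_neg hodd] at h4; exact h4
  · intro l hl; rw [bd_comm, hw.ker l hl, bd_zero]

theorem ex_all {K : Type} [Field K] [CharP K 2] (m : ℕ) (c : P → K)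
    (hlift : ∀ (E A : Finset ℕ), A ⊆ D0 m → ∀ i ∈ D0 m, i ∉ A → ∀ (n : ℕ) (z : Finset P → K),
      InZ m E A n z →
      ∃ z' : Finset P → K, InZ m (insert i E) (insert i A) (n + 1) z' ∧ bd (th K i) z' = z)
    (hbase : ∀ E ⊆ D0 m, ∀ n < m + E.card, EX m c E (D0 m) n) :
    ∀ A ⊆ D0 m, ∀ E ⊆ A, ∀ n < m + E.card, EX m c E A n := by
  have key : ∀ (r : ℕ) (A : Finset ℕ), A ⊆ D0 m → (D0 m \ A).card = r → ∀ E ⊆ A,
      ∀ n < m + E.card, EX m c E A n := by
    intro r
    induction r with
    | zero =>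
      intro A hA hr E hE n hn
      rw [card_eq_zero, sdiff_eq_empty_iff_subset] at hr
      have : A = D0 m := Subset.antisymm hA hr
      subst this
      exact hbase E hE n hn
    | succ r ih =>
      intro A hA hr E hE n hn z hz hcyc
      obtain ⟨i, hi⟩ : (D0 m \ A).Nonempty := by
        rw [← card_pos]; omega
      rw [mem_sdiff] at hi
      obtain ⟨hiD, hiA⟩ := hi
      have hiE : i ∉ E := fun h => hiA (hE h)
      have hA' : insert i A ⊆ D0 m := insert_subset hiD hA
      have hcard : (D0 m \ insert i A).card = r := by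
        have : D0 m \ insert i A = (D0 m \ A).erase i := by
          ext t; simp only [mem_sdiff, mem_insert, mem_erase]; tauto
        rw [this, card_erase_of_mem (by rw [mem_sdiff]; exact ⟨hiD, hiA⟩), hr]; rfl
      obtain ⟨z', hz', hz'z⟩ := hlift E A hA i hiD hiA n z hz
      -- y = bd (od c) z'
      have hy : InZ m (insert i E) (insert i A) n (bd (od c) z') := hz'.bd_od c
      have hy' : InZ m E (insert i A) n (bd (od c) z') := by
        constructor
        · exact hy.supp
        · intro l hl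
          by_cases h : l = i
          · subst h; rw [bd_comm, hz'z, hcyc]
          · exact hy.ker l (by rw [mem_insert]; tauto)
      obtain ⟨v, hv, hvy⟩ := ih (insert i A) hA' hcard E (hE.trans (subset_insert _ _)) n hn _ hy'
        (bd_self _ _)
      have hv' : InZ m (insert i E) (insert i A) (n + 1) v :=
        ⟨hv.supp, fun l hl => hv.ker l (fun h => hl (mem_insert_of_mem h))⟩
      have hzv : InZ m (insert i E) (insert i A) (n + 1) (z' - v) := hz'.sub hv'
      obtain ⟨w, hw, hwz⟩ := ih (insert i A) hA' hcard (insert i E) (insert_subset_insert _ hE) (n + 1)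
        (by rw [card_insert_of_notMem hiE]; omega) _ hzv (by rw [bd_sub, hvy, sub_self])
      refine ⟨bd (th K i) w, ?_, ?_⟩
      · constructor
        · intro F hF
          obtain ⟨x, hx, hx1, hx2⟩ := bd_ne_zero hF
          have hgx : grade ℕ x = i := by
            by_contra h; apply hx1; simp [th, h]
          obtain ⟨h1, h2, h3, h4⟩ := hw.supp _ hx2
          refine ⟨h1.mono (subset_insert _ _), ?_, ?_, ?_⟩
          · rw [card_insert_of_notMem hx] at h2; omega
          · refine Subset.trans ?_ h3; rw [col_insert]; exact subset_insert _ _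
          · have hic : i ∉ col F := by
              rw [mem_col]; rintro ⟨y, hy, hyi⟩
              have := h1.inj (mem_insert_of_mem hy) (mem_insert_self x F) (by rw [hyi, hgx])
              subst this; exact hx hy
            have hev : Even i := by
              have := hiD; rw [D0, mem_filter] at this; exact this.2
            rw [col_insert, hgx, filter_insert, if_pos hev] at h4
            have h5 : i ∉ (col F).filter (fun t => Even t) := fun h => hic (mem_filter.1 h).1
            rw [← erase_insert h5, h4, erase_insert hiA]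
        · intro l hl
          by_cases h : l = i
          · subst h; exact bd_self _ _
          · rw [bd_comm, hw.ker l (by rw [mem_insert]; tauto), bd_zero]
      · rw [bd_comm, hwz, bd_sub, hz'z, hv.ker i hiE, sub_zero]
  intro A hA E hE n hn
  exact key _ A hA rfl E hE n hn

/-- the dual exactness over a field with generic `c` -/
theorem dual_exact {K : Type} [Field K] [CharP K 2] (m : ℕ) (h0 : grade ℕ (⊥ : P) = 0)
    (h1 : grade ℕ (⊤ : P) = 2 * m + 1) (hE : Eul P) (c : P → K)
    (hgen : ∀ (𝒮 : Finset (Finset P)) (s : Finset P → K),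
      ∑ F ∈ 𝒮, (∏ x ∈ F, c x) * (s F) ^ 2 = 0 → ∀ F ∈ 𝒮, s F = 0)
    (hreg : Reg (CS K (Icc 1 (2 * m)) (∅ : Finset P)) (Icc 1 (2 * m)))
    (n : ℕ) (hn : n < m) (z : Finset P → K) (hz : InR n z) (hcyc : bd c z = 0) :
    ∃ w : Finset P → K, InR (n + 1) w ∧ bd c w = z := by
  have hext := extend_fc (P := P) (Icc 1 (2 * m)) ∅ (by simp [col]) h0
    (fun v hv => by rw [mem_Icc] at hv; omega)
  have hall := ex_all (P := P) m c
    (fun E A hA i hi hiA n z hz => lift_z m hext hreg E A hA i hi hiA n z hz)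
    (fun E hE' n hn => base_case m c
      (fun p q hp hq hpq hqm => wstar m h0 h1 hE c hgen hreg p q hp hq hpq hqm) E hE' n hn)
  exact filt m h0 h1 c n (fun A hA => hall A hA ∅ (empty_subset _) n (by simpa using hn)) z hz hcyc

end Top

open MvPolynomial

theorem final_main :
  ∀ (m : ℕ) (P : Type) [PartialOrder P] [Fintype P] [BoundedOrder P] [GradeOrder ℕ P],
    grade ℕ (⊥ : P) = 0 → grade ℕ (⊤ : P) = 2 * m + 1 →
    (∀ x y : P, x < y →
      Nat.card {z : P // x ≤ z ∧ z ≤ y ∧ Even (grade ℕ z)} =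
        Nat.card {z : P // x ≤ z ∧ z ≤ y ∧ ¬ Even (grade ℕ z)}) →
    ∀ (k : Type) [Field k] [Algebra (ZMod 2) k],
    RingTheory.Sequence.IsWeaklyRegular
      (MvPolynomial P k ⧸ Ideal.span {f : MvPolynomial P k | ∃ x y : P, ¬ x ≤ y ∧ ¬ y ≤ x ∧ f = X x * X y})
      ((List.range (2 * m + 2)).map (fun i : ℕ =>
        Ideal.Quotient.mk (Ideal.span {f : MvPolynomial P k | ∃ x y : P, ¬ x ≤ y ∧ ¬ y ≤ x ∧ f = X x * X y})
          (∑ x : P, if grade ℕ x = i then (X x : MvPolynomial P k) else 0))) →
    ∀ c : P → k, AlgebraicIndependent (ZMod 2) c →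
    ∀ i : ℕ, i < m → ∀ p : MvPolynomial P k, p.IsHomogeneous i →
      Ideal.Quotient.mk
          (Ideal.span {f : MvPolynomial P k | ∃ x y : P, ¬ x ≤ y ∧ ¬ y ≤ x ∧ f = X x * X y} ⊔
            Ideal.span (Set.range (fun j : Fin (2 * m + 2) =>
              ∑ x : P, if grade ℕ x = (j : ℕ) then (X x : MvPolynomial P k) else 0)))
          ((∑ x : P, C (c x) * X x) * p) = 0 →
      (i = 0 ∧
        Ideal.Quotient.mk
          (Ideal.span {f : MvPolynomial P k | ∃ x y : P, ¬ x ≤ y ∧ ¬ y ≤ x ∧ f = X x * X y} ⊔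
            Ideal.span (Set.range (fun j : Fin (2 * m + 2) =>
              ∑ x : P, if grade ℕ x = (j : ℕ) then (X x : MvPolynomial P k) else 0))) p = 0) ∨
      (0 < i ∧ ∃ q : MvPolynomial P k, q.IsHomogeneous (i - 1) ∧
        Ideal.Quotient.mk
          (Ideal.span {f : MvPolynomial P k | ∃ x y : P, ¬ x ≤ y ∧ ¬ y ≤ x ∧ f = X x * X y} ⊔
            Ideal.span (Set.range (fun j : Fin (2 * m + 2) =>
              ∑ x : P, if grade ℕ x = (j : ℕ) then (X x : MvPolynomial P k) else 0))) p =
        Ideal.Quotient.mk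
          (Ideal.span {f : MvPolynomial P k | ∃ x y : P, ¬ x ≤ y ∧ ¬ y ≤ x ∧ f = X x * X y} ⊔
            Ideal.span (Set.range (fun j : Fin (2 * m + 2) =>
              ∑ x : P, if grade ℕ x = (j : ℕ) then (X x : MvPolynomial P k) else 0)))
          ((∑ x : P, C (c x) * X x) * q)) := by
  intro m P _ _ _ _ h0 h1 hE k _ _ hw c hc n hn p hp hwp
  classical
  have hchar : CharP k 2 := charP_of_injective_algebraMap (algebraMap (ZMod 2) k).injective 2
  -- the small field
  let φ : MvPolynomial P (ZMod 2) →+* k := (aeval c : MvPolynomial P (ZMod 2) →ₐ[ZMod 2] k).toRingHom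
  have hφ : Function.Injective φ := hc
  let ψ : FractionRing (MvPolynomial P (ZMod 2)) →+* k := IsFractionRing.lift (A := MvPolynomial P (ZMod 2))
    (K := FractionRing (MvPolynomial P (ZMod 2))) hφ
  let _ : Algebra (FractionRing (MvPolynomial P (ZMod 2))) k := ψ.toAlgebra
  have hcharK : CharP (FractionRing (MvPolynomial P (ZMod 2))) 2 :=
    charP_of_injective_algebraMap (R := ZMod 2) (algebraMap (ZMod 2)
      (FractionRing (MvPolynomial P (ZMod 2)))).injective 2
  let c0 : P → FractionRing (MvPolynomial P (ZMod 2)) := fun x =>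
    algebraMap (MvPolynomial P (ZMod 2)) (FractionRing (MvPolynomial P (ZMod 2))) (X x)
  have hc0 : ∀ x, algebraMap (FractionRing (MvPolynomial P (ZMod 2))) k (c0 x) = c x := by
    intro x
    show ψ (algebraMap (MvPolynomial P (ZMod 2)) (FractionRing (MvPolynomial P (ZMod 2))) (X x)) = c x
    rw [IsFractionRing.lift_algebraMap]
    show aeval c (X x) = c x
    rw [aeval_X]
  have hgen : ∀ (𝒮 : Finset (Finset P)) (s : Finset P → FractionRing (MvPolynomial P (ZMod 2))),
      ∑ F ∈ 𝒮, (∏ x ∈ F, c0 x) * (s F) ^ 2 = 0 → ∀ F ∈ 𝒮, s F = 0 :=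
    fun 𝒮 s h => gen_indep 𝒮 s h
  have hext := extend_fc (P := P) (Icc 1 (2 * m)) ∅ (by simp [col]) h0
    (fun v hv => by rw [mem_Icc] at hv; omega)
  have hregk : Reg (CS k (Icc 1 (2 * m)) (∅ : Finset P)) (Icc 1 (2 * m)) :=
    reg_all (Icc 1 (2 * m)) _ (CS_mono _ _)
      (ring_nat m k (fun S hS F hF hcF => hext S hS F (by rwa [union_empty]) hcF) hw)
  have hregK : Reg (CS (FractionRing (MvPolynomial P (ZMod 2))) (Icc 1 (2 * m)) (∅ : Finset P))
      (Icc 1 (2 * m)) := reg_descent _ _ hregk
  have hdual := dual_exact m h0 h1 hE c0 hgen hregK n hn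
  have hdualk := base_change (K := FractionRing (MvPolynomial P (ZMod 2))) (k := k) c0 n hdual
  have hfun : (fun x => algebraMap (FractionRing (MvPolynomial P (ZMod 2))) k (c0 x)) = c :=
    funext hc0
  rw [hfun] at hdualk
  rw [Ideal.Quotient.eq_zero_iff_mem] at hwp
  rcases bridge m k h0 h1 c n hdualk _ rfl p hp hwp with ⟨h2, h3⟩ | ⟨h2, q, hq, h3⟩
  · left
    exact ⟨h2, Ideal.Quotient.eq_zero_iff_mem.2 h3⟩
  · right
    exact ⟨h2, q, hq, (Ideal.Quotient.mk_eq_mk_iff_sub_mem _ _).2 h3⟩


end Pool.Agent.Helper236.CE
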